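import Mathlib

set_option autoImplicit false

/-!
# Sums of three positive integers with cube product: basics and representations of primes
-/

namespace Pool.Agent.Work.MP_43ce8a_nt

open Finset

/-- `n` is a sum of three positive integers whose product is a cube. -/
def InS (n : ℕ) : Prop :=
  ∃ x y z m : ℕ, 0 < x ∧ 0 < y ∧ 0 < z ∧ x * y * z = m ^ 3 ∧ x + y + z = n

theorem InS.mul {n : ℕ} (h : InS n) {k : ℕ} (hk : 0 < k) : InS (k * n) := by
  obtain ⟨x, y, z, m, hx, hy, hz, h1, h2⟩ := h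
  refine ⟨k * x, k * y, k * z, k * m, by positivity, by positivity, by positivity, ?_, ?_⟩
  · rw [mul_pow, ← h1]; ring
  · rw [← h2]; ring

theorem InS.of_dvd {d n : ℕ} (h : InS d) (hn : 0 < n) (hd : d ∣ n) : InS n := by
  obtain ⟨k, rfl⟩ := hd
  rw [mul_comm]
  exact h.mul (Nat.pos_of_mul_pos_left hn)

/-- a quadratic form `a X^2 + b X Y + c Y^2` with `a b c` a cube represents elements of `S` -/
theorem inS_form {a b c m X Y : ℕ} (ha : 0 < a) (hb : 0 < b) (hc : 0 < c) (hX : 0 < X)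
    (hY : 0 < Y) (h : a * b * c = m ^ 3) : InS (a * X ^ 2 + b * X * Y + c * Y ^ 2) := by
  refine ⟨a * X ^ 2, b * X * Y, c * Y ^ 2, m * X * Y, by positivity, by positivity, by positivity,
    ?_, rfl⟩
  calc a * X ^ 2 * (b * X * Y) * (c * Y ^ 2) = (a * b * c) * (X ^ 3 * Y ^ 3) := by ring
    _ = (m * X * Y) ^ 3 := by rw [h]; ring

/-- integer version -/
theorem inS_of_int {n : ℕ} {a b c m X Y : ℤ} (ha : 0 < a) (hb : 0 < b) (hc : 0 < c) (hX : 0 < X)
    (hY : 0 < Y) (h : a * b * c = m ^ 3) (hn : (n : ℤ) = a * X ^ 2 + b * X * Y + c * Y ^ 2) :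
    InS n := by
  lift a to ℕ using ha.le
  lift b to ℕ using hb.le
  lift c to ℕ using hc.le
  lift X to ℕ using hX.le
  lift Y to ℕ using hY.le
  have hm : 0 ≤ m := by
    by_contra hm
    push Not at hm
    have : m ^ 3 < 0 := Odd.pow_neg (by decide) hm
    have h2 : (0 : ℤ) ≤ (a : ℤ) * b * c := by positivity
    omega
  lift m to ℕ using hm
  have e : n = a * X ^ 2 + b * X * Y + c * Y ^ 2 := by exact_mod_cast hn
  rw [e]
  exact inS_form (by exact_mod_cast ha) (by exact_mod_cast hb) (by exact_mod_cast hc)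
    (by exact_mod_cast hX) (by exact_mod_cast hY) (by exact_mod_cast h)

theorem inS_three : InS 3 := ⟨1, 1, 1, 1, by norm_num, by norm_num, by norm_num, by norm_num,
  by norm_num⟩

theorem inS_64 : InS 64 := ⟨7, 8, 49, 14, by norm_num, by norm_num, by norm_num, by norm_num,
  by norm_num⟩

/-- Thue's lemma -/
theorem thue (p : ℕ) (hp : p.Prime) (m : ℤ) :
    ∃ x y : ℤ, (x, y) ≠ (0, 0) ∧ x ^ 2 < p ∧ y ^ 2 < p ∧ (p : ℤ) ∣ x - m * y := by
  haveI : Fact p.Prime := ⟨hp⟩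
  set s := Nat.sqrt p with hs
  have hs1 : s * s ≤ p := Nat.sqrt_le p
  have hs2 : p < (s + 1) * (s + 1) := Nat.lt_succ_sqrt p
  have hs3 : s * s ≠ p := by
    intro h
    exact (Nat.prime_iff.1 hp).irreducible.not_isSquare ⟨s, h.symm⟩
  have hs4 : s * s < p := lt_of_le_of_ne hs1 hs3
  have hcard : #(univ : Finset (ZMod p)) < #(range (s + 1) ×ˢ range (s + 1)) := by
    rw [Finset.card_product, Finset.card_range, Finset.card_univ, ZMod.card]
    exact hs2
  obtain ⟨⟨u, v⟩, hx, ⟨u', v'⟩, hy, hne, heq⟩ :=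
    Finset.exists_ne_map_eq_of_card_lt_of_maps_to hcard
      (f := fun x : ℕ × ℕ => (x.1 : ZMod p) - (m : ZMod p) * x.2) (fun _ _ => Finset.mem_univ _)
  simp only [Finset.mem_product, Finset.mem_range] at hx hy
  simp only at heq
  have bound : ∀ a b : ℕ, a < s + 1 → b < s + 1 → ((a : ℤ) - b) ^ 2 < p := by
    intro a b ha hb
    have h1 : |(a : ℤ) - b| ≤ s := by
      rw [abs_le]
      constructor <;> omega
    calc ((a : ℤ) - b) ^ 2 = |(a : ℤ) - b| ^ 2 := (sq_abs _).symm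
      _ ≤ (s : ℤ) ^ 2 := by gcongr
      _ < p := by rw [sq]; exact_mod_cast hs4
  refine ⟨(u : ℤ) - u', (v : ℤ) - v', ?_, bound _ _ hx.1 hy.1, bound _ _ hx.2 hy.2, ?_⟩
  · intro h
    simp only [Prod.mk.injEq] at h
    apply hne
    rw [Prod.mk.injEq]
    constructor <;> omega
  · rw [← ZMod.intCast_zmod_eq_zero_iff_dvd]
    push_cast
    linear_combination heq

theorem prime_not_sq (p : ℕ) (hp : p.Prime) (x : ℤ) : x ^ 2 ≠ p := by
  intro h
  have h1 : x.natAbs * x.natAbs = p := by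
    have : (x.natAbs : ℤ) * (x.natAbs : ℤ) = p := by
      rw [Int.natAbs_mul_self' x, ← h]; ring
    exact_mod_cast this
  exact (Nat.prime_iff.1 hp).irreducible.not_isSquare ⟨x.natAbs, h1.symm⟩

/-- small solutions of `x^2 = D y^2` modulo a prime with `D` a square -/
theorem small (p : ℕ) (hp : p.Prime) (D : ℤ) (hD : IsSquare (D : ZMod p)) :
    ∃ x y k : ℤ, 0 ≤ x ∧ 0 ≤ y ∧ (x ≠ 0 ∨ y ≠ 0) ∧ x ^ 2 < p ∧ y ^ 2 < p ∧
      x ^ 2 - D * y ^ 2 = k * p := by
  haveI : Fact p.Prime := ⟨hp⟩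
  obtain ⟨r, hr⟩ := hD
  obtain ⟨x, y, h0, hx, hy, hxy⟩ := thue p hp (r.val : ℤ)
  have h1 : (p : ℤ) ∣ x ^ 2 - D * y ^ 2 := by
    rw [← ZMod.intCast_zmod_eq_zero_iff_dvd] at hxy ⊢
    push_cast at hxy ⊢
    rw [ZMod.natCast_zmod_val] at hxy
    rw [hr]
    linear_combination ((x : ZMod p) + r * y) * hxy
  obtain ⟨k, hk⟩ := h1
  refine ⟨|x|, |y|, k, abs_nonneg _, abs_nonneg _, ?_, by rwa [sq_abs], by rwa [sq_abs], ?_⟩
  · by_contra hcon
    push Not at hcon
    rw [abs_eq_zero, abs_eq_zero] at hcon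
    exact h0 (by rw [hcon.1, hcon.2])
  · rw [sq_abs, sq_abs, hk, mul_comm]

end Pool.Agent.Work.MP_43ce8a_nt
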