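import Mathlib
import Pool.Agent.Work.MP_43ce8a_nt.Basic

set_option autoImplicit false

/-!
# Representations of primes by binary quadratic forms
-/

namespace Pool.Agent.Work.MP_43ce8a_nt

open Finset

instance fact3 : Fact (Nat.Prime 3) := ⟨Nat.prime_three⟩

theorem zmod3 {p : ℕ} (h : p % 3 = 1) : IsSquare (p : ZMod 3) := by
  have : (p : ZMod 3) = 1 := by
    have := (ZMod.natCast_eq_natCast_iff p 1 3).2 h
    simpa using this
  rw [this]; exact IsSquare.one

theorem zmod3' {p : ℕ} (h : p % 3 = 2) : ¬ IsSquare (p : ZMod 3) := by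
  have : (p : ZMod 3) = 2 := by
    have := (ZMod.natCast_eq_natCast_iff p 2 3).2 h
    simpa using this
  rw [this]
  rintro ⟨r, hr⟩
  revert r
  decide

/-- product of two non-squares modulo a prime is a square -/
theorem sq_mul_nonsq {p : ℕ} [Fact p.Prime] {a b : ℤ} (ha : ¬ IsSquare (a : ZMod p))
    (hb : ¬ IsSquare (b : ZMod p)) : IsSquare ((a * b : ℤ) : ZMod p) := by
  by_cases h0 : ((a * b : ℤ) : ZMod p) = 0
  · rw [h0]; exact IsSquare.zero
  · rw [← legendreSym.eq_one_iff p h0, legendreSym.mul,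
      (legendreSym.eq_neg_one_iff p).2 ha, (legendreSym.eq_neg_one_iff p).2 hb]
    norm_num

theorem neg3_sq {p : ℕ} (hp : p.Prime) (h : p % 3 = 1) : IsSquare ((-3 : ℤ) : ZMod p) := by
  have : Fact p.Prime := ⟨hp⟩
  have hodd : p % 2 = 1 := by
    rcases hp.eq_two_or_odd with h2 | h2
    · subst h2; omega
    · exact h2
  have h4 : p % 4 = 1 ∨ p % 4 = 3 := by omega
  rcases h4 with h4 | h4
  · have h1 : IsSquare (-1 : ZMod p) := ZMod.exists_sq_eq_neg_one_iff.2 (by omega)
    have h2 : IsSquare ((3 : ℕ) : ZMod p) :=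
      (ZMod.exists_sq_eq_prime_iff_of_mod_four_eq_one h4 (by norm_num)).2 (zmod3 h)
    have := h1.mul h2
    push_cast at this ⊢
    simpa using this
  · have h1 : ¬ IsSquare ((-1 : ℤ) : ZMod p) := by
      push_cast
      rw [ZMod.exists_sq_eq_neg_one_iff]
      omega
    have h2 : ¬ IsSquare ((3 : ℤ) : ZMod p) := by
      have h3 : p ≠ 3 := by rintro rfl; omega
      have := (ZMod.exists_sq_eq_prime_iff_of_mod_four_eq_three (p := p) (q := 3) h4
        (by norm_num) h3)
      intro hh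
      have h5 : IsSquare ((3 : ℕ) : ZMod p) := by exact_mod_cast hh
      exact this.1 h5 (zmod3 h)
    have := sq_mul_nonsq h1 h2
    simpa using this

theorem three_sq {p : ℕ} (hp : p.Prime) (h : p % 24 = 11) : IsSquare ((3 : ℤ) : ZMod p) := by
  have : Fact p.Prime := ⟨hp⟩
  have h3 : p ≠ 3 := by rintro rfl; omega
  have := (ZMod.exists_sq_eq_prime_iff_of_mod_four_eq_three (p := p) (q := 3) (by omega)
        (by norm_num) h3).2 (zmod3' (by omega))
  exact_mod_cast this

theorem neg2_sq {p : ℕ} (hp : p.Prime) (h : p % 8 = 3) : IsSquare ((-2 : ℤ) : ZMod p) := by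
  have : Fact p.Prime := ⟨hp⟩
  have h2 : p ≠ 2 := by rintro rfl; omega
  have := (ZMod.exists_sq_eq_neg_two_iff h2).2 (Or.inr h)
  simpa using this

theorem six_sq {p : ℕ} (hp : p.Prime) (h : p % 24 = 5) : IsSquare ((6 : ℤ) : ZMod p) := by
  have : Fact p.Prime := ⟨hp⟩
  have h2 : p ≠ 2 := by rintro rfl; omega
  have h3 : ¬ IsSquare ((3 : ℤ) : ZMod p) := by
    intro hh
    have h5 : IsSquare ((3 : ℕ) : ZMod p) := by exact_mod_cast hh
    exact zmod3' (by omega)
      ((ZMod.exists_sq_eq_prime_iff_of_mod_four_eq_one (by omega) (by norm_num)).1 h5)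
  have h4 : ¬ IsSquare ((2 : ℤ) : ZMod p) := by
    intro hh
    have h5 : IsSquare (2 : ZMod p) := by simpa using hh
    rw [ZMod.exists_sq_eq_two_iff h2] at h5
    omega
  have := sq_mul_nonsq h4 h3
  simpa using this

theorem neg6_sq {p : ℕ} (hp : p.Prime) (h : p % 24 = 5 ∨ p % 24 = 11) :
    IsSquare ((-6 : ℤ) : ZMod p) := by
  have : Fact p.Prime := ⟨hp⟩
  rcases h with h | h
  · have h1 : IsSquare (-1 : ZMod p) := ZMod.exists_sq_eq_neg_one_iff.2 (by omega)
    have := h1.mul (six_sq hp h)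
    simpa using this
  · have := (neg2_sq hp (by omega)).mul (three_sq hp h)
    push_cast at this ⊢
    have e : (-6 : ZMod p) = -2 * 3 := by ring
    rw [e]; exact this

/-- `p = 1 mod 3` gives `p` in `S` -/
theorem inS_of_mod3 {p : ℕ} (hp : p.Prime) (h : p % 3 = 1) : InS p := by
  obtain ⟨x, y, k, hx0, hy0, hne, hx, hy, hk⟩ := small p hp (-3) (neg3_sq hp h)
  have hp1 := hp.one_lt
  have hpos : 0 < x ^ 2 - -3 * y ^ 2 := by
    rcases hne with h | h
    · have : 0 < x ^ 2 := by positivity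
      nlinarith [sq_nonneg y]
    · have : 0 < y ^ 2 := by positivity
      nlinarith [sq_nonneg x]
  have hk0 : 0 < k := by
    by_contra hh
    push Not at hh
    nlinarith
  have hk4 : k < 4 := by
    by_contra hh
    push Not at hh
    nlinarith
  have hpodd : (p : ℤ) % 2 = 1 := by
    rcases hp.eq_two_or_odd with h2 | h2 <;> omega
  -- reduce to `p = x^2 + 3 y^2`
  have key : ∃ x y : ℤ, 0 ≤ x ∧ 0 ≤ y ∧ x ^ 2 + 3 * y ^ 2 = p := by
    have h3 : k = 1 ∨ k = 2 ∨ k = 3 := by omega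
    rcases h3 with rfl | rfl | rfl
    · exact ⟨x, y, hx0, hy0, by linarith⟩
    · exfalso
      have e1 : (x ^ 2 + 3 * y ^ 2) % 4 = 2 := by
        have : x ^ 2 + 3 * y ^ 2 = 2 * p := by linarith
        rw [this]; omega
      have e2 : x % 4 = 0 ∨ x % 4 = 1 ∨ x % 4 = 2 ∨ x % 4 = 3 := by omega
      have e3 : y % 4 = 0 ∨ y % 4 = 1 ∨ y % 4 = 2 ∨ y % 4 = 3 := by omega
      rcases e2 with h | h | h | h <;> rcases e3 with h' | h' | h' | h' <;>
        simp [pow_two, Int.add_emod, Int.mul_emod, h, h'] at e1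
    · have h3x : (3 : ℤ) ∣ x := by
        have : (3 : ℤ) ∣ x ^ 2 := ⟨p - y ^ 2, by linarith⟩
        exact Int.prime_three.dvd_of_dvd_pow this
      obtain ⟨x', rfl⟩ := h3x
      exact ⟨y, x', hy0, by linarith, by linarith⟩
  obtain ⟨x, y, hx0, hy0, hxy⟩ := key
  have hx1 : x ≠ 0 := by
    rintro rfl
    have h1 : (p : ℤ) % 3 = 0 := by omega
    omega
  have hy1 : y ≠ 0 := by
    rintro rfl
    exact prime_not_sq p hp x (by linarith)
  rcases lt_trichotomy x y with h | h | h
  · refine inS_of_int (a := 1) (b := 1) (c := 1) (m := 1) (X := y - x) (Y := y + x) (by norm_num)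
      (by norm_num) (by norm_num) (by omega) (by omega) (by norm_num) ?_
    rw [← hxy]; ring
  · exfalso
    subst h
    have : (p : ℤ) % 2 = 0 := by
      rw [← hxy]
      have : x ^ 2 + 3 * x ^ 2 = 2 * (2 * x ^ 2) := by ring
      rw [this]; omega
    omega
  · refine inS_of_int (a := 1) (b := 1) (c := 1) (m := 1) (X := x - y) (Y := 2 * y) (by norm_num)
      (by norm_num) (by norm_num) (by omega) (by omega) (by norm_num) ?_
    rw [← hxy]; ring

/-- `p = 1, 7 mod 8` gives `p` in `S` -/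
theorem inS_of_mod8 {p : ℕ} (hp : p.Prime) (h : p % 8 = 1 ∨ p % 8 = 7) : InS p := by
  have : Fact p.Prime := ⟨hp⟩
  have h2 : p ≠ 2 := by rintro rfl; omega
  have hsq : IsSquare ((2 : ℤ) : ZMod p) := by
    have := (ZMod.exists_sq_eq_two_iff h2).2 h
    simpa using this
  obtain ⟨x, y, k, hx0, hy0, hne, hx, hy, hk⟩ := small p hp 2 hsq
  have hp1 := hp.one_lt
  have hk1 : k < 1 := by
    by_contra hh
    push Not at hh
    nlinarith [sq_nonneg y]
  have hk2 : -2 < k := by
    by_contra hh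
    push Not at hh
    nlinarith [sq_nonneg x]
  have hk0 : k ≠ 0 := by
    rintro rfl
    have h0 : x ^ 2 = 2 * y ^ 2 := by linarith
    have hy1 : y ≠ 0 := by
      rintro rfl
      have : x = 0 := by nlinarith
      rcases hne with h | h
      · exact h this
      · exact h rfl
    have h3 : Irrational (Real.sqrt 2) := irrational_sqrt_two
    apply h3
    refine ⟨(x : ℚ) / y, ?_⟩
    have hy3 : (0 : ℝ) < y := by exact_mod_cast lt_of_le_of_ne hy0 (Ne.symm hy1)
    have hx3 : (0 : ℝ) ≤ x := by exact_mod_cast hx0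
    push_cast
    rw [eq_comm, Real.sqrt_eq_iff_mul_self_eq_of_pos]
    · have : (x : ℝ) ^ 2 = 2 * y ^ 2 := by exact_mod_cast h0
      field_simp
      linarith
    · have : 0 < (x : ℝ) := by
        rcases hx3.lt_or_eq with h | h
        · exact h
        · exfalso
          have h4 : (x : ℝ) ^ 2 = 2 * y ^ 2 := by exact_mod_cast h0
          rw [← h] at h4
          nlinarith
      positivity
  have hkm : k = -1 := by omega
  subst hkm
  have hxy : 2 * y ^ 2 - x ^ 2 = p := by linarith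
  have hlt : x < y := by
    by_contra hh
    push Not at hh
    nlinarith
  have hx1 : x ≠ 0 := by
    rintro rfl
    have h1 : (p : ℤ) % 2 = 0 := by omega
    omega
  refine inS_of_int (a := 1) (b := 4) (c := 2) (m := 2) (X := x) (Y := y - x) (by norm_num)
      (by norm_num) (by norm_num) (by omega) (by omega) (by norm_num) ?_
  rw [← hxy]; ring

theorem emod8 (x : ℤ) : x ^ 2 % 8 = 0 ∨ x ^ 2 % 8 = 1 ∨ x ^ 2 % 8 = 4 := by
  have e : x % 8 = 0 ∨ x % 8 = 1 ∨ x % 8 = 2 ∨ x % 8 = 3 ∨ x % 8 = 4 ∨ x % 8 = 5 ∨ x % 8 = 6 ∨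
    x % 8 = 7 := by omega
  rcases e with h | h | h | h | h | h | h | h <;> simp [pow_two, Int.mul_emod, h]

theorem emod3 (x : ℤ) : x ^ 2 % 3 = 0 ∨ x ^ 2 % 3 = 1 := by
  have e : x % 3 = 0 ∨ x % 3 = 1 ∨ x % 3 = 2 := by omega
  rcases e with h | h | h <;> simp [pow_two, Int.mul_emod, h]

theorem even_of_sq {x t : ℤ} (h : x ^ 2 = 2 * t) : ∃ x', x = 2 * x' := by
  have : (2 : ℤ) ∣ x ^ 2 := ⟨t, h⟩
  exact Int.prime_two.dvd_of_dvd_pow this

theorem three_of_sq {x t : ℤ} (h : x ^ 2 = 3 * t) : ∃ x', x = 3 * x' := by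
  have : (3 : ℤ) ∣ x ^ 2 := ⟨t, h⟩
  exact Int.prime_three.dvd_of_dvd_pow this

/-- `p = 3 mod 8` is `x^2 + 2 y^2` -/
theorem rep2 {p : ℕ} (hp : p.Prime) (h : p % 8 = 3) : ∃ x y : ℤ, x ^ 2 + 2 * y ^ 2 = p := by
  obtain ⟨x, y, k, hx0, hy0, hne, hx, hy, hk⟩ := small p hp (-2) (neg2_sq hp h)
  have hp1 := hp.one_lt
  have hpos : 0 < x ^ 2 - -2 * y ^ 2 := by
    rcases hne with h | h
    · have : 0 < x ^ 2 := by positivity
      nlinarith [sq_nonneg y]
    · have : 0 < y ^ 2 := by positivity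
      nlinarith [sq_nonneg x]
  have hk0 : 0 < k := by
    by_contra hh
    push Not at hh
    nlinarith
  have hk4 : k < 3 := by
    by_contra hh
    push Not at hh
    nlinarith
  have h3 : k = 1 ∨ k = 2 := by omega
  rcases h3 with rfl | rfl
  · exact ⟨x, y, by linarith⟩
  · obtain ⟨x', rfl⟩ := even_of_sq (x := x) (t := p - y ^ 2) (by linarith)
    exact ⟨y, x', by linarith⟩

/-- `p = 5 mod 24` is `6 y^2 - x^2` -/
theorem rep6 {p : ℕ} (hp : p.Prime) (h : p % 24 = 5) : ∃ x y : ℤ, x ^ 2 - 6 * y ^ 2 = -p := by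
  obtain ⟨x, y, k, hx0, hy0, hne, hx, hy, hk⟩ := small p hp 6 (six_sq hp h)
  have hp1 := hp.one_lt
  have hk1 : k < 1 := by
    by_contra hh
    push Not at hh
    nlinarith [sq_nonneg y]
  have hk2 : -6 < k := by
    by_contra hh
    push Not at hh
    nlinarith [sq_nonneg x]
  have h8 := emod8 x
  have h8' := emod8 y
  have h3 := emod3 x
  have h3' := emod3 y
  have hc : k = 0 ∨ k = -1 ∨ k = -2 ∨ k = -3 ∨ k = -4 ∨ k = -5 := by omega
  rcases hc with rfl | rfl | rfl | rfl | rfl | rfl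
  · exfalso
    have h0 : x ^ 2 = 6 * y ^ 2 := by linarith
    have hy1 : y ≠ 0 := by
      rintro rfl
      have : x = 0 := by nlinarith
      rcases hne with h | h
      · exact h this
      · exact h rfl
    have hy2 : y.natAbs ≠ 0 := by omega
    have h1 : x.natAbs ^ 2 = 6 * y.natAbs ^ 2 := by
      zify
      rw [sq_abs, sq_abs]
      exact h0
    have h2 := congrArg (fun t => t.factorization 2) h1
    simp only [Nat.factorization_pow, Nat.factorization_mul (show (6 : ℕ) ≠ 0 by norm_num)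
      (pow_ne_zero 2 hy2), Finsupp.smul_apply, Finsupp.add_apply, smul_eq_mul] at h2
    have h6 : Nat.factorization 6 2 = 1 := by
      have : (6 : ℕ) = 2 * 3 := rfl
      rw [this, Nat.factorization_mul (by norm_num) (by norm_num), Finsupp.add_apply,
        Nat.Prime.factorization_self Nat.prime_two,
        Nat.factorization_eq_zero_of_not_dvd (by norm_num)]
    omega
  · exact ⟨x, y, by linarith⟩
  · exfalso
    obtain ⟨x', rfl⟩ := even_of_sq (x := x) (t := 3 * y ^ 2 - p) (by linarith)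
    have h5 : 3 * y ^ 2 - 2 * x' ^ 2 = p := by linarith
    have h6 := emod3 x'
    omega
  · obtain ⟨x', rfl⟩ := three_of_sq (x := x) (t := 2 * y ^ 2 - p) (by linarith)
    exact ⟨3 * x' - 2 * y, y - x', by linarith⟩
  · obtain ⟨x', rfl⟩ := even_of_sq (x := x) (t := 3 * y ^ 2 - 2 * p) (by linarith)
    obtain ⟨y', rfl⟩ := even_of_sq (x := y) (t := x' ^ 2 + p - y ^ 2) (by linarith)
    exact ⟨x', y', by linarith⟩
  · exfalso
    omega

/-- `p = 5, 11 mod 24` is `2 x^2 + 3 y^2` -/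
theorem repm6 {p : ℕ} (hp : p.Prime) (h : p % 24 = 5 ∨ p % 24 = 11) :
    ∃ x y : ℤ, 2 * x ^ 2 + 3 * y ^ 2 = p := by
  obtain ⟨x, y, k, hx0, hy0, hne, hx, hy, hk⟩ := small p hp (-6) (neg6_sq hp h)
  have hp1 := hp.one_lt
  have hpos : 0 < x ^ 2 - -6 * y ^ 2 := by
    rcases hne with h | h
    · have : 0 < x ^ 2 := by positivity
      nlinarith [sq_nonneg y]
    · have : 0 < y ^ 2 := by positivity
      nlinarith [sq_nonneg x]
  have hk0 : 0 < k := by
    by_contra hh
    push Not at hh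
    nlinarith
  have hk4 : k < 7 := by
    by_contra hh
    push Not at hh
    nlinarith
  have h8 := emod8 x
  have h8' := emod8 y
  have h3 := emod3 x
  have h3' := emod3 y
  have hc : k = 1 ∨ k = 2 ∨ k = 3 ∨ k = 4 ∨ k = 5 ∨ k = 6 := by omega
  rcases hc with rfl | rfl | rfl | rfl | rfl | rfl
  · exfalso; omega
  · obtain ⟨x', rfl⟩ := even_of_sq (x := x) (t := p - 3 * y ^ 2) (by linarith)
    exact ⟨x', y, by linarith⟩
  · obtain ⟨x', rfl⟩ := three_of_sq (x := x) (t := p - 2 * y ^ 2) (by linarith)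
    exact ⟨y, x', by linarith⟩
  · exfalso
    obtain ⟨x', rfl⟩ := even_of_sq (x := x) (t := 2 * p - 3 * y ^ 2) (by linarith)
    obtain ⟨y', rfl⟩ := even_of_sq (x := y) (t := p - x' ^ 2 - y ^ 2) (by linarith)
    have h5 : x' ^ 2 + 6 * y' ^ 2 = p := by linarith
    have h6 := emod3 x'
    omega
  · have h5 : (5 : ℤ) ∣ (x - 2 * y) * (x + 2 * y) := ⟨p - 2 * y ^ 2, by linarith⟩
    rcases Int.Prime.dvd_mul' (by norm_num : Nat.Prime 5) h5 with h6 | h6
    · obtain ⟨t, ht⟩ := h6
      push_cast at ht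
      have hx : x = 5 * t + 2 * y := by linarith
      subst hx
      exact ⟨t + y, -t, by linarith⟩
    · obtain ⟨t, ht⟩ := h6
      push_cast at ht
      have hx : x = 5 * t - 2 * y := by linarith
      subst hx
      exact ⟨t - y, t, by linarith⟩
  · exfalso
    obtain ⟨x', rfl⟩ := even_of_sq (x := x) (t := 3 * p - 3 * y ^ 2) (by linarith)
    obtain ⟨x'', rfl⟩ := three_of_sq (x := x') (t := x' ^ 2 - (p - y ^ 2)) (by linarith)
    have h5 : 6 * x'' ^ 2 + y ^ 2 = p := by linarith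
    have h6 := emod3 y
    omega

end Pool.Agent.Work.MP_43ce8a_nt
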