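import Mathlib
import Pool.Agent.Work.MP_43ce8a_nt.Known

set_option autoImplicit false

/-!
# The multiplicative structure in imaginary quadratic fields

`Bad d l P Q w`: the square `w` of an element whose class modulo `l` is trivial and which is not
in the good sector. Two bad elements multiply to an element which is not bad.
-/

namespace Pool.Agent.Work.MP_43ce8a_nt

open Finset

/-- the inequality behind `bad + bad = good` -/
theorem core {D P Q s R1 I1 R2 I2 : ℤ} (hD : 0 < D) (hP : 0 < P) (hQ : 0 < Q)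
    (hPQ : P * (P - Q) ^ 2 < 4 * Q ^ 3) (h1 : D * Q * I1 ^ 2 ≤ P * R1 ^ 2)
    (h2 : D * Q * I2 ^ 2 ≤ P * R2 ^ 2) (hs : s ^ 2 = 1) (hs0 : 0 < s * (R1 * R2))
    (h3 : s * (R1 * R2 - D * I1 * I2) ≤ 0)
    (h4 : D * Q * (R1 * I2 + R2 * I1) ^ 2 ≤ P * (R1 * R2 - D * I1 * I2) ^ 2) : False := by
  set a := s * (R1 * R2) with ha
  set b := s * (D * I1 * I2) with hb
  have hab : a ≤ b := by nlinarith
  have e1 : a ^ 2 = R1 ^ 2 * R2 ^ 2 := by
    rw [ha]; linear_combination (R1 ^ 2 * R2 ^ 2) * hs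
  have e2 : b ^ 2 = D ^ 2 * I1 ^ 2 * I2 ^ 2 := by
    rw [hb]; linear_combination (D ^ 2 * I1 ^ 2 * I2 ^ 2) * hs
  have e3 : (R1 * R2 - D * I1 * I2) ^ 2 = (b - a) ^ 2 := by
    rw [ha, hb]; linear_combination -((R1 * R2 - D * I1 * I2) ^ 2) * hs
  have e4 : D * (4 * R1 * R2 * I1 * I2) = 4 * a * b := by
    rw [ha, hb]; linear_combination -(4 * R1 * R2 * D * I1 * I2) * hs
  rw [e3] at h4
  -- b Q ≤ P a
  have h5 : (b * Q) ^ 2 ≤ (P * a) ^ 2 := by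
    have h6 : (D * Q * I1 ^ 2) * (D * Q * I2 ^ 2) ≤ (P * R1 ^ 2) * (P * R2 ^ 2) :=
      mul_le_mul h1 h2 (by positivity) (by positivity)
    calc (b * Q) ^ 2 = (D * Q * I1 ^ 2) * (D * Q * I2 ^ 2) := by rw [mul_pow, e2]; ring
      _ ≤ (P * R1 ^ 2) * (P * R2 ^ 2) := h6
      _ = (P * a) ^ 2 := by rw [mul_pow, e1]; ring
  have hb0 : 0 < b := by linarith
  have h6 : b * Q ≤ P * a := by
    apply le_of_sq_le_sq h5 (by positivity)
  have h7 : 0 ≤ (b - a) * Q := mul_nonneg (by linarith) hQ.le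
  have h8 : (b - a) * Q ≤ (P - Q) * a := by linarith
  have h9 : ((b - a) * Q) ^ 2 ≤ ((P - Q) * a) ^ 2 := by
    apply pow_le_pow_left₀ h7 h8
  have h10 : 4 * R1 * R2 * I1 * I2 ≤ (R1 * I2 + R2 * I1) ^ 2 := by
    nlinarith [sq_nonneg (R1 * I2 - R2 * I1)]
  have h11 : 4 * Q * (a * b) ≤ P * (b - a) ^ 2 := by
    calc 4 * Q * (a * b) = Q * (D * (4 * R1 * R2 * I1 * I2)) := by rw [e4]; ring
      _ ≤ Q * (D * (R1 * I2 + R2 * I1) ^ 2) := by gcongr
      _ = D * Q * (R1 * I2 + R2 * I1) ^ 2 := by ring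
      _ ≤ _ := h4
  have h12 : Q ^ 2 * (P * (b - a) ^ 2) ≤ P * (P - Q) ^ 2 * a ^ 2 := by
    calc Q ^ 2 * (P * (b - a) ^ 2) = P * ((b - a) * Q) ^ 2 := by ring
      _ ≤ P * ((P - Q) * a) ^ 2 := by gcongr
      _ = _ := by ring
  have h13 : P * (P - Q) ^ 2 * a ^ 2 < 4 * Q ^ 3 * a ^ 2 := by
    apply mul_lt_mul_of_pos_right hPQ (by positivity)
  have h14 : 4 * Q ^ 3 * a ^ 2 ≤ Q ^ 2 * (4 * Q * (a * b)) := by
    calc 4 * Q ^ 3 * a ^ 2 = Q ^ 2 * (4 * Q * (a * a)) := by ring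
      _ ≤ _ := by gcongr
  have h15 : Q ^ 2 * (4 * Q * (a * b)) ≤ Q ^ 2 * (P * (b - a) ^ 2) := by gcongr
  linarith

/-- bad squares -/
def Bad (d : ℤ) (l : ℕ) (P Q : ℤ) (w : ℤ√d) : Prop :=
  (l : ℤ) ∣ w.im ∧ ((IsSquare (w.re : ZMod l) ∧ w.re ≤ 0) ∨
    (¬ IsSquare (w.re : ZMod l) ∧ 0 ≤ w.re)) ∧ -d * Q * w.im ^ 2 ≤ P * w.re ^ 2

section
variable {d : ℤ} {l : ℕ} [hl : Fact l.Prime] {P Q : ℤ}

theorem sq_nonsq {x y : ZMod l} (hx : IsSquare x) (hx0 : x ≠ 0) (hy : ¬ IsSquare y) :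
    ¬ IsSquare (x * y) := by
  rintro ⟨t, ht⟩
  obtain ⟨r, rfl⟩ := hx
  have hr : r ≠ 0 := by
    rintro rfl
    exact hx0 (by ring)
  apply hy
  refine ⟨t / r, ?_⟩
  field_simp
  linear_combination ht

theorem re_cast {w1 w2 : ℤ√d} (h1 : (l : ℤ) ∣ w1.im) :
    (((w1 * w2).re : ℤ) : ZMod l) = (w1.re : ZMod l) * (w2.re : ZMod l) := by
  rw [← ZMod.intCast_zmod_eq_zero_iff_dvd] at h1
  rw [Zsqrtd.re_mul]
  push_cast
  rw [h1]
  ring

theorem bad_mul (hd : d < 0) (hP : 0 < P) (hQ : 0 < Q) (hPQ : P * (P - Q) ^ 2 < 4 * Q ^ 3)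
    {w1 w2 : ℤ√d} (h1 : Bad d l P Q w1) (h2 : Bad d l P Q w2) (n1 : ¬ (l : ℤ) ∣ w1.re)
    (n2 : ¬ (l : ℤ) ∣ w2.re) : ¬ Bad d l P Q (w1 * w2) := by
  rintro ⟨h3, h4, h5⟩
  obtain ⟨a1, a2, a3⟩ := h1
  obtain ⟨b1, b2, b3⟩ := h2
  have m1 : (w1.re : ZMod l) ≠ 0 := by
    rwa [Ne, ZMod.intCast_zmod_eq_zero_iff_dvd]
  have m2 : (w2.re : ZMod l) ≠ 0 := by
    rwa [Ne, ZMod.intCast_zmod_eq_zero_iff_dvd]
  have r1 : w1.re ≠ 0 := by rintro h; rw [h] at n1; exact n1 (dvd_zero _)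
  have r2 : w2.re ≠ 0 := by rintro h; rw [h] at n2; exact n2 (dvd_zero _)
  rw [re_cast a1] at h4
  have hD : 0 < -d := by omega
  have e5 : -d * Q * (w1.re * w2.im + w2.re * w1.im) ^ 2 ≤
      P * (w1.re * w2.re - -d * w1.im * w2.im) ^ 2 := by
    rw [Zsqrtd.re_mul, Zsqrtd.im_mul] at h5
    calc _ = -d * Q * (w1.re * w2.im + w1.im * w2.re) ^ 2 := by ring
      _ ≤ _ := h5
      _ = _ := by ring
  have ere : (w1 * w2).re = w1.re * w2.re - -d * w1.im * w2.im := by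
    rw [Zsqrtd.re_mul]; ring
  rw [ere] at h4
  rcases a2 with ⟨a2, a4⟩ | ⟨a2, a4⟩ <;> rcases b2 with ⟨b2, b4⟩ | ⟨b2, b4⟩
  · -- square, square
    have hsq : IsSquare ((w1.re : ZMod l) * (w2.re : ZMod l)) := a2.mul b2
    rcases h4 with ⟨h4, h6⟩ | ⟨h4, h6⟩
    · have a5 : w1.re < 0 := lt_of_le_of_ne a4 r1
      have b5 : w2.re < 0 := lt_of_le_of_ne b4 r2
      exact core (s := 1) hD hP hQ hPQ a3 b3 (by norm_num)
        (by rw [one_mul]; exact mul_pos_of_neg_of_neg a5 b5) (by linarith) e5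
    · exact h4 hsq
  · have hsq : ¬ IsSquare ((w1.re : ZMod l) * (w2.re : ZMod l)) := sq_nonsq a2 m1 b2
    rcases h4 with ⟨h4, h6⟩ | ⟨h4, h6⟩
    · exact hsq h4
    · have a5 : w1.re < 0 := lt_of_le_of_ne a4 r1
      have b5 : 0 < w2.re := lt_of_le_of_ne b4 (Ne.symm r2)
      exact core (s := -1) hD hP hQ hPQ a3 b3 (by norm_num)
        (by nlinarith) (by linarith) e5
  · have hsq : ¬ IsSquare ((w1.re : ZMod l) * (w2.re : ZMod l)) := by
      rw [mul_comm]; exact sq_nonsq b2 m2 a2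
    rcases h4 with ⟨h4, h6⟩ | ⟨h4, h6⟩
    · exact hsq h4
    · have a5 : 0 < w1.re := lt_of_le_of_ne a4 (Ne.symm r1)
      have b5 : w2.re < 0 := lt_of_le_of_ne b4 r2
      exact core (s := -1) hD hP hQ hPQ a3 b3 (by norm_num)
        (by nlinarith) (by linarith) e5
  · have hsq : IsSquare ((w1.re : ZMod l) * (w2.re : ZMod l)) := by
      have := sq_mul_nonsq a2 b2
      push_cast at this
      exact this
    rcases h4 with ⟨h4, h6⟩ | ⟨h4, h6⟩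
    · have a5 : 0 < w1.re := lt_of_le_of_ne a4 (Ne.symm r1)
      have b5 : 0 < w2.re := lt_of_le_of_ne b4 (Ne.symm r2)
      exact core (s := 1) hD hP hQ hPQ a3 b3 (by norm_num)
        (by nlinarith) (by linarith) e5
    · exact h4 hsq

/-- badness does not change under multiplication by the square of an integer prime to `l` -/
theorem bad_scale {w : ℤ√d} {n : ℤ} (hn : ¬ (l : ℤ) ∣ n) :
    Bad d l P Q ((n : ℤ√d) ^ 2 * w) ↔ Bad d l P Q w := by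
  have hn0 : (n : ZMod l) ≠ 0 := by
    rwa [Ne, ZMod.intCast_zmod_eq_zero_iff_dvd]
  have hn1 : n ≠ 0 := by rintro rfl; exact hn (dvd_zero _)
  have ere : ((n : ℤ√d) ^ 2 * w).re = n ^ 2 * w.re := by
    have : (n : ℤ√d) ^ 2 = ((n ^ 2 : ℤ) : ℤ√d) := by push_cast; rfl
    rw [this, Zsqrtd.re_mul, Zsqrtd.re_intCast, Zsqrtd.im_intCast]
    ring
  have eim : ((n : ℤ√d) ^ 2 * w).im = n ^ 2 * w.im := by
    have : (n : ℤ√d) ^ 2 = ((n ^ 2 : ℤ) : ℤ√d) := by push_cast; rfl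
    rw [this, Zsqrtd.im_mul, Zsqrtd.re_intCast, Zsqrtd.im_intCast]
    ring
  have hpos : 0 < n ^ 2 := by positivity
  have hpl : Prime (l : ℤ) := Nat.prime_iff_prime_int.1 hl.out
  have hn2 : ¬ (l : ℤ) ∣ n ^ 2 := fun h => hn (hpl.dvd_of_dvd_pow h)
  unfold Bad
  rw [ere, eim]
  have c1 : (l : ℤ) ∣ n ^ 2 * w.im ↔ (l : ℤ) ∣ w.im := by
    constructor
    · intro h
      exact (hpl.dvd_or_dvd h).resolve_left hn2
    · intro h
      exact Dvd.dvd.mul_left h _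
  have c2 : IsSquare ((n ^ 2 * w.re : ℤ) : ZMod l) ↔ IsSquare (w.re : ZMod l) := by
    push_cast
    constructor
    · rintro ⟨t, ht⟩
      refine ⟨t / n, ?_⟩
      field_simp
      linear_combination ht
    · rintro ⟨t, ht⟩
      exact ⟨n * t, by rw [ht]; ring⟩
  have c3 : n ^ 2 * w.re ≤ 0 ↔ w.re ≤ 0 := by
    constructor
    · intro h
      by_contra hh
      push Not at hh
      nlinarith
    · intro h
      nlinarith
  have c4 : 0 ≤ n ^ 2 * w.re ↔ 0 ≤ w.re := by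
    constructor
    · intro h
      by_contra hh
      push Not at hh
      nlinarith
    · intro h
      positivity
  have c5 : -d * Q * (n ^ 2 * w.im) ^ 2 ≤ P * (n ^ 2 * w.re) ^ 2 ↔
      -d * Q * w.im ^ 2 ≤ P * w.re ^ 2 := by
    have e1 : -d * Q * (n ^ 2 * w.im) ^ 2 = n ^ 4 * (-d * Q * w.im ^ 2) := by ring
    have e2 : P * (n ^ 2 * w.re) ^ 2 = n ^ 4 * (P * w.re ^ 2) := by ring
    rw [e1, e2]
    exact mul_le_mul_iff_of_pos_left (by positivity)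
  rw [c1, c2, c3, c4, c5]

/-- the class of an element modulo `l` -/
def cls (w : ℤ√d) : Option (ZMod l) :=
  if (w.im : ZMod l) = 0 then none else some ((w.re : ZMod l) / (w.im : ZMod l))

theorem cls_eq {w1 w2 : ℤ√d} (h : cls (l := l) w1 = cls (l := l) w2) :
    (l : ℤ) ∣ (w1 * star w2).im := by
  rw [← ZMod.intCast_zmod_eq_zero_iff_dvd]
  have e : (w1 * star w2).im = w1.im * w2.re - w1.re * w2.im := by
    rw [Zsqrtd.im_mul, Zsqrtd.re_star, Zsqrtd.im_star]; ring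
  rw [e]
  push_cast
  unfold cls at h
  split_ifs at h with h1 h2 h2
  · rw [h1, h2]; ring
  · rw [Option.some_inj] at h
    field_simp at h
    linear_combination -h

end

end Pool.Agent.Work.MP_43ce8a_nt
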