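import Mathlib
import Pool.Agent.Work.MP_43ce8a_nt.Imag

set_option autoImplicit false

/-!
# The pigeonhole principle: products of several distinct primes
-/

namespace Pool.Agent.Work.MP_43ce8a_nt

open Finset

theorem not_isSquare_prod {D : Finset ℕ} (hD : ∀ p ∈ D, p.Prime) (hne : D.Nonempty) :
    ¬ IsSquare (∏ p ∈ D, p) := by
  obtain ⟨q, hq⟩ := hne
  rintro ⟨r, hr⟩
  have hqp := hD q hq
  rw [← Finset.mul_prod_erase D (fun p => p) hq] at hr
  have h1 : q ∣ r * r := ⟨_, hr.symm⟩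
  have h2 : q ∣ r := by
    rcases (hqp.dvd_mul).1 h1 with h | h <;> exact h
  obtain ⟨t, rfl⟩ := h2
  have h3 : ∏ p ∈ D.erase q, p = q * (t * t) := by
    have : q * ∏ p ∈ D.erase q, p = q * (q * (t * t)) := by rw [hr]; ring
    exact Nat.eq_of_mul_eq_mul_left hqp.pos this
  have h4 : q ∣ ∏ p ∈ D.erase q, p := ⟨_, h3⟩
  obtain ⟨p, hp, hqp'⟩ := (Prime.dvd_finsetProd_iff (Nat.prime_iff.1 hqp) _).1 h4
  rw [Finset.mem_erase] at hp
  exact hp.1 ((Nat.prime_dvd_prime_iff_eq hqp (hD p hp.2)).1 hqp').symm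

/-- a multiplicative system of representations -/
structure Sys (d : ℤ) (l : ℕ) (P Q : ℤ) (Rep : ℕ → ℤ√d → Prop) : Prop where
  one : Rep 1 1
  mul : ∀ {m m' : ℕ} {w w' : ℤ√d}, Rep m w → Rep m' w' → Rep (m * m') (w * w')
  conj : ∀ {m : ℕ} {w : ℤ√d}, Rep m w → Rep m (star w)
  norm : ∀ {m : ℕ} {w : ℤ√d}, Rep m w → w * star w = ((m : ℤ) : ℤ√d) ^ 2
  nondeg : ∀ {m : ℕ} {w : ℤ√d}, Rep m w → Nat.Coprime m 6 → ¬ IsSquare m → w.im ≠ 0
  good : ∀ {m : ℕ} {w : ℤ√d}, Rep m w → ¬ l ∣ m → w.im ≠ 0 →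
    (l : ℤ) ∣ w.im → ¬ Bad d l P Q w → InS m

theorem coprime_six {p : ℕ} (hp : p.Prime) (h2 : p ≠ 2) (h3 : p ≠ 3) : Nat.Coprime p 6 := by
  have : (6 : ℕ) = 2 * 3 := rfl
  rw [this]
  exact Nat.Coprime.mul_right ((Nat.coprime_primes hp Nat.prime_two).2 h2)
    ((Nat.coprime_primes hp Nat.prime_three).2 h3)

section
variable {d : ℤ} {l : ℕ} [hl : Fact l.Prime] {P Q : ℤ} {Rep : ℕ → ℤ√d → Prop}

theorem Sys.not_dvd_re (S : Sys d l P Q Rep) {m : ℕ} {w : ℤ√d} (h : Rep m w) (hm : ¬ l ∣ m)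
    (him : (l : ℤ) ∣ w.im) : ¬ (l : ℤ) ∣ w.re := by
  intro hre
  have h1 := congrArg Zsqrtd.re (S.norm h)
  have e2 : ((m : ℤ) : ℤ√d) ^ 2 = (((m : ℤ) ^ 2 : ℤ) : ℤ√d) := by push_cast; rfl
  rw [e2, Zsqrtd.re_intCast, Zsqrtd.re_mul, Zsqrtd.re_star, Zsqrtd.im_star] at h1
  have h2 : (l : ℤ) ∣ (m : ℤ) ^ 2 := by
    rw [← h1]
    exact dvd_add (Dvd.dvd.mul_right hre _) (Dvd.dvd.mul_left (Int.dvd_neg.2 him) _)
  have hpl : Prime (l : ℤ) := Nat.prime_iff_prime_int.1 hl.out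
  exact hm (Int.natCast_dvd_natCast.1 (hpl.dvd_of_dvd_pow h2))

/-- the key statement for three products -/
theorem Sys.bad3 (S : Sys d l P Q Rep) (hd : d < 0) (hP : 0 < P) (hQ : 0 < Q)
    (hPQ : P * (P - Q) ^ 2 < 4 * Q ^ 3) {m1 m2 : ℕ} {w1 w2 : ℤ√d} (h1 : Rep m1 w1)
    (h2 : Rep m2 w2) (n1 : ¬ l ∣ m1) (n2 : ¬ l ∣ m2) (b1 : Bad d l P Q w1)
    (b2 : Bad d l P Q w2) : ¬ Bad d l P Q (w1 * w2) :=
  bad_mul hd hP hQ hPQ b1 b2 (S.not_dvd_re h1 n1 b1.1) (S.not_dvd_re h2 n2 b2.1)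

omit hl in
theorem Sys.prod (S : Sys d l P Q Rep) {s : Finset ℕ} {w : ℕ → ℤ√d}
    (hw : ∀ p ∈ s, Rep p (w p)) : Rep (∏ p ∈ s, p) (∏ p ∈ s, w p) := by
  induction s using Finset.induction_on with
  | empty => simpa using S.one
  | insert a t ha ih =>
    rw [Finset.prod_insert ha, Finset.prod_insert ha]
    exact S.mul (hw a (Finset.mem_insert_self _ _))
      (ih (fun p hp => hw p (Finset.mem_insert_of_mem hp)))

theorem Sys.pigeon (S : Sys d l P Q Rep) (hd : d < 0) (hP : 0 < P) (hQ : 0 < Q)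
    (hPQ : P * (P - Q) ^ 2 < 4 * Q ^ 3) (T : Finset (Option (ZMod l)))
    (hT : ∀ {m : ℕ} {w : ℤ√d}, Rep m w → ¬ l ∣ m → cls w ∈ T) (s : Finset ℕ)
    (hs : ∀ p ∈ s, p.Prime ∧ p ≠ 2 ∧ p ≠ 3 ∧ p ≠ l) (w : ℕ → ℤ√d)
    (hw : ∀ p ∈ s, Rep p (w p)) (hcard : #T * 2 < 2 ^ #s) : InS (∏ p ∈ s, p) := by
  classical
  have hpl : Prime (l : ℤ) := Nat.prime_iff_prime_int.1 hl.out
  set W : Finset ℕ → ℤ√d := fun A => ∏ p ∈ A, w p with hW
  set M : Finset ℕ → ℕ := fun A => ∏ p ∈ A, p with hM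
  have hrep : ∀ A ⊆ s, Rep (M A) (W A) := fun A hA => S.prod (fun p hp => hw p (hA hp))
  have hnl : ∀ A ⊆ s, ¬ l ∣ M A := by
    intro A hA h
    obtain ⟨p, hp, h⟩ := (Prime.dvd_finsetProd_iff (Nat.prime_iff.1 hl.out) _).1 h
    exact (hs p (hA hp)).2.2.2 ((Nat.prime_dvd_prime_iff_eq hl.out (hs p (hA hp)).1).1 h).symm
  obtain ⟨y, hy, hy3⟩ := Finset.exists_lt_card_fiber_of_mul_lt_card_of_maps_to
    (s := s.powerset) (t := T) (f := fun A => cls (l := l) (W A)) (n := 2)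
    (fun A hA => hT (hrep A (Finset.mem_powerset.1 hA)) (hnl A (Finset.mem_powerset.1 hA)))
    (by rw [Finset.card_powerset]; exact hcard)
  obtain ⟨A, hA, B, hB, C, hC, hAB, hAC, hBC⟩ := Finset.two_lt_card.1 hy3
  simp only [Finset.mem_filter, Finset.mem_powerset] at hA hB hC
  have hMpos : ∀ A ⊆ s, M A ≠ 0 := fun A hA =>
    Finset.prod_ne_zero_iff.2 (fun p hp => (hs p (hA hp)).1.ne_zero)
  -- a pair which is not bad settles the matter
  have pair : ∀ A B : Finset ℕ, A ⊆ s → B ⊆ s → A ≠ B →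
      cls (l := l) (W A) = cls (l := l) (W B) →
      ¬ Bad d l P Q (W A * star (W B)) → InS (∏ p ∈ s, p) := by
    intro A B hA hB hne hcl hnb
    have e1 : W A = W (A \ B) * W (A ∩ B) := by
      rw [hW]
      simp only
      rw [← Finset.prod_union (Finset.disjoint_sdiff_inter A B), Finset.sdiff_union_inter]
    have e2 : W B = W (B \ A) * W (A ∩ B) := by
      rw [hW]
      simp only
      rw [Finset.inter_comm A B, ← Finset.prod_union (Finset.disjoint_sdiff_inter B A),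
        Finset.sdiff_union_inter]
    have hI : A ∩ B ⊆ s := Finset.inter_subset_left.trans hA
    have hD1 : A \ B ⊆ s := Finset.sdiff_subset.trans hA
    have hD2 : B \ A ⊆ s := Finset.sdiff_subset.trans hB
    have e3 := S.norm (hrep (A ∩ B) hI)
    set δ := W (A \ B) * star (W (B \ A)) with hδ
    have e4 : W A * star (W B) = ((M (A ∩ B) : ℤ) : ℤ√d) ^ 2 * δ := by
      rw [← e3, hδ, e1, e2, star_mul]
      ring
    have hn : ¬ (l : ℤ) ∣ (M (A ∩ B) : ℤ) := fun h => hnl _ hI (Int.natCast_dvd_natCast.1 h)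
    have h5 : ¬ Bad d l P Q δ := by
      rw [e4, bad_scale hn] at hnb
      exact hnb
    have h6 : (l : ℤ) ∣ δ.im := by
      have h7 := cls_eq hcl
      rw [e4] at h7
      have e5 : ((M (A ∩ B) : ℤ) : ℤ√d) ^ 2 = (((M (A ∩ B) : ℤ) ^ 2 : ℤ) : ℤ√d) := by
        push_cast; rfl
      rw [e5, Zsqrtd.im_mul, Zsqrtd.re_intCast, Zsqrtd.im_intCast] at h7
      have h8 : (l : ℤ) ∣ (M (A ∩ B) : ℤ) ^ 2 * δ.im := by
        have : (M (A ∩ B) : ℤ) ^ 2 * δ.im = (M (A ∩ B) : ℤ) ^ 2 * δ.im + 0 * δ.re := by ring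
        rw [this]; exact h7
      rcases hpl.dvd_or_dvd h8 with h | h
      · exact absurd (hpl.dvd_of_dvd_pow h) hn
      · exact h
    have hrepδ : Rep (M (A \ B) * M (B \ A)) δ := S.mul (hrep _ hD1) (S.conj (hrep _ hD2))
    have hdisj : Disjoint (A \ B) (B \ A) := disjoint_sdiff_sdiff
    have hMu : M (A \ B) * M (B \ A) = ∏ p ∈ (A \ B) ∪ (B \ A), p :=
      (Finset.prod_union hdisj).symm
    have hU : (A \ B) ∪ (B \ A) ⊆ s := Finset.union_subset hD1 hD2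
    have hUne : ((A \ B) ∪ (B \ A)).Nonempty := by
      rw [Finset.nonempty_iff_ne_empty]
      intro h
      rw [Finset.union_eq_empty, Finset.sdiff_eq_empty_iff_subset,
        Finset.sdiff_eq_empty_iff_subset] at h
      exact hne (Finset.Subset.antisymm h.1 h.2)
    have hInS : InS (M (A \ B) * M (B \ A)) := by
      apply S.good hrepδ _ _ h6 h5
      · rw [hMu]; exact hnl _ hU
      · apply S.nondeg hrepδ
        · rw [hMu]
          apply Nat.Coprime.prod_left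
          intro p hp
          exact coprime_six (hs p (hU hp)).1 (hs p (hU hp)).2.1 (hs p (hU hp)).2.2.1
        · rw [hMu]
          exact not_isSquare_prod (fun p hp => (hs p (hU hp)).1) hUne
    apply hInS.of_dvd
    · exact Nat.pos_of_ne_zero (hMpos s (Finset.Subset.refl s))
    · rw [hMu]
      exact Finset.prod_dvd_prod_of_subset _ _ _ hU
  by_contra hcon
  have bAB : Bad d l P Q (W A * star (W B)) := by
    by_contra h
    exact hcon (pair A B hA.1 hB.1 hAB (hA.2.trans hB.2.symm) h)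
  have bBC : Bad d l P Q (W B * star (W C)) := by
    by_contra h
    exact hcon (pair B C hB.1 hC.1 hBC (hB.2.trans hC.2.symm) h)
  have bAC : Bad d l P Q (W A * star (W C)) := by
    by_contra h
    exact hcon (pair A C hA.1 hC.1 hAC (hA.2.trans hC.2.symm) h)
  have rAB := S.mul (hrep A hA.1) (S.conj (hrep B hB.1))
  have rBC := S.mul (hrep B hB.1) (S.conj (hrep C hC.1))
  have nn : ∀ A B : Finset ℕ, A ⊆ s → B ⊆ s → ¬ l ∣ M A * M B := by
    intro A B hA hB h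
    rcases (hl.out.dvd_mul).1 h with h | h
    · exact hnl A hA h
    · exact hnl B hB h
  have h7 := S.bad3 hd hP hQ hPQ rAB rBC (nn A B hA.1 hB.1) (nn B C hB.1 hC.1) bAB bBC
  have e6 : W A * star (W B) * (W B * star (W C)) = ((M B : ℤ) : ℤ√d) ^ 2 * (W A * star (W C)) := by
    rw [← S.norm (hrep B hB.1)]; ring
  rw [e6, bad_scale (fun h => hnl B hB.1 (Int.natCast_dvd_natCast.1 h))] at h7
  exact h7 bAC

end

end Pool.Agent.Work.MP_43ce8a_nt
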