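import Mathlib
import Pool.Agent.Work.MP_43ce8a_nt.Pigeon

set_option autoImplicit false

/-!
# The two imaginary systems: `d = -2, l = 5` and `d = -6, l = 17`
-/

namespace Pool.Agent.Work.MP_43ce8a_nt

open Finset

theorem inS_sq {n : ℕ} {a t e m A B : ℤ} (ha : 0 < a) (ht : 0 < t) (hc : 0 < a * t ^ 2 + e)
    (h : a * (2 * a * t) * (a * t ^ 2 + e) = m ^ 3) (hB : 0 < B) (hA : t * B < A)
    (hn : (n : ℤ) = a * A ^ 2 + e * B ^ 2) : InS n := by
  refine inS_of_int (a := a) (b := 2 * a * t) (c := a * t ^ 2 + e) (m := m) (X := A - t * B)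
    (Y := B) ha (by positivity) hc (by linarith) hB h ?_
  rw [hn]; ring

theorem abs_lt_of_sq {a b u v : ℤ} (_ha : 0 ≤ a) (hb : 0 ≤ b) (h : a ^ 2 * u ^ 2 < b ^ 2 * v ^ 2) :
    a * |u| < b * |v| := by
  rw [← sq_abs u, ← sq_abs v] at h
  have h1 : (a * |u|) ^ 2 < (b * |v|) ^ 2 := by
    calc (a * |u|) ^ 2 = a ^ 2 * |u| ^ 2 := by ring
      _ < b ^ 2 * |v| ^ 2 := h
      _ = _ := by ring
  exact lt_of_pow_lt_pow_left₀ 2 (by positivity) h1

instance fact5 : Fact (Nat.Prime 5) := ⟨by norm_num⟩
instance fact17 : Fact (Nat.Prime 17) := ⟨by norm_num⟩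

/-- representations by `x^2 + 2 y^2` -/
def Rep2 (m : ℕ) (w : ℤ√(-2)) : Prop :=
  ∃ x y : ℤ, (m : ℤ) = x ^ 2 + 2 * y ^ 2 ∧ w = ⟨x ^ 2 - 2 * y ^ 2, 2 * (x * y)⟩

/-- representations by `x^2 + 6 y^2` or `2 x^2 + 3 y^2` -/
def Rep6 (m : ℕ) (w : ℤ√(-6)) : Prop :=
  ∃ x y : ℤ, ((m : ℤ) = x ^ 2 + 6 * y ^ 2 ∧ w = ⟨x ^ 2 - 6 * y ^ 2, 2 * (x * y)⟩) ∨
    ((m : ℤ) = 2 * x ^ 2 + 3 * y ^ 2 ∧ w = ⟨2 * x ^ 2 - 3 * y ^ 2, 2 * (x * y)⟩)

theorem not_coprime_of_two {m : ℕ} {t : ℤ} (h : Nat.Coprime m 6) : (m : ℤ) ≠ 2 * t := by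
  intro hm
  have h2 : 2 ∣ m := by omega
  have := Nat.Coprime.coprime_dvd_left h2 h
  norm_num at this

theorem not_coprime_of_three {m : ℕ} {t : ℤ} (h : Nat.Coprime m 6) : (m : ℤ) ≠ 3 * t := by
  intro hm
  have h2 : 3 ∣ m := by omega
  have := Nat.Coprime.coprime_dvd_left h2 h
  norm_num at this

theorem not_sq_int {m : ℕ} (h : ¬ IsSquare m) (x : ℤ) : (m : ℤ) ≠ x ^ 2 := by
  intro hm
  apply h
  refine ⟨x.natAbs, ?_⟩
  zify
  rw [hm, ← sq, sq_abs]

theorem zsq_eq {d : ℤ} (m : ℤ) : ((m : ℤ√d)) ^ 2 = ⟨m ^ 2, 0⟩ := by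
  have : ((m : ℤ) : ℤ√d) ^ 2 = ((m ^ 2 : ℤ) : ℤ√d) := by push_cast; rfl
  rw [this]
  ext
  · exact Zsqrtd.re_intCast _
  · exact Zsqrtd.im_intCast _

theorem sys2 : Sys (-2) 5 200 529 Rep2 where
  one := ⟨1, 0, by norm_num, by ext <;> simp⟩
  mul := by
    rintro m m' w w' ⟨x, y, h1, rfl⟩ ⟨x', y', h2, rfl⟩
    refine ⟨x * x' - 2 * y * y', x * y' + y * x', ?_, ?_⟩
    · push_cast
      rw [h1, h2]; ring
    · ext
      · rw [Zsqrtd.re_mul]; simp only; ring
      · rw [Zsqrtd.im_mul]; simp only; ring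
  conj := by
    rintro m w ⟨x, y, h1, rfl⟩
    refine ⟨x, -y, ?_, ?_⟩
    · rw [h1]; ring
    · ext
      · rw [Zsqrtd.re_star]; simp only; ring
      · rw [Zsqrtd.im_star]; simp only; ring
  norm := by
    rintro m w ⟨x, y, h1, rfl⟩
    rw [zsq_eq]
    ext
    · rw [Zsqrtd.re_mul, Zsqrtd.re_star, Zsqrtd.im_star]; simp only; rw [h1]; ring
    · rw [Zsqrtd.im_mul, Zsqrtd.re_star, Zsqrtd.im_star]; simp only; ring
  nondeg := by
    rintro m w ⟨x, y, h1, rfl⟩ hco hsq hne
    simp only [mul_eq_zero] at hne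
    rcases hne with h | rfl | rfl
    · norm_num at h
    · exact not_coprime_of_two (t := y ^ 2) hco (by rw [h1]; ring)
    · exact not_sq_int hsq x (by rw [h1]; ring)
  good := by
    rintro m w ⟨x, y, h1, rfl⟩ hm hne him hb
    have h5 : Prime (5 : ℤ) := Int.prime_iff_natAbs_prime.2 (by norm_num)
    simp only at him
    have h52 : (5 : ℤ) ∣ x * y := by
      push_cast at him
      omega
    have hnot : ¬ (5 : ℤ) ∣ m := by
      intro h
      exact hm (by omega)
    have hx0 : x ≠ 0 := by
      rintro rfl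
      exact hne (by simp)
    have hy0 : y ≠ 0 := by
      rintro rfl
      exact hne (by simp)
    rcases h5.dvd_or_dvd h52 with ⟨x', rfl⟩ | ⟨y', rfl⟩
    · -- `5 ∣ x`
      have hy5 : ¬ (5 : ℤ) ∣ y := by
        rintro ⟨t, rfl⟩
        apply hnot
        rw [h1]
        exact ⟨5 * x' ^ 2 + 10 * t ^ 2, by ring⟩
      have hns : ¬ IsSquare ((((5 * x') ^ 2 - 2 * y ^ 2 : ℤ)) : ZMod 5) := by
        have e : (((5 * x') ^ 2 - 2 * y ^ 2 : ℤ) : ZMod 5) = -2 * (y : ZMod 5) ^ 2 := by
          push_cast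
          have : (5 : ZMod 5) = 0 := rfl
          rw [this]; ring
        rw [e]
        have hy6 : (y : ZMod 5) ≠ 0 := by
          intro h
          apply hy5
          exact (ZMod.intCast_zmod_eq_zero_iff_dvd y 5).1 h
        revert hy6
        generalize (y : ZMod 5) = z
        revert z
        decide
      have hlt : (5 * x') ^ 2 < 5 ^ 2 * y ^ 2 := by
        by_contra hcon
        push Not at hcon
        apply hb
        refine ⟨him, Or.inr ⟨hns, ?_⟩, ?_⟩
        · simp only
          nlinarith [sq_nonneg y]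
        · simp only
          have h2 : 0 ≤ (4 * y ^ 2 - 25 * (5 * x') ^ 2) * (25 * y ^ 2 - (5 * x') ^ 2) := by
            apply mul_nonneg_of_nonpos_of_nonpos <;> nlinarith [sq_nonneg y]
          nlinarith
      have h3 := abs_lt_of_sq (a := 1) (b := 1) (u := x') (v := y) (by norm_num) (by norm_num)
        (by nlinarith)
      have hx' : x' ≠ 0 := by
        rintro rfl
        exact hx0 (by ring)
      refine inS_sq (a := 2) (t := 1) (e := 25) (m := 6) (A := |y|) (B := |x'|) (by norm_num)
        (by norm_num) (by norm_num) (by norm_num) (abs_pos.2 hx') (by linarith) ?_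
      rw [sq_abs, sq_abs, h1]; ring
    · -- `5 ∣ y`
      have hs : IsSquare (((x ^ 2 - 2 * (5 * y') ^ 2 : ℤ)) : ZMod 5) := by
        have e : ((x ^ 2 - 2 * (5 * y') ^ 2 : ℤ) : ZMod 5) = (x : ZMod 5) * (x : ZMod 5) := by
          push_cast
          have : (5 : ZMod 5) = 0 := rfl
          rw [this]; ring
        exact ⟨x, e⟩
      have hlt : 2 ^ 2 * (5 * y') ^ 2 < 5 ^ 2 * x ^ 2 := by
        by_contra hcon
        push Not at hcon
        apply hb
        refine ⟨him, Or.inl ⟨hs, ?_⟩, ?_⟩
        · simp only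
          nlinarith [sq_nonneg y']
        · simp only
          have h2 : 0 ≤ (4 * (5 * y') ^ 2 - 25 * x ^ 2) * (25 * (5 * y') ^ 2 - x ^ 2) := by
            apply mul_nonneg <;> nlinarith [sq_nonneg y', sq_nonneg x]
          nlinarith
      have h3 := abs_lt_of_sq (a := 2) (b := 1) (u := y') (v := x) (by norm_num) (by norm_num)
        (by nlinarith)
      have hy' : y' ≠ 0 := by
        rintro rfl
        exact hy0 (by ring)
      refine inS_sq (a := 1) (t := 2) (e := 50) (m := 6) (A := |x|) (B := |y'|) (by norm_num)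
        (by norm_num) (by norm_num) (by norm_num) (abs_pos.2 hy') (by linarith) ?_
      rw [sq_abs, sq_abs, h1]; ring

/-- the values of the class function -/
def fcls (l : ℕ) (D : ZMod l) [Fact l.Prime] (z : ZMod l × ZMod l) : Option (ZMod l) :=
  if 2 * (z.1 * z.2) = 0 then none else some ((z.1 ^ 2 - D * z.2 ^ 2) / (2 * (z.1 * z.2)))

/-- the classes modulo 5 -/
def T2 : Finset (Option (ZMod 5)) := Finset.univ.image (fcls 5 2)

/-- the classes modulo 17 -/
def T6 : Finset (Option (ZMod 17)) := Finset.univ.image (fcls 17 6)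

theorem card_T2 : #T2 ≤ 3 := by decide +kernel

theorem card_T6 : #T6 ≤ 9 := by decide +kernel

theorem cls_mem2 {m : ℕ} {w : ℤ√(-2)} (h : Rep2 m w) : cls (l := 5) w ∈ T2 := by
  obtain ⟨x, y, h1, rfl⟩ := h
  refine Finset.mem_image.2 ⟨((x : ZMod 5), (y : ZMod 5)), Finset.mem_univ _, ?_⟩
  unfold fcls cls
  simp only
  push_cast
  rfl

theorem cls_mem6 {m : ℕ} {w : ℤ√(-6)} (h : Rep6 m w) : cls (l := 17) w ∈ T6 := by
  obtain ⟨x, y, ⟨h1, rfl⟩ | ⟨h1, rfl⟩⟩ := h
  · refine Finset.mem_image.2 ⟨((x : ZMod 17), (y : ZMod 17)), Finset.mem_univ _, ?_⟩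
    unfold fcls cls
    simp only
    push_cast
    rfl
  · refine Finset.mem_image.2 ⟨(2 * (x : ZMod 17), (y : ZMod 17)), Finset.mem_univ _, ?_⟩
    unfold fcls cls
    simp only
    push_cast
    have h2 : (2 : ZMod 17) ≠ 0 := by decide
    by_cases hxy : (x : ZMod 17) * (y : ZMod 17) = 0
    · rw [if_pos (by linear_combination 4 * hxy), if_pos (by linear_combination 2 * hxy)]
    · have e1 : (2 : ZMod 17) * (2 * (x : ZMod 17) * (y : ZMod 17)) ≠ 0 := by
        intro h
        apply hxy
        have : (2 : ZMod 17) * (2 * ((x : ZMod 17) * (y : ZMod 17))) = 0 := by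
          rw [← h]; ring
        rcases mul_eq_zero.1 this with h | h
        · exact absurd h h2
        · rcases mul_eq_zero.1 h with h | h
          · exact absurd h h2
          · exact h
      have e2 : (2 : ZMod 17) * ((x : ZMod 17) * (y : ZMod 17)) ≠ 0 := mul_ne_zero h2 hxy
      rw [if_neg e1, if_neg e2, Option.some_inj, div_eq_div_iff e1 e2]
      ring

theorem sys6 : Sys (-6) 17 62424 55225 Rep6 where
  one := ⟨1, 0, Or.inl ⟨by norm_num, by ext <;> simp⟩⟩
  mul := by
    rintro m m' w w' ⟨x, y, ⟨h1, rfl⟩ | ⟨h1, rfl⟩⟩ ⟨x', y', ⟨h2, rfl⟩ | ⟨h2, rfl⟩⟩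
    · refine ⟨x * x' - 6 * y * y', x * y' + y * x', Or.inl ⟨?_, ?_⟩⟩
      · push_cast
        rw [h1, h2]; ring
      · ext
        · rw [Zsqrtd.re_mul]; simp only; ring
        · rw [Zsqrtd.im_mul]; simp only; ring
    · refine ⟨x * x' - 3 * y * y', x * y' + 2 * y * x', Or.inr ⟨?_, ?_⟩⟩
      · push_cast
        rw [h1, h2]; ring
      · ext
        · rw [Zsqrtd.re_mul]; simp only; ring
        · rw [Zsqrtd.im_mul]; simp only; ring
    · refine ⟨x' * x - 3 * y' * y, x' * y + 2 * y' * x, Or.inr ⟨?_, ?_⟩⟩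
      · push_cast
        rw [h1, h2]; ring
      · ext
        · rw [Zsqrtd.re_mul]; simp only; ring
        · rw [Zsqrtd.im_mul]; simp only; ring
    · refine ⟨2 * x * x' - 3 * y * y', x * y' + y * x', Or.inl ⟨?_, ?_⟩⟩
      · push_cast
        rw [h1, h2]; ring
      · ext
        · rw [Zsqrtd.re_mul]; simp only; ring
        · rw [Zsqrtd.im_mul]; simp only; ring
  conj := by
    rintro m w ⟨x, y, ⟨h1, rfl⟩ | ⟨h1, rfl⟩⟩
    · refine ⟨x, -y, Or.inl ⟨?_, ?_⟩⟩
      · rw [h1]; ring
      · ext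
        · rw [Zsqrtd.re_star]; simp only; ring
        · rw [Zsqrtd.im_star]; simp only; ring
    · refine ⟨x, -y, Or.inr ⟨?_, ?_⟩⟩
      · rw [h1]; ring
      · ext
        · rw [Zsqrtd.re_star]; simp only; ring
        · rw [Zsqrtd.im_star]; simp only; ring
  norm := by
    rintro m w ⟨x, y, ⟨h1, rfl⟩ | ⟨h1, rfl⟩⟩ <;>
    · rw [zsq_eq]
      ext
      · rw [Zsqrtd.re_mul, Zsqrtd.re_star, Zsqrtd.im_star]; simp only; rw [h1]; ring
      · rw [Zsqrtd.im_mul, Zsqrtd.re_star, Zsqrtd.im_star]; simp only; ring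
  nondeg := by
    rintro m w ⟨x, y, ⟨h1, rfl⟩ | ⟨h1, rfl⟩⟩ hco hsq hne
    · simp only [mul_eq_zero] at hne
      rcases hne with h | rfl | rfl
      · norm_num at h
      · exact not_coprime_of_two (t := 3 * y ^ 2) hco (by rw [h1]; ring)
      · exact not_sq_int hsq x (by rw [h1]; ring)
    · simp only [mul_eq_zero] at hne
      rcases hne with h | rfl | rfl
      · norm_num at h
      · exact not_coprime_of_three (t := y ^ 2) hco (by rw [h1]; ring)
      · exact not_coprime_of_two (t := x ^ 2) hco (by rw [h1]; ring)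
  good := by
    rintro m w ⟨x, y, ⟨h1, rfl⟩ | ⟨h1, rfl⟩⟩ hm hne him hb
    · have h17 : Prime (17 : ℤ) := Int.prime_iff_natAbs_prime.2 (by norm_num)
      simp only at him
      have h52 : (17 : ℤ) ∣ x * y := by
        push_cast at him
        omega
      have hnot : ¬ (17 : ℤ) ∣ m := by
        intro h
        exact hm (by omega)
      have hx0 : x ≠ 0 := by
        rintro rfl
        exact hne (by simp)
      have hy0 : y ≠ 0 := by
        rintro rfl
        exact hne (by simp)
      rcases h17.dvd_or_dvd h52 with ⟨x', rfl⟩ | ⟨y', rfl⟩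
      · -- `17 ∣ x`
        have hy5 : ¬ (17 : ℤ) ∣ y := by
          rintro ⟨t, rfl⟩
          apply hnot
          rw [h1]
          exact ⟨17 * x' ^ 2 + 6 * 17 * t ^ 2, by ring⟩
        have hns : ¬ IsSquare ((((17 * x') ^ 2 - 6 * y ^ 2 : ℤ)) : ZMod 17) := by
          have e : (((17 * x') ^ 2 - 6 * y ^ 2 : ℤ) : ZMod 17) = -6 * (y : ZMod 17) ^ 2 := by
            push_cast
            have : (17 : ZMod 17) = 0 := rfl
            rw [this]; ring
          rw [e]
          have hy6 : (y : ZMod 17) ≠ 0 := by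
            intro h
            apply hy5
            exact (ZMod.intCast_zmod_eq_zero_iff_dvd y 17).1 h
          revert hy6
          generalize (y : ZMod 17) = z
          revert z
          decide +kernel
        have hlt : 3 ^ 2 * (17 * x') ^ 2 < 17 ^ 2 * y ^ 2 := by
          by_contra hcon
          push Not at hcon
          apply hb
          refine ⟨him, Or.inr ⟨hns, ?_⟩, ?_⟩
          · simp only
            nlinarith [sq_nonneg y]
          · simp only
            have h2 : 0 ≤ (289 * (17 * x') ^ 2 - 324 * y ^ 2) * (9 * (17 * x') ^ 2 - 289 * y ^ 2) := by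
              apply mul_nonneg <;> nlinarith [sq_nonneg y]
            nlinarith
        have h3 := abs_lt_of_sq (a := 3) (b := 1) (u := x') (v := y) (by norm_num) (by norm_num)
          (by nlinarith)
        have hx' : x' ≠ 0 := by
          rintro rfl
          exact hx0 (by ring)
        refine inS_sq (a := 6) (t := 3) (e := 289) (m := 42) (A := |y|) (B := |x'|) (by norm_num)
          (by norm_num) (by norm_num) (by norm_num) (abs_pos.2 hx') (by linarith) ?_
        rw [sq_abs, sq_abs, h1]; ring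
      · -- `17 ∣ y`
        have hs : IsSquare (((x ^ 2 - 6 * (17 * y') ^ 2 : ℤ)) : ZMod 17) := by
          have e : ((x ^ 2 - 6 * (17 * y') ^ 2 : ℤ) : ZMod 17) = (x : ZMod 17) * (x : ZMod 17) := by
            push_cast
            have : (17 : ZMod 17) = 0 := rfl
            rw [this]; ring
          exact ⟨x, e⟩
        have hlt : 18 ^ 2 * (17 * y') ^ 2 < 17 ^ 2 * x ^ 2 := by
          by_contra hcon
          push Not at hcon
          apply hb
          refine ⟨him, Or.inl ⟨hs, ?_⟩, ?_⟩
          · simp only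
            nlinarith [sq_nonneg y']
          · simp only
            have h2 : 0 ≤ (324 * (17 * y') ^ 2 - 289 * x ^ 2) * (289 * (17 * y') ^ 2 - 9 * x ^ 2) := by
              apply mul_nonneg <;> nlinarith [sq_nonneg y', sq_nonneg x]
            nlinarith
        have h3 := abs_lt_of_sq (a := 18) (b := 1) (u := y') (v := x) (by norm_num) (by norm_num)
          (by nlinarith)
        have hy' : y' ≠ 0 := by
          rintro rfl
          exact hy0 (by ring)
        refine inS_sq (a := 1) (t := 18) (e := 1734) (m := 42) (A := |x|) (B := |y'|) (by norm_num)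
          (by norm_num) (by norm_num) (by norm_num) (abs_pos.2 hy') (by linarith) ?_
        rw [sq_abs, sq_abs, h1]; ring
    · have h17 : Prime (17 : ℤ) := Int.prime_iff_natAbs_prime.2 (by norm_num)
      simp only at him
      have h52 : (17 : ℤ) ∣ x * y := by
        push_cast at him
        omega
      have hnot : ¬ (17 : ℤ) ∣ m := by
        intro h
        exact hm (by omega)
      have hx0 : x ≠ 0 := by
        rintro rfl
        exact hne (by simp)
      have hy0 : y ≠ 0 := by
        rintro rfl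
        exact hne (by simp)
      rcases h17.dvd_or_dvd h52 with ⟨x', rfl⟩ | ⟨y', rfl⟩
      · -- `17 ∣ x`
        have hy5 : ¬ (17 : ℤ) ∣ y := by
          rintro ⟨t, rfl⟩
          apply hnot
          rw [h1]
          exact ⟨34 * x' ^ 2 + 3 * 17 * t ^ 2, by ring⟩
        have hns : ¬ IsSquare (((2 * (17 * x') ^ 2 - 3 * y ^ 2 : ℤ)) : ZMod 17) := by
          have e : ((2 * (17 * x') ^ 2 - 3 * y ^ 2 : ℤ) : ZMod 17) = -3 * (y : ZMod 17) ^ 2 := by
            push_cast
            have : (17 : ZMod 17) = 0 := rfl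
            rw [this]; ring
          rw [e]
          have hy6 : (y : ZMod 17) ≠ 0 := by
            intro h
            apply hy5
            exact (ZMod.intCast_zmod_eq_zero_iff_dvd y 17).1 h
          revert hy6
          generalize (y : ZMod 17) = z
          revert z
          decide +kernel
        have hlt : 6 ^ 2 * (17 * x') ^ 2 < 17 ^ 2 * y ^ 2 := by
          by_contra hcon
          push Not at hcon
          apply hb
          refine ⟨him, Or.inr ⟨hns, ?_⟩, ?_⟩
          · simp only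
            nlinarith [sq_nonneg y]
          · simp only
            have h2 : 0 ≤ (289 * (17 * x') ^ 2 - 81 * y ^ 2) * (36 * (17 * x') ^ 2 - 289 * y ^ 2) := by
              apply mul_nonneg <;> nlinarith [sq_nonneg y]
            nlinarith
        have h3 := abs_lt_of_sq (a := 6) (b := 1) (u := x') (v := y) (by norm_num) (by norm_num)
          (by nlinarith)
        have hx' : x' ≠ 0 := by
          rintro rfl
          exact hx0 (by ring)
        refine inS_sq (a := 3) (t := 6) (e := 578) (m := 42) (A := |y|) (B := |x'|) (by norm_num)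
          (by norm_num) (by norm_num) (by norm_num) (abs_pos.2 hx') (by linarith) ?_
        rw [sq_abs, sq_abs, h1]; ring
      · -- `17 ∣ y`
        have hs : IsSquare (((2 * x ^ 2 - 3 * (17 * y') ^ 2 : ℤ)) : ZMod 17) := by
          have e : ((2 * x ^ 2 - 3 * (17 * y') ^ 2 : ℤ) : ZMod 17) =
              (6 * (x : ZMod 17)) * (6 * (x : ZMod 17)) := by
            push_cast
            have h0 : (17 : ZMod 17) = 0 := rfl
            have h1 : (36 : ZMod 17) = 2 := rfl
            rw [h0]
            linear_combination -(x : ZMod 17) ^ 2 * h1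
          exact ⟨6 * x, e⟩
        have hlt : 9 ^ 2 * (17 * y') ^ 2 < 17 ^ 2 * x ^ 2 := by
          by_contra hcon
          push Not at hcon
          apply hb
          refine ⟨him, Or.inl ⟨hs, ?_⟩, ?_⟩
          · simp only
            nlinarith [sq_nonneg y']
          · simp only
            have h2 : 0 ≤ (81 * (17 * y') ^ 2 - 289 * x ^ 2) * (289 * (17 * y') ^ 2 - 36 * x ^ 2) := by
              apply mul_nonneg <;> nlinarith [sq_nonneg y', sq_nonneg x]
            nlinarith
        have h3 := abs_lt_of_sq (a := 9) (b := 1) (u := y') (v := x) (by norm_num) (by norm_num)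
          (by nlinarith)
        have hy' : y' ≠ 0 := by
          rintro rfl
          exact hy0 (by ring)
        refine inS_sq (a := 2) (t := 9) (e := 867) (m := 42) (A := |x|) (B := |y'|) (by norm_num)
          (by norm_num) (by norm_num) (by norm_num) (abs_pos.2 hy') (by linarith) ?_
        rw [sq_abs, sq_abs, h1]; ring

end Pool.Agent.Work.MP_43ce8a_nt
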