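import Mathlib
import Pool.Agent.Work.MP_43ce8a_nt.Inst

set_option autoImplicit false

/-!
# Primes congruent to 11 modulo 24
-/

namespace Pool.Agent.Work.MP_43ce8a_nt

open Finset

theorem nonsq_of_odd_pow {p m k : ℕ} (hp : p.Prime) (hm : m = p ^ (2 * k + 1)) : ¬ IsSquare m := by
  rintro ⟨r, hr⟩
  have h := congrArg (fun t => t.factorization p) (hm.symm.trans hr)
  have hr0 : r ≠ 0 := by
    rintro rfl
    rw [hm] at hr
    exact (pow_pos hp.pos (2 * k + 1)).ne' hr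
  simp only [Nat.factorization_mul hr0 hr0, Finsupp.add_apply, hp.factorization_pow,
    Finsupp.single_eq_same] at h
  omega

theorem nonsq_mul {p q a : ℕ} (hp : p.Prime) (hq : q.Prime) (hpq : p ≠ q) :
    ¬ IsSquare (p ^ a * q) := by
  rintro ⟨r, hr⟩
  have hr0 : r ≠ 0 := by
    rintro rfl
    have : 0 < p ^ a * q := Nat.mul_pos (pow_pos hp.pos a) hq.pos
    omega
  have h := congrArg (fun t => t.factorization q) hr
  simp only [Nat.factorization_mul hr0 hr0, Nat.factorization_mul (pow_pos hp.pos a).ne' hq.ne_zero,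
    Finsupp.add_apply, hp.factorization_pow, Finsupp.single_apply, if_neg hpq,
    hq.factorization_self] at h
  omega

theorem class2 {m : ℕ} {w : ℤ√(-2)} (h : Rep2 m w) :
    (5 : ℤ) ∣ w.im ∨ (5 : ℤ) ∣ w.re ^ 2 + w.im ^ 2 := by
  obtain ⟨x, y, h1, rfl⟩ := h
  simp only
  have key : ∀ x y : ZMod 5, 2 * (x * y) = 0 ∨
      (x ^ 2 - 2 * y ^ 2) ^ 2 + (2 * (x * y)) ^ 2 = 0 := by decide
  rcases key x y with h | h
  · left
    rw [show (5 : ℤ) = ((5 : ℕ) : ℤ) from rfl, ← ZMod.intCast_zmod_eq_zero_iff_dvd]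
    push_cast
    exact h
  · right
    rw [show (5 : ℤ) = ((5 : ℕ) : ℤ) from rfl, ← ZMod.intCast_zmod_eq_zero_iff_dvd]
    push_cast
    exact h

theorem prime5 : Prime (5 : ℤ) := Int.prime_iff_natAbs_prime.2 (by norm_num)

/-- in a nontrivial class the cube is in the trivial class -/
theorem cube_im {w : ℤ√(-2)} (h : (5 : ℤ) ∣ w.re ^ 2 + w.im ^ 2) : (5 : ℤ) ∣ (w ^ 3).im := by
  have e : (w ^ 3).im = 3 * (w.re ^ 2 + w.im ^ 2) * w.im - 5 * w.im ^ 3 := by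
    have : w ^ 3 = w * w * w := by ring
    rw [this]
    simp only [Zsqrtd.im_mul, Zsqrtd.re_mul]
    ring
  rw [e]
  exact dvd_sub (Dvd.dvd.mul_right (Dvd.dvd.mul_left h _) _) (Dvd.intro _ rfl)

/-- two nontrivial classes agree up to conjugation -/
theorem two_classes {w w' : ℤ√(-2)} (h : (5 : ℤ) ∣ w.re ^ 2 + w.im ^ 2)
    (h' : (5 : ℤ) ∣ w'.re ^ 2 + w'.im ^ 2) :
    (5 : ℤ) ∣ (w * star w').im ∨ (5 : ℤ) ∣ (w * w').im := by
  have e1 : (w * star w').im = w.im * w'.re - w.re * w'.im := by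
    rw [Zsqrtd.im_mul, Zsqrtd.re_star, Zsqrtd.im_star]; ring
  have e2 : (w * w').im = w.im * w'.re + w.re * w'.im := by
    rw [Zsqrtd.im_mul]; ring
  rw [e1, e2]
  apply prime5.dvd_or_dvd
  have : (w.im * w'.re - w.re * w'.im) * (w.im * w'.re + w.re * w'.im) =
      w.im ^ 2 * (w'.re ^ 2 + w'.im ^ 2) - (w.re ^ 2 + w.im ^ 2) * w'.im ^ 2 := by ring
  rw [this]
  exact dvd_sub (Dvd.dvd.mul_left h' _) (Dvd.dvd.mul_right h _)

theorem S2.bad3 {m1 m2 : ℕ} {w1 w2 : ℤ√(-2)} (h1 : Rep2 m1 w1)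
    (h2 : Rep2 m2 w2) (n1 : ¬ 5 ∣ m1) (n2 : ¬ 5 ∣ m2) (b1 : Bad (-2) 5 200 529 w1)
    (b2 : Bad (-2) 5 200 529 w2) : ¬ Bad (-2) 5 200 529 (w1 * w2) :=
  sys2.bad3 (by norm_num) (by norm_num) (by norm_num) (by norm_num) h1 h2 n1 n2 b1 b2

theorem S2.good {m : ℕ} {w : ℤ√(-2)} (h : Rep2 m w) (n : ¬ 5 ∣ m) (hco : Nat.Coprime m 6)
    (hsq : ¬ IsSquare m) (him : (5 : ℤ) ∣ w.im) : InS m ∨ Bad (-2) 5 200 529 w := by
  by_cases hb : Bad (-2) 5 200 529 w
  · exact Or.inr hb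
  · exact Or.inl (sys2.good h n (sys2.nondeg h hco hsq) him hb)

theorem not5_mul {a b : ℕ} (ha : ¬ 5 ∣ a) (hb : ¬ 5 ∣ b) : ¬ 5 ∣ a * b := by
  intro h
  rcases (Nat.Prime.dvd_mul (by norm_num)).1 h with h | h
  · exact ha h
  · exact hb h

/-- `m` or `m^2` is in `S` when the class is trivial -/
theorem S2.square {m : ℕ} {w : ℤ√(-2)} (h : Rep2 m w) (n : ¬ 5 ∣ m) (hm : 0 < m)
    (hco : Nat.Coprime m 6) (hsq : ¬ IsSquare m) (him : (5 : ℤ) ∣ w.im) : InS (m ^ 2) := by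
  rcases S2.good h n hco hsq him with h1 | h1
  · exact h1.of_dvd (by positivity) (Dvd.intro_left _ (by ring))
  · have h2 := S2.bad3 h h n n h1 h1
    have h3 := sys2.mul h h
    have hne := sys2.nondeg h hco hsq
    have hre := sys2.not_dvd_re h n him
    rw [sq]
    apply sys2.good h3 (not5_mul n n) _ _ h2
    · rw [Zsqrtd.im_mul]
      have : w.re ≠ 0 := by
        intro h
        rw [h] at hre
        exact hre (dvd_zero _)
      have e : w.re * w.im + w.im * w.re = 2 * (w.re * w.im) := by ring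
      rw [e]
      positivity
    · rw [Zsqrtd.im_mul]
      push_cast
      exact dvd_add (Dvd.dvd.mul_left him _) (Dvd.dvd.mul_right him _)

theorem exists_rep2 {p : ℕ} (hp : p.Prime) (h : p % 24 = 11) : ∃ w, Rep2 p w := by
  obtain ⟨x, y, hxy⟩ := rep2 hp (by omega)
  exact ⟨_, x, y, hxy.symm, rfl⟩

theorem p11 {p : ℕ} (hp : p.Prime) (h : p % 24 = 11) :
    Nat.Coprime p 6 ∧ ¬ 5 ∣ p ∧ ¬ IsSquare p ∧ 0 < p := by
  refine ⟨coprime_six hp (by rintro rfl; omega) (by rintro rfl; omega), ?_, ?_, hp.pos⟩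
  · intro h5
    have := (Nat.prime_dvd_prime_iff_eq (by norm_num) hp).1 h5
    omega
  · exact (Nat.prime_iff.1 hp).irreducible.not_isSquare

theorem rep2_pow {m : ℕ} {w : ℤ√(-2)} (h : Rep2 m w) (k : ℕ) : Rep2 (m ^ k) (w ^ k) := by
  induction k with
  | zero => simpa using sys2.one
  | succ k ih => rw [pow_succ, pow_succ]; exact sys2.mul ih h

/-- sixth powers -/
theorem pow6 {p : ℕ} (hp : p.Prime) (h : p % 24 = 11) : InS (p ^ 6) := by
  obtain ⟨w, hw⟩ := exists_rep2 hp h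
  obtain ⟨h6, h5, hsq, hpos⟩ := p11 hp h
  rcases class2 hw with h1 | h1
  · have := S2.square hw h5 hpos h6 hsq h1
    exact this.of_dvd (by positivity) ⟨p ^ 4, by ring⟩
  · have h2 := rep2_pow hw 3
    have := S2.square h2 (fun hh => h5 (Nat.Prime.dvd_of_dvd_pow (by norm_num) hh))
      (by positivity) (Nat.Coprime.pow_left 3 h6) (nonsq_of_odd_pow (k := 1) hp rfl)
      (cube_im h1)
    rw [← pow_mul] at this
    exact this

/-- squares of products of two primes -/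
theorem sq_sq {p q : ℕ} (hp : p.Prime) (h : p % 24 = 11) (hq : q.Prime) (h' : q % 24 = 11)
    (hpq : p ≠ q) : InS (p ^ 2 * q ^ 2) := by
  obtain ⟨w, hw⟩ := exists_rep2 hp h
  obtain ⟨h6, h5, hsq, hpos⟩ := p11 hp h
  obtain ⟨w', hw'⟩ := exists_rep2 hq h'
  obtain ⟨h6', h5', hsq', hpos'⟩ := p11 hq h'
  rcases class2 hw with h1 | h1
  · have := S2.square hw h5 hpos h6 hsq h1
    exact this.of_dvd (by positivity) (Dvd.intro _ rfl)
  rcases class2 hw' with h2 | h2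
  · have := S2.square hw' h5' hpos' h6' hsq' h2
    exact this.of_dvd (by positivity) (Dvd.intro_left _ rfl)
  have hco : Nat.Coprime (p * q) 6 := Nat.Coprime.mul_left h6 h6'
  have hns : ¬ IsSquare (p * q) := by
    have := nonsq_mul (a := 1) hp hq hpq
    rwa [pow_one] at this
  rw [← mul_pow]
  rcases two_classes h1 h2 with h3 | h3
  · exact S2.square (sys2.mul hw (sys2.conj hw')) (not5_mul h5 h5') (by positivity) hco hns h3
  · exact S2.square (sys2.mul hw hw') (not5_mul h5 h5') (by positivity) hco hns h3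

theorem im_mul_dvd {w w' : ℤ√(-2)} (h : (5 : ℤ) ∣ w.im) (h' : (5 : ℤ) ∣ w'.im) :
    (5 : ℤ) ∣ (w * w').im := by
  rw [Zsqrtd.im_mul]
  exact dvd_add (Dvd.dvd.mul_left h' _) (Dvd.dvd.mul_right h _)

theorem cube_mul_aux {p q : ℕ} (hp : p.Prime) (h : p % 24 = 11) (hq : q.Prime) (h' : q % 24 = 11)
    (hpq : p ≠ q) {w w' : ℤ√(-2)} (hw : Rep2 p w) (hw' : Rep2 q w')
    (h1 : (5 : ℤ) ∣ w.re ^ 2 + w.im ^ 2) (h3 : (5 : ℤ) ∣ (w * star w').im) :
    InS (p ^ 3 * q) := by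
  obtain ⟨h6, h5, hsq, hpos⟩ := p11 hp h
  obtain ⟨h6', h5', hsq', hpos'⟩ := p11 hq h'
  have hc3 := cube_im h1
  have hu : Rep2 (p * q) (w * star w') := sys2.mul hw (sys2.conj hw')
  have hv : Rep2 (p ^ 2 * q) (w ^ 2 * w') := sys2.mul (rep2_pow hw 2) hw'
  have ht : Rep2 (p ^ 3) (w ^ 3) := rep2_pow hw 3
  have n2 : ¬ 5 ∣ p ^ 2 := fun hh => h5 (Nat.Prime.dvd_of_dvd_pow (by norm_num) hh)
  have n3 : ¬ 5 ∣ p ^ 3 := fun hh => h5 (Nat.Prime.dvd_of_dvd_pow (by norm_num) hh)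
  have hnw := sys2.norm hw
  have hnw' := sys2.norm hw'
  -- the class of `w^2 w'` is trivial
  have h4 : (5 : ℤ) ∣ (w ^ 2 * w').im := by
    have h5a : (5 : ℤ) ∣ (w ^ 3 * star (w * star w')).im := by
      apply im_mul_dvd hc3
      rw [Zsqrtd.im_star]
      exact (dvd_neg).2 h3
    have e : w ^ 3 * star (w * star w') = ((p : ℤ) : ℤ√(-2)) ^ 2 * (w ^ 2 * w') := by
      rw [← hnw, star_mul, star_star]; ring
    rw [e, zsq_eq, Zsqrtd.im_mul] at h5a
    simp only [zero_mul, add_zero] at h5a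
    rcases prime5.dvd_or_dvd h5a with h | h
    · exfalso
      apply h5
      have := prime5.dvd_of_dvd_pow h
      exact Int.natCast_dvd_natCast.1 this
    · exact h
  have hdiv : ∀ m : ℕ, m ∣ p ^ 3 * q → InS m → InS (p ^ 3 * q) := fun m hm hS =>
    hS.of_dvd (by positivity) hm
  rcases S2.good hu (not5_mul h5 h5') (Nat.Coprime.mul_left h6 h6')
    (by have := nonsq_mul (a := 1) hp hq hpq; rwa [pow_one] at this) h3 with g1 | g1
  · exact hdiv _ ⟨p ^ 2, by ring⟩ g1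
  rcases S2.good hv (not5_mul n2 h5') (Nat.Coprime.mul_left (Nat.Coprime.pow_left 2 h6) h6')
    (nonsq_mul hp hq hpq) h4 with g2 | g2
  · exact hdiv _ ⟨p, by ring⟩ g2
  rcases S2.good ht n3 (Nat.Coprime.pow_left 3 h6) (nonsq_of_odd_pow (k := 1) hp rfl) hc3
    with g3 | g3
  · exact hdiv _ ⟨q, by ring⟩ g3
  exfalso
  have h7 := S2.bad3 hu hv (not5_mul h5 h5') (not5_mul n2 h5') g1 g2
  have e : w * star w' * (w ^ 2 * w') = ((q : ℤ) : ℤ√(-2)) ^ 2 * w ^ 3 := by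
    rw [← hnw']; ring
  rw [e, bad_scale] at h7
  · exact h7 g3
  · intro hh
    exact h5' (Int.natCast_dvd_natCast.1 hh)

/-- products `p^3 q` -/
theorem cube_mul {p q : ℕ} (hp : p.Prime) (h : p % 24 = 11) (hq : q.Prime) (h' : q % 24 = 11)
    (hpq : p ≠ q) : InS (p ^ 3 * q) := by
  obtain ⟨w, hw⟩ := exists_rep2 hp h
  obtain ⟨h6, h5, hsq, hpos⟩ := p11 hp h
  obtain ⟨w', hw'⟩ := exists_rep2 hq h'
  obtain ⟨h6', h5', hsq', hpos'⟩ := p11 hq h'
  have n3 : ¬ 5 ∣ p ^ 3 := fun hh => h5 (Nat.Prime.dvd_of_dvd_pow (by norm_num) hh)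
  rcases class2 hw with h1 | h1
  · have := S2.square hw h5 hpos h6 hsq h1
    exact this.of_dvd (by positivity) ⟨p * q, by ring⟩
  rcases class2 hw' with h2 | h2
  · have ht : Rep2 (p ^ 3) (w ^ 3) := rep2_pow hw 3
    rcases S2.good hw' h5' h6' hsq' h2 with g1 | g1
    · exact g1.of_dvd (by positivity) (Dvd.intro_left _ rfl)
    rcases S2.good ht n3 (Nat.Coprime.pow_left 3 h6) (nonsq_of_odd_pow (k := 1) hp rfl)
      (cube_im h1) with g2 | g2
    · exact g2.of_dvd (by positivity) (Dvd.intro _ rfl)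
    have hm := sys2.mul ht hw'
    exact sys2.good hm (not5_mul n3 h5') (sys2.nondeg hm
      (Nat.Coprime.mul_left (Nat.Coprime.pow_left 3 h6) h6') (nonsq_mul hp hq hpq))
      (im_mul_dvd (cube_im h1) h2) (S2.bad3 ht hw' n3 h5' g2 g1)
  rcases two_classes h1 h2 with h3 | h3
  · exact cube_mul_aux hp h hq h' hpq hw hw' h1 h3
  · apply cube_mul_aux hp h hq h' hpq hw (sys2.conj hw') h1
    rw [star_star]
    exact h3

/-- three distinct primes -/
theorem three_primes (s : Finset ℕ) (hs : ∀ p ∈ s, p.Prime ∧ p % 24 = 11) (hc : 3 ≤ #s) :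
    InS (∏ p ∈ s, p) := by
  classical
  choose! w hw using fun p (hp : p ∈ s) => exists_rep2 (hs p hp).1 (hs p hp).2
  apply sys2.pigeon (by norm_num) (by norm_num) (by norm_num) (by norm_num) T2
    (fun h _ => cls_mem2 h) s _ w hw
  · have h1 : 2 ^ 3 ≤ 2 ^ #s := Nat.pow_le_pow_right (by norm_num) hc
    have := card_T2
    omega
  · intro p hp
    obtain ⟨h1, h2⟩ := hs p hp
    refine ⟨h1, ?_, ?_, ?_⟩ <;> rintro rfl <;> omega

theorem exists_rep6 {p : ℕ} (hp : p.Prime) (h : p % 24 = 5 ∨ p % 24 = 11) : ∃ w, Rep6 p w := by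
  obtain ⟨x, y, hxy⟩ := repm6 hp h
  exact ⟨_, x, y, Or.inr ⟨hxy.symm, rfl⟩⟩

/-- five distinct primes of the two types -/
theorem five_primes (s : Finset ℕ) (hs : ∀ p ∈ s, p.Prime ∧ (p % 24 = 5 ∨ p % 24 = 11))
    (hc : 5 ≤ #s) : InS (∏ p ∈ s, p) := by
  classical
  choose! w hw using fun p (hp : p ∈ s) => exists_rep6 (hs p hp).1 (hs p hp).2
  apply sys6.pigeon (by norm_num) (by norm_num) (by norm_num) (by norm_num) T6
    (fun h _ => cls_mem6 h) s _ w hw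
  · have h1 : 2 ^ 5 ≤ 2 ^ #s := Nat.pow_le_pow_right (by norm_num) hc
    have := card_T6
    omega
  · intro p hp
    obtain ⟨h1, h2⟩ := hs p hp
    refine ⟨h1, ?_, ?_, ?_⟩ <;> rintro rfl <;> omega

end Pool.Agent.Work.MP_43ce8a_nt
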