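import Mathlib

set_option autoImplicit false

/-!
# Points on a circle: two of `N` points are at distance at most `L / N`
-/

namespace Pool.Agent.Work.MP_43ce8a_nt

open Finset

theorem circle_unit {ι : Type*} (s : Finset ι) {N : ℕ} (hN : 2 ≤ N) (hs : N ≤ #s) (f : ι → ℝ) :
    ∃ i ∈ s, ∃ j ∈ s, i ≠ j ∧ ∃ k : ℤ, |f i - f j - k| ≤ 1 / N := by
  classical
  have hN0 : (0 : ℝ) < N := by
    have : 0 < N := by omega
    exact_mod_cast this
  obtain ⟨i0, hi0⟩ : s.Nonempty := by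
    rw [← Finset.card_pos]; omega
  set u : ι → ℝ := fun j => Int.fract (f j - f i0) with hu
  by_cases h1 : ∃ j ∈ s, j ≠ i0 ∧ (u j ≤ 1 / N ∨ 1 - 1 / N ≤ u j)
  · obtain ⟨j, hj, hne, h1⟩ := h1
    have e : u j = f j - f i0 - ⌊f j - f i0⌋ := rfl
    have p1 : 0 ≤ u j := Int.fract_nonneg _
    have p2 : u j < 1 := Int.fract_lt_one _
    refine ⟨j, hj, i0, hi0, hne, ?_⟩
    have h0 : (0 : ℝ) < 1 / N := by positivity
    rcases h1 with h1 | h1
    · refine ⟨⌊f j - f i0⌋, ?_⟩
      rw [← e, abs_of_nonneg p1]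
      exact h1
    · refine ⟨⌊f j - f i0⌋ + 1, ?_⟩
      push_cast
      rw [show f j - f i0 - ((⌊f j - f i0⌋ : ℝ) + 1) = u j - 1 by rw [e]; ring,
        abs_of_nonpos (by linarith)]
      linarith
  · push Not at h1
    set t := s.erase i0 with ht
    have hct : #t + 1 = #s := Finset.card_erase_add_one hi0
    have hN1 : (N : ℝ) * (1 / N) = 1 := by field_simp
    have hmaps : ∀ j ∈ t, ⌊(u j - 1 / N) * N⌋₊ ∈ Finset.range (N - 2) := by
      intro j hj
      rw [ht, Finset.mem_erase] at hj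
      obtain ⟨g1, g2⟩ := h1 j hj.2 hj.1
      rw [Finset.mem_range, Nat.floor_lt']
      · have : ((N - 2 : ℕ) : ℝ) = N - 2 := by
          rw [Nat.cast_sub hN]; norm_num
        rw [this]
        nlinarith
      · intro h
        have h2 : N = 2 := by omega
        subst h2
        norm_num at g1 g2
        linarith
    have hcard : #(Finset.range (N - 2)) < #t := by
      rw [Finset.card_range]; omega
    obtain ⟨j, hj, j', hj', hne, heq⟩ :=
      Finset.exists_ne_map_eq_of_card_lt_of_maps_to hcard hmaps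
    rw [ht, Finset.mem_erase] at hj hj'
    obtain ⟨g1, g2⟩ := h1 j hj.2 hj.1
    obtain ⟨g1', g2'⟩ := h1 j' hj'.2 hj'.1
    refine ⟨j, hj.2, j', hj'.2, hne, ⌊f j - f i0⌋ - ⌊f j' - f i0⌋, ?_⟩
    have e : f j - f j' - ((⌊f j - f i0⌋ - ⌊f j' - f i0⌋ : ℤ) : ℝ) = u j - u j' := by
      rw [hu]
      simp only [Int.fract]
      push_cast
      ring
    rw [e]
    have a1 := Nat.floor_le (show 0 ≤ (u j - 1 / N) * N by nlinarith)
    have a2 := Nat.lt_floor_add_one ((u j - 1 / N) * N)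
    have b1 := Nat.floor_le (show 0 ≤ (u j' - 1 / N) * N by nlinarith)
    have b2 := Nat.lt_floor_add_one ((u j' - 1 / N) * N)
    rw [heq] at a1 a2
    have c1 : (u j - u j') * N ≤ 1 := by linarith
    have c2 : -1 ≤ (u j - u j') * N := by linarith
    rw [abs_le]
    constructor
    · rw [neg_le_iff_add_nonneg]
      have : 0 ≤ (u j - u j' + 1 / N) * N := by nlinarith
      exact nonneg_of_mul_nonneg_left this hN0
    · rw [le_div_iff₀ hN0]
      exact c1

theorem circle {ι : Type*} (s : Finset ι) {N : ℕ} (hN : 2 ≤ N) (hs : N ≤ #s) (f : ι → ℝ) {L : ℝ}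
    (hL : 0 < L) : ∃ i ∈ s, ∃ j ∈ s, i ≠ j ∧ ∃ k : ℤ, |f i - f j - k * L| ≤ L / N := by
  obtain ⟨i, hi, j, hj, hne, k, hk⟩ := circle_unit s hN hs (fun i => f i / L)
  refine ⟨i, hi, j, hj, hne, k, ?_⟩
  have e : f i - f j - k * L = (f i / L - f j / L - k) * L := by field_simp
  rw [e, abs_mul, abs_of_pos hL]
  calc |f i / L - f j / L - k| * L ≤ (1 / N) * L := by gcongr
    _ = L / N := by ring

end Pool.Agent.Work.MP_43ce8a_nt
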