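import Mathlib
import Pool.Agent.Work.MP_43ce8a_nt.Inst
import Pool.Agent.Work.MP_43ce8a_nt.Circle

set_option autoImplicit false

/-!
# Primes congruent to 5 modulo 24: the real quadratic field
-/

namespace Pool.Agent.Work.MP_43ce8a_nt

open Finset Real

noncomputable def pl (z : ℤ√6) : ℝ := z.re + z.im * √6
noncomputable def mi (z : ℤ√6) : ℝ := z.re - z.im * √6

theorem s6 : √(6 : ℝ) * √6 = 6 := Real.mul_self_sqrt (by norm_num)

theorem s6_gt : (2.4493 : ℝ) < √6 := by
  rw [Real.lt_sqrt (by norm_num)]; norm_num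

theorem s6_lt : √(6 : ℝ) < 2.4495 := by
  rw [Real.sqrt_lt' (by norm_num)]; norm_num

theorem pl_mul (z w : ℤ√6) : pl (z * w) = pl z * pl w := by
  unfold pl
  rw [Zsqrtd.re_mul, Zsqrtd.im_mul]
  push_cast
  linear_combination -(z.im * w.im : ℝ) * s6

theorem mi_mul (z w : ℤ√6) : mi (z * w) = mi z * mi w := by
  unfold mi
  rw [Zsqrtd.re_mul, Zsqrtd.im_mul]
  push_cast
  linear_combination -(z.im * w.im : ℝ) * s6

theorem pl_star (z : ℤ√6) : pl (star z) = mi z := by
  unfold pl mi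
  rw [Zsqrtd.re_star, Zsqrtd.im_star]
  push_cast
  ring

theorem mi_star (z : ℤ√6) : mi (star z) = pl z := by
  unfold pl mi
  rw [Zsqrtd.re_star, Zsqrtd.im_star]
  push_cast
  ring

theorem norm6 (z : ℤ√6) : z.norm = z.re ^ 2 - 6 * z.im ^ 2 := by
  rw [Zsqrtd.norm_def]; ring

theorem pl_mi (z : ℤ√6) : pl z * mi z = (z.norm : ℝ) := by
  unfold pl mi
  rw [norm6]
  push_cast
  linear_combination -(z.im : ℝ) ^ 2 * s6

theorem pl_ne {z : ℤ√6} (h : z.norm ≠ 0) : pl z ≠ 0 := by
  intro h0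
  have := pl_mi z
  rw [h0, zero_mul] at this
  exact h (by exact_mod_cast this.symm)

theorem mi_ne {z : ℤ√6} (h : z.norm ≠ 0) : mi z ≠ 0 := by
  intro h0
  have := pl_mi z
  rw [h0, mul_zero] at this
  exact h (by exact_mod_cast this.symm)

/-- the logarithmic position -/
noncomputable def tt (z : ℤ√6) : ℝ := Real.log |pl z| - Real.log |mi z|

theorem tt_mul {z w : ℤ√6} (hz : z.norm ≠ 0) (hw : w.norm ≠ 0) : tt (z * w) = tt z + tt w := by
  unfold tt
  rw [pl_mul, mi_mul, abs_mul, abs_mul,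
    Real.log_mul (abs_ne_zero.2 (pl_ne hz)) (abs_ne_zero.2 (pl_ne hw)),
    Real.log_mul (abs_ne_zero.2 (mi_ne hz)) (abs_ne_zero.2 (mi_ne hw))]
  ring

theorem tt_star (z : ℤ√6) : tt (star z) = - tt z := by
  unfold tt
  rw [pl_star, mi_star]; ring

/-- the length of the circle -/
noncomputable def LL : ℝ := 2 * Real.log (5 + 2 * √6)

def eps : ℤ√6 := ⟨5, 2⟩
def mu : ℤ√6 := ⟨2, 1⟩

theorem norm_eps : eps.norm = 1 := by rw [norm6]; norm_num [eps]
theorem norm_mu : mu.norm = -2 := by rw [norm6]; norm_num [mu]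

theorem mi_eps_eq : 5 - 2 * √(6 : ℝ) = (5 + 2 * √6)⁻¹ := by
  have h := s6
  have h1 : (5 : ℝ) + 2 * √6 ≠ 0 := by positivity
  field_simp
  linarith

theorem tt_eps : tt eps = LL := by
  unfold tt pl mi eps LL
  push_cast
  rw [show (5 : ℝ) - 2 * √6 = (5 + 2 * √6)⁻¹ from mi_eps_eq, Real.log_abs, Real.log_abs,
    Real.log_inv]
  ring

theorem tt_mu : tt mu = LL / 2 := by
  unfold tt pl mi mu LL
  push_cast
  rw [one_mul, Real.log_abs, Real.log_abs, ← Real.log_neg_eq_log (2 - √6)]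
  have h1 := s6_gt
  have e : 2 * Real.log (5 + 2 * √6) / 2 = Real.log (5 + 2 * √6) := by ring
  rw [e, ← Real.log_div (by positivity) (by linarith)]
  congr 1
  have h2 : (-(2 - √(6 : ℝ))) ≠ 0 := by linarith
  rw [div_eq_iff h2]
  have := s6
  nlinarith

theorem LL_pos : 0 < LL := by
  unfold LL
  have : 0 < Real.log (5 + 2 * √6) := Real.log_pos (by nlinarith [s6_gt])
  linarith

/-- the width of the good sector -/
noncomputable def Lam : ℝ := Real.log ((16 + √6) / (16 - √6))

theorem LL_lt : LL / 15 < Lam := by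
  have h1 := s6_gt
  have h2 := s6_lt
  have h3 : LL ≤ Real.log 98 := by
    unfold LL
    have e : 2 * Real.log (5 + 2 * √6) = Real.log ((5 + 2 * √6) ^ 2) := by
      rw [Real.log_pow]; norm_num
    rw [e]
    apply Real.log_le_log (by positivity)
    have := s6
    nlinarith
  have h4 : Real.log 98 < 15 * Real.log 1.3615 := by
    have e : 15 * Real.log 1.3615 = Real.log (1.3615 ^ 15) := by
      rw [Real.log_pow]; norm_num
    rw [e]
    apply Real.log_lt_log (by norm_num)
    norm_num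
  have h5 : Real.log 1.3615 ≤ Lam := by
    unfold Lam
    apply Real.log_le_log (by norm_num)
    rw [le_div_iff₀ (by linarith)]
    nlinarith
  linarith

theorem crit {z : ℤ√6} (him : z.im ≠ 0) (hn : 0 < z.norm) (ht : |tt z| < Lam) :
    16 * |z.im| < |z.re| := by
  by_contra hcon
  push Not at hcon
  set A : ℝ := |(z.re : ℝ)| with hA
  set B : ℝ := |(z.im : ℝ)| with hB
  have hB0 : 0 < B := by
    rw [hB, abs_pos]; exact_mod_cast him
  have hA0 : 0 ≤ A := abs_nonneg _
  have hAB : A ≤ 16 * B := by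
    have : ((|z.re| : ℤ) : ℝ) ≤ ((16 * |z.im| : ℤ) : ℝ) := by exact_mod_cast hcon
    push_cast at this
    exact this
  have hn' : B ^ 2 * 6 < A ^ 2 := by
    rw [norm6] at hn
    have : (0 : ℝ) < (z.re : ℝ) ^ 2 - 6 * (z.im : ℝ) ^ 2 := by exact_mod_cast hn
    rw [hA, hB, sq_abs, sq_abs]
    linarith
  have h6 := s6
  have h61 := s6_gt
  have h62 := s6_lt
  have hd : 0 < A - B * √6 := by
    by_contra h
    push Not at h
    have : A ^ 2 ≤ (B * √6) ^ 2 := by
      apply pow_le_pow_left₀ hA0; linarith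
    have e : (B * √6) ^ 2 = B ^ 2 * 6 := by
      rw [mul_pow, Real.sq_sqrt (by norm_num)]
    linarith
  have hs : 0 < A + B * √6 := by positivity
  have hcase : (|pl z| = A + B * √6 ∧ |mi z| = A - B * √6) ∨
      (|pl z| = A - B * √6 ∧ |mi z| = A + B * √6) := by
    unfold pl mi
    rcases abs_cases (z.re : ℝ) with ⟨h1, h2⟩ | ⟨h1, h2⟩ <;>
    rcases abs_cases (z.im : ℝ) with ⟨h3, h4⟩ | ⟨h3, h4⟩
    · left
      rw [← hA] at h1
      rw [← hB] at h3
      rw [← h1, ← h3]
      exact ⟨abs_of_pos hs, abs_of_pos hd⟩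
    · right
      rw [← hA] at h1
      rw [← hB] at h3
      have e1 : (z.re : ℝ) = A := h1.symm
      have e2 : (z.im : ℝ) = -B := by linarith
      rw [e1, e2]
      constructor
      · rw [abs_of_pos (by linarith)]; ring
      · rw [abs_of_pos (by linarith)]; ring
    · right
      rw [← hA] at h1
      rw [← hB] at h3
      have e1 : (z.re : ℝ) = -A := by linarith
      have e2 : (z.im : ℝ) = B := h3.symm
      rw [e1, e2]
      constructor
      · rw [abs_of_neg (by linarith)]; ring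
      · rw [abs_of_neg (by linarith)]; ring
    · left
      rw [← hA] at h1
      rw [← hB] at h3
      have e1 : (z.re : ℝ) = -A := by linarith
      have e2 : (z.im : ℝ) = -B := by linarith
      rw [e1, e2]
      constructor
      · rw [abs_of_neg (by linarith)]; ring
      · rw [abs_of_neg (by linarith)]; ring
  have key : Lam ≤ Real.log (A + B * √6) - Real.log (A - B * √6) := by
    rw [← Real.log_div hs.ne' hd.ne']
    unfold Lam
    apply Real.log_le_log
    · apply div_pos <;> linarith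
    · rw [div_le_div_iff₀ (by linarith) hd]
      nlinarith
  unfold tt at ht
  rcases hcase with ⟨h1, h2⟩ | ⟨h1, h2⟩
  · rw [h1, h2] at ht
    have := (abs_lt.1 ht).2
    linarith
  · rw [h1, h2] at ht
    have := (abs_lt.1 ht).1
    linarith

theorem crit1 {z : ℤ√6} {M : ℕ} (him : z.im ≠ 0) (hM : 0 < M) (hn : z.norm = M)
    (ht : |tt z| < Lam) : InS M := by
  have h1 := crit him (by rw [hn]; exact_mod_cast hM) ht
  refine inS_sq (a := 1) (t := 16) (e := -6) (m := 20) (A := |z.re|) (B := |z.im|) (by norm_num)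
    (by norm_num) (by norm_num) (by norm_num) (abs_pos.2 him) h1 ?_
  rw [sq_abs, sq_abs, ← hn, norm6]; ring

theorem crit2 {z : ℤ√6} {M : ℕ} (him : z.im ≠ 0) (hM : 0 < M) (hn : z.norm = 2 * M)
    (ht : |tt z| < Lam) : InS M := by
  have h1 := crit him (by rw [hn]; positivity) ht
  rw [norm6] at hn
  obtain ⟨x, hx⟩ := even_of_sq (x := z.re) (t := M + 3 * z.im ^ 2) (by linarith)
  rw [hx] at h1 hn
  rw [abs_mul] at h1
  norm_num at h1
  refine inS_sq (a := 2) (t := 8) (e := -3) (m := 20) (A := |x|) (B := |z.im|) (by norm_num)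
    (by norm_num) (by norm_num) (by norm_num) (abs_pos.2 him) (by linarith) ?_
  rw [sq_abs, sq_abs]; linarith

theorem norm_pow6 (z : ℤ√6) (n : ℕ) : (z ^ n).norm = z.norm ^ n := by
  induction n with
  | zero => simp
  | succ n ih => rw [pow_succ, Zsqrtd.norm_mul, ih, pow_succ]

theorem exists_unit (i : ℤ) : ∃ u : ℤ√6, u.norm = 1 ∧ tt u = i * LL := by
  have key : ∀ n : ℕ, (eps ^ n).norm = 1 ∧ tt (eps ^ n) = n * LL := by
    intro n
    have h1 : ∀ n : ℕ, (eps ^ n).norm = 1 := by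
      intro n
      rw [norm_pow6, norm_eps, one_pow]
    refine ⟨h1 n, ?_⟩
    induction n with
    | zero => unfold tt pl mi; simp
    | succ n ih =>
      rw [pow_succ, tt_mul (by rw [h1]; norm_num) (by rw [norm_eps]; norm_num), ih, tt_eps]
      push_cast
      ring
  obtain ⟨n, rfl | rfl⟩ := Int.eq_nat_or_neg i
  · exact ⟨eps ^ n, (key n).1, by rw [(key n).2]; push_cast; ring⟩
  · refine ⟨star (eps ^ n), ?_, ?_⟩
    · rw [Zsqrtd.norm_conj]; exact (key n).1
    · rw [tt_star, (key n).2]; push_cast; ring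

/-- an element close to the real axis modulo the group generated by `mu` and the units -/
theorem fin {δ : ℤ√6} {r M : ℕ} {j : ℤ} (hM : 0 < M) (hδ : δ.norm = (-1) ^ r * M)
    (hj : Even (j - r)) (ht : |tt δ + j * (LL / 2)| < Lam)
    (nd : ∀ u : ℤ√6, u.norm = 1 → (δ * u).im ≠ 0 ∧ (δ * mu * u).im ≠ 0) : InS M := by
  have hM' : (M : ℤ) ≠ 0 := by exact_mod_cast hM.ne'
  have hδ0 : δ.norm ≠ 0 := by
    rw [hδ]
    exact mul_ne_zero (pow_ne_zero _ (by norm_num)) hM'
  rcases Int.even_or_odd' j with ⟨i, hi | hi⟩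
  · obtain ⟨u, hu1, hu2⟩ := exists_unit i
    have hr : Even r := by
      have h1 : Even j := ⟨i, by rw [hi]; ring⟩
      have h2 : Even ((r : ℕ) : ℤ) := by
        have h3 := h1.sub hj
        simpa using h3
      exact_mod_cast h2
    have hn : (δ * u).norm = M := by
      rw [Zsqrtd.norm_mul, hu1, hδ, hr.neg_one_pow]; ring
    apply crit1 (nd u hu1).1 hM hn
    rw [tt_mul hδ0 (by rw [hu1]; norm_num), hu2]
    have e : tt δ + i * LL = tt δ + j * (LL / 2) := by
      rw [hi]; push_cast; ring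
    rw [e]
    exact ht
  · obtain ⟨u, hu1, hu2⟩ := exists_unit i
    have hr : Odd r := by
      have h1 : Odd j := ⟨i, hi⟩
      have h2 : Odd ((r : ℕ) : ℤ) := by
        have h3 := h1.sub_even hj
        simpa using h3
      exact_mod_cast h2
    have hn : (δ * mu * u).norm = 2 * M := by
      rw [Zsqrtd.norm_mul, Zsqrtd.norm_mul, hu1, hδ, hr.neg_one_pow, norm_mu]; ring
    have hmu0 : mu.norm ≠ 0 := by rw [norm_mu]; norm_num
    apply crit2 (nd u hu1).2 hM hn
    rw [tt_mul (by rw [Zsqrtd.norm_mul]; exact mul_ne_zero hδ0 hmu0) (by rw [hu1]; norm_num),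
      tt_mul hδ0 hmu0, hu2, tt_mu]
    have e : tt δ + LL / 2 + i * LL = tt δ + j * (LL / 2) := by
      rw [hi]; push_cast; ring
    rw [e]
    exact ht

theorem exists_gamma {p : ℕ} (hp : p.Prime) (h : p % 24 = 5) : ∃ z : ℤ√6, z.norm = -p := by
  obtain ⟨x, y, hxy⟩ := rep6 hp h
  exact ⟨⟨x, y⟩, by rw [norm6]; exact hxy⟩

end Pool.Agent.Work.MP_43ce8a_nt
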