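import Mathlib
import Pool.Agent.Work.MP_43ce8a_nt.Five

set_option autoImplicit false

/-!
# Four distinct primes, or fourteen primes, congruent to 5 modulo 24
-/

namespace Pool.Agent.Work.MP_43ce8a_nt

open Finset Real

theorem odd_prod {D : Finset ℕ} (hD : ∀ p ∈ D, p % 2 = 1) : (∏ p ∈ D, p) % 2 = 1 := by
  rw [← Nat.odd_iff]
  exact Finset.prod_induction _ Odd (fun _ _ => Odd.mul) odd_one
    (fun p hp => Nat.odd_iff.2 (hD p hp))

/-- four distinct primes -/
theorem four_primes (s : Finset ℕ) (hs : ∀ p ∈ s, p.Prime ∧ p % 24 = 5) (hc : 4 ≤ #s) :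
    InS (∏ p ∈ s, p) := by
  classical
  choose! γ hγ using fun p (hp : p ∈ s) => exists_gamma (hs p hp).1 (hs p hp).2
  set W : Finset ℕ → ℤ√6 := fun A => ∏ p ∈ A, γ p with hW
  set M : Finset ℕ → ℕ := fun A => ∏ p ∈ A, p with hM
  have hMpos : ∀ A ⊆ s, 0 < M A := fun A hA =>
    Finset.prod_pos (fun p hp => (hs p (hA hp)).1.pos)
  have hnorm : ∀ A ⊆ s, (W A).norm = (-1) ^ #A * M A := by
    intro A hA
    have e : (W A).norm = ∏ p ∈ A, (γ p).norm := by
      rw [hW]
      exact map_prod (Zsqrtd.normMonoidHom (d := 6)) γ A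
    rw [e, Finset.prod_congr rfl (fun p hp => hγ p (hA hp))]
    have : ∀ p ∈ A, (-(p : ℤ)) = (-1) * (p : ℤ) := fun p _ => by ring
    rw [Finset.prod_congr rfl this, Finset.prod_mul_distrib, Finset.prod_const, hM]
    push_cast
    rfl
  have hn0 : ∀ A ⊆ s, (W A).norm ≠ 0 := by
    intro A hA
    rw [hnorm A hA]
    exact mul_ne_zero (pow_ne_zero _ (by norm_num)) (by exact_mod_cast (hMpos A hA).ne')
  obtain ⟨A, hA, B, hB, hne, k, hk⟩ := circle s.powerset (N := 16) (by norm_num)
    (by
      rw [Finset.card_powerset]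
      calc 16 = 2 ^ 4 := by norm_num
        _ ≤ 2 ^ #s := Nat.pow_le_pow_right (by norm_num) hc)
    (fun A => tt (W A) + #A * (LL / 2)) LL_pos
  rw [Finset.mem_powerset] at hA hB
  have e1 : W A = W (A \ B) * W (A ∩ B) := by
    rw [hW]
    simp only
    rw [← Finset.prod_union (Finset.disjoint_sdiff_inter A B), Finset.sdiff_union_inter]
  have e2 : W B = W (B \ A) * W (A ∩ B) := by
    rw [hW]
    simp only
    rw [Finset.inter_comm A B, ← Finset.prod_union (Finset.disjoint_sdiff_inter B A),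
      Finset.sdiff_union_inter]
  have hI : A ∩ B ⊆ s := Finset.inter_subset_left.trans hA
  have hD1 : A \ B ⊆ s := Finset.sdiff_subset.trans hA
  have hD2 : B \ A ⊆ s := Finset.sdiff_subset.trans hB
  have hdisj : Disjoint (A \ B) (B \ A) := disjoint_sdiff_sdiff
  have hU : (A \ B) ∪ (B \ A) ⊆ s := Finset.union_subset hD1 hD2
  have hUne : ((A \ B) ∪ (B \ A)).Nonempty := by
    rw [Finset.nonempty_iff_ne_empty]
    intro h
    rw [Finset.union_eq_empty, Finset.sdiff_eq_empty_iff_subset,
      Finset.sdiff_eq_empty_iff_subset] at h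
    exact hne (Finset.Subset.antisymm h.1 h.2)
  set U := (A \ B) ∪ (B \ A) with hUdef
  have hMu : M (A \ B) * M (B \ A) = M U := (Finset.prod_union hdisj).symm
  have hcu : #U = #(A \ B) + #(B \ A) := Finset.card_union_of_disjoint hdisj
  set δ := W (A \ B) * star (W (B \ A)) with hδ
  have hδn : δ.norm = (-1) ^ #U * M U := by
    rw [hδ, Zsqrtd.norm_mul, Zsqrtd.norm_conj, hnorm _ hD1, hnorm _ hD2, ← hMu, hcu, pow_add]
    push_cast
    ring
  have hstar : (star (W (B \ A))).norm ≠ 0 := by
    rw [Zsqrtd.norm_conj]; exact hn0 _ hD2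
  have htt : tt δ = tt (W A) - tt (W B) := by
    rw [hδ, tt_mul (hn0 _ hD1) hstar, tt_star, e1, e2, tt_mul (hn0 _ hD1) (hn0 _ hI),
      tt_mul (hn0 _ hD2) (hn0 _ hI)]
    ring
  have hMU := hMpos U hU
  have hsqM : ¬ IsSquare (M U) := not_isSquare_prod (fun p hp => (hs p (hU hp)).1) hUne
  have hoddM : M U % 2 = 1 := odd_prod (fun p hp => by
    have := (hs p (hU hp)).2
    omega)
  have hns : ∀ x : ℤ, x ^ 2 ≠ M U := by
    intro x hx
    apply hsqM
    refine ⟨x.natAbs, ?_⟩
    zify
    rw [← hx, ← sq, sq_abs]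
  have hc1 : #A = #(A \ B) + #(A ∩ B) := by
    rw [Finset.card_sdiff_add_card_inter]
  have hc2 : #B = #(B \ A) + #(A ∩ B) := by
    rw [Finset.inter_comm, Finset.card_sdiff_add_card_inter]
  have hInS : InS (M U) := by
    apply fin (δ := δ) (r := #U) (j := (#A : ℤ) - #B - 2 * k) hMU hδn
    · rw [hc1, hc2, hcu]
      refine ⟨-#(B \ A) - k, ?_⟩
      push_cast
      ring
    · have e : tt δ + (((#A : ℤ) - #B - 2 * k : ℤ) : ℝ) * (LL / 2) =
          tt (W A) + #A * (LL / 2) - (tt (W B) + #B * (LL / 2)) - k * LL := by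
        rw [htt]
        push_cast
        ring
      rw [e]
      have h15 : LL / ((16 : ℕ) : ℝ) ≤ LL / 15 := by
        have := LL_pos
        push_cast
        linarith
      exact lt_of_le_of_lt (hk.trans h15) LL_lt
    · intro u hu
      constructor
      · intro h0
        have h1 : (δ * u).norm = (δ * u).re ^ 2 := by rw [norm6, h0]; ring
        rw [Zsqrtd.norm_mul, hu, hδn, mul_one] at h1
        rcases neg_one_pow_eq_or ℤ (#U) with h2 | h2
        · rw [h2, one_mul] at h1
          exact hns _ h1.symm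
        · rw [h2] at h1
          have : (0 : ℤ) < M U := by exact_mod_cast hMU
          nlinarith [sq_nonneg (δ * u).re]
      · intro h0
        have h1 : (δ * mu * u).norm = (δ * mu * u).re ^ 2 := by rw [norm6, h0]; ring
        rw [Zsqrtd.norm_mul, Zsqrtd.norm_mul, hu, hδn, norm_mu, mul_one] at h1
        have hpos : (0 : ℤ) < M U := by exact_mod_cast hMU
        rcases neg_one_pow_eq_or ℤ (#U) with h2 | h2
        · rw [h2] at h1
          nlinarith [sq_nonneg (δ * mu * u).re]
        · rw [h2] at h1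
          obtain ⟨y, hy⟩ := even_of_sq (x := (δ * mu * u).re) (t := M U) (by linarith)
          rw [hy] at h1
          have h3 : (M U : ℤ) = 2 * y ^ 2 := by linarith
          omega
  apply hInS.of_dvd (hMpos s (Finset.Subset.refl s))
  exact Finset.prod_dvd_prod_of_subset _ _ _ hU

/-- the reduction modulo a prime above `p` -/
theorem exists_hom {p : ℕ} (hp : p.Prime) (h : p % 24 = 5) {γ : ℤ√6} (hγ : γ.norm = -p) :
    ∃ φ : ℤ√6 →+* ZMod p, φ γ ≠ 0 ∧ φ (star γ) = 0 := by
  have : Fact p.Prime := ⟨hp⟩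
  have h2 : (2 : ZMod p) ≠ 0 := by
    intro h0
    have : (p : ℕ) ∣ 2 := (ZMod.natCast_eq_zero_iff 2 p).1 (by exact_mod_cast h0)
    have := Nat.le_of_dvd (by norm_num) this
    omega
  have h3 : (3 : ZMod p) ≠ 0 := by
    intro h0
    have : (p : ℕ) ∣ 3 := (ZMod.natCast_eq_zero_iff 3 p).1 (by exact_mod_cast h0)
    have := Nat.le_of_dvd (by norm_num) this
    omega
  have hpl : Prime (p : ℤ) := Nat.prime_iff_prime_int.1 hp
  rw [norm6] at hγ
  have hz : (γ.re : ZMod p) ^ 2 = 6 * (γ.im : ZMod p) ^ 2 := by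
    have := congrArg (fun t : ℤ => (t : ZMod p)) hγ
    push_cast at this
    rw [ZMod.natCast_self] at this
    linear_combination this
  have him : (γ.im : ZMod p) ≠ 0 := by
    intro h0
    rw [h0] at hz
    have h4 : (γ.re : ZMod p) = 0 := by
      have : (γ.re : ZMod p) ^ 2 = 0 := by rw [hz]; ring
      exact pow_eq_zero_iff (by norm_num) |>.1 this
    obtain ⟨a, ha⟩ := (ZMod.intCast_zmod_eq_zero_iff_dvd _ _).1 h0
    obtain ⟨b, hb⟩ := (ZMod.intCast_zmod_eq_zero_iff_dvd _ _).1 h4
    rw [ha, hb] at hγ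
    have h5 : (p : ℤ) * (p * (b ^ 2 - 6 * a ^ 2)) = p * (-1) := by
      linear_combination hγ
    have h6 := mul_left_cancel₀ hpl.ne_zero h5
    have : (p : ℤ) ∣ 1 := ⟨-(b ^ 2 - 6 * a ^ 2), by linarith⟩
    exact hpl.not_dvd_one this
  set s : ZMod p := (γ.re : ZMod p) / (γ.im : ZMod p) with hs
  have hs2 : s * s = ((6 : ℤ) : ZMod p) := by
    rw [hs]
    push_cast
    field_simp
    linear_combination hz
  refine ⟨Zsqrtd.lift ⟨s, hs2⟩, ?_, ?_⟩
  · have e : Zsqrtd.lift ⟨s, hs2⟩ γ = (γ.re : ZMod p) + γ.im * s := rfl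
    rw [e, hs]
    have e2 : (γ.re : ZMod p) + γ.im * (γ.re / γ.im) = 2 * γ.re := by
      field_simp
      ring
    rw [e2]
    apply mul_ne_zero h2
    intro h0
    rw [h0] at hz
    have h4 : (6 : ZMod p) * (γ.im : ZMod p) ^ 2 = 0 := by rw [← hz]; ring
    have h6 : (6 : ZMod p) = 2 * 3 := by norm_num
    rw [h6] at h4
    rcases mul_eq_zero.1 h4 with h | h
    · rcases mul_eq_zero.1 h with h | h
      · exact h2 h
      · exact h3 h
    · exact him (pow_eq_zero_iff (by norm_num) |>.1 h)
  · have e : Zsqrtd.lift ⟨s, hs2⟩ (star γ) = ((star γ).re : ZMod p) + (star γ).im * s := rfl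
    rw [e, hs, Zsqrtd.re_star, Zsqrtd.im_star]
    push_cast
    field_simp
    ring

theorem fourteen_primes (l : ℕ → ℕ) (hl : ∀ j < 14, (l j).Prime ∧ l j % 24 = 5) :
    InS (∏ j ∈ range 14, l j) := by
  classical
  have hex : ∀ p : ℕ, p.Prime ∧ p % 24 = 5 → ∃ z : ℤ√6, z.norm = -p := fun p hp =>
    exists_gamma hp.1 hp.2
  choose! γ hγ using hex
  set W : ℕ → ℤ√6 := fun i => ∏ j ∈ range i, γ (l j) with hW
  have hn0' : ∀ j < 14, (γ (l j)).norm ≠ 0 := by
    intro j hj
    rw [hγ _ (hl j hj)]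
    have : ((l j : ℕ) : ℤ) ≠ 0 := by exact_mod_cast (hl j hj).1.ne_zero
    simpa using this
  have hblock : ∀ a b : ℕ, b ≤ 14 → (∏ j ∈ Ico a b, γ (l j)).norm =
      (-1) ^ (b - a) * ((∏ j ∈ Ico a b, l j : ℕ) : ℤ) := by
    intro a b hb
    have e : (∏ j ∈ Ico a b, γ (l j)).norm = ∏ j ∈ Ico a b, (γ (l j)).norm :=
      map_prod (Zsqrtd.normMonoidHom (d := 6)) _ _
    have : ∀ j ∈ Ico a b, (γ (l j)).norm = (-1) * ((l j : ℕ) : ℤ) := by
      intro j hj
      rw [Finset.mem_Ico] at hj
      rw [hγ _ (hl j (by omega))]; ring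
    rw [e, Finset.prod_congr rfl this, Finset.prod_mul_distrib, Finset.prod_const, Nat.card_Ico]
    push_cast
    rfl
  have hblock0 : ∀ a b : ℕ, b ≤ 14 → (∏ j ∈ Ico a b, γ (l j)).norm ≠ 0 := by
    intro a b hb
    rw [hblock a b hb]
    apply mul_ne_zero (pow_ne_zero _ (by norm_num))
    have : (∏ j ∈ Ico a b, l j) ≠ 0 := Finset.prod_ne_zero_iff.2 (fun j hj => by
      rw [Finset.mem_Ico] at hj
      exact (hl j (by omega)).1.ne_zero)
    exact_mod_cast this
  have hWI : ∀ i, W i = ∏ j ∈ Ico 0 i, γ (l j) := by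
    intro i
    rw [hW]
    simp only
    rw [Finset.range_eq_Ico]
  -- wlog form
  have main : ∀ (a b : ℕ) (k : ℤ), a < b → b ≤ 14 →
      |tt (W b) + b * (LL / 2) - (tt (W a) + a * (LL / 2)) - k * LL| ≤ LL / 15 →
      InS (∏ j ∈ range 14, l j) := by
    intro a b k hab hb hk
    set δ := ∏ j ∈ Ico a b, γ (l j) with hδ
    set M := ∏ j ∈ Ico a b, l j with hM
    have hMpos : 0 < M := Finset.prod_pos (fun j hj => by
      rw [Finset.mem_Ico] at hj
      exact (hl j (by omega)).1.pos)
    have hWb : W b = W a * δ := by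
      rw [hWI, hWI, hδ, Finset.prod_Ico_consecutive _ (Nat.zero_le a) hab.le]
    have hWa0 : (W a).norm ≠ 0 := by
      rw [hWI]; exact hblock0 0 a (by omega)
    have htt : tt δ = tt (W b) - tt (W a) := by
      rw [hWb, tt_mul hWa0 (hblock0 a b hb)]; ring
    have hlam : l a % 24 = 5 := (hl a (by omega)).2
    obtain ⟨φ, hφ1, hφ2⟩ := exists_hom (hl a (by omega)).1 (hl a (by omega)).2
      (hγ _ (hl a (by omega)))
    have hpa := (hl a (by omega)).1
    have : Fact (l a).Prime := ⟨hpa⟩
    have hcast : ∀ n : ℤ, φ (n : ℤ√6) = (n : ZMod (l a)) := fun n => map_intCast φ n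
    have hstar : ∀ z : ℤ√6, φ z * φ (star z) = ((z.norm : ℤ) : ZMod (l a)) := by
      intro z
      rw [← map_mul, ← Zsqrtd.norm_eq_mul_conj, hcast]
    have hφδ : φ δ ≠ 0 := by
      rw [hδ, map_prod, Finset.prod_ne_zero_iff]
      intro j hj
      rw [Finset.mem_Ico] at hj
      by_cases hja : l j = l a
      · rw [hja]; exact hφ1
      · intro h0
        have h1 := hstar (γ (l j))
        rw [h0, zero_mul, hγ _ (hl j (by omega))] at h1
        have h2 : ((l j : ℕ) : ZMod (l a)) = 0 := by
          push_cast at h1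
          have := neg_eq_zero.1 h1.symm
          exact this
        rw [ZMod.natCast_eq_zero_iff] at h2
        exact hja ((Nat.prime_dvd_prime_iff_eq hpa (hl j (by omega)).1).1 h2).symm
    have hφu : ∀ u : ℤ√6, u.norm = 1 → φ u ≠ 0 := by
      intro u hu h0
      have h1 := hstar u
      rw [h0, zero_mul, hu] at h1
      push_cast at h1
      exact zero_ne_one h1
    have hφmu : φ mu ≠ 0 := by
      intro h0
      have h1 := hstar mu
      rw [h0, zero_mul, norm_mu] at h1
      push_cast at h1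
      have h2 : (((2 : ℕ) : ℕ) : ZMod (l a)) = 0 := by
        have := neg_eq_zero.1 h1.symm
        exact_mod_cast this
      rw [ZMod.natCast_eq_zero_iff] at h2
      have := Nat.le_of_dvd (by norm_num) h2
      omega
    have hMa : ((M : ℕ) : ZMod (l a)) = 0 := by
      rw [ZMod.natCast_eq_zero_iff, hM]
      exact Finset.dvd_prod_of_mem _ (Finset.mem_Ico.2 ⟨le_refl a, hab⟩)
    -- an element with zero second coordinate and norm divisible by `l a` is killed by `φ`
    have kill : ∀ z : ℤ√6, z.im = 0 → ((z.norm : ℤ) : ZMod (l a)) = 0 → φ z = 0 := by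
      intro z hz hzn
      have e : z = ((z.re : ℤ) : ℤ√6) := by
        ext
        · exact (Zsqrtd.re_intCast _).symm
        · rw [hz]; exact (Zsqrtd.im_intCast _).symm
      rw [norm6, hz] at hzn
      push_cast at hzn
      have h1 : ((z.re : ℤ) : ZMod (l a)) = 0 := by
        have : ((z.re : ℤ) : ZMod (l a)) ^ 2 = 0 := by linear_combination hzn
        exact pow_eq_zero_iff (by norm_num) |>.1 this
      rw [e, hcast]
      exact h1
    have hInS : InS M := by
      apply fin (δ := δ) (r := b - a) (j := (b : ℤ) - a - 2 * k) hMpos (hblock a b hb)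
      · rw [Nat.cast_sub hab.le]
        exact ⟨-k, by ring⟩
      · have e : tt δ + (((b : ℤ) - a - 2 * k : ℤ) : ℝ) * (LL / 2) =
            tt (W b) + b * (LL / 2) - (tt (W a) + a * (LL / 2)) - k * LL := by
          rw [htt]
          push_cast
          ring
        rw [e]
        exact lt_of_le_of_lt hk LL_lt
      · intro u hu
        constructor
        · intro h0
          have h1 := kill _ h0 (by
            rw [Zsqrtd.norm_mul, hblock a b hb]
            push_cast
            rw [hM] at hMa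
            push_cast at hMa
            rw [hMa]; ring)
          rw [map_mul] at h1
          rcases mul_eq_zero.1 h1 with h | h
          · exact hφδ h
          · exact hφu u hu h
        · intro h0
          have h1 := kill _ h0 (by
            rw [Zsqrtd.norm_mul, Zsqrtd.norm_mul, hblock a b hb]
            push_cast
            rw [hM] at hMa
            push_cast at hMa
            rw [hMa]; ring)
          rw [map_mul, map_mul] at h1
          rcases mul_eq_zero.1 h1 with h | h
          · rcases mul_eq_zero.1 h with h | h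
            · exact hφδ h
            · exact hφmu h
          · exact hφu u hu h
    apply hInS.of_dvd
    · exact Finset.prod_pos (fun j hj => (hl j (Finset.mem_range.1 hj)).1.pos)
    · rw [hM, Finset.range_eq_Ico]
      exact Finset.prod_dvd_prod_of_subset _ _ _ (Finset.Ico_subset_Ico (Nat.zero_le a) hb)
  obtain ⟨a, ha, b, hb, hne, k, hk⟩ := circle (range 15) (N := 15) (by norm_num)
    (by rw [Finset.card_range]) (fun i => tt (W i) + i * (LL / 2)) LL_pos
  rw [Finset.mem_range] at ha hb
  push_cast at hk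
  rcases lt_or_gt_of_ne hne with h | h
  · apply main a b (-k) h (by omega)
    rw [← abs_neg]
    convert hk using 2
    push_cast
    ring
  · exact main b a k h (by omega) hk

end Pool.Agent.Work.MP_43ce8a_nt
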