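import Mathlib
import Pool.Agent.Work.MP_43ce8a_nt.Eleven
import Pool.Agent.Work.MP_43ce8a_nt.FiveB

set_option autoImplicit false

/-!
# The structure of the integers outside `S`
-/

namespace Pool.Agent.Work.MP_43ce8a_nt

open Finset

/-- the prime factors of `n` congruent to `r` modulo 24 -/
def pf (r n : ℕ) : Finset ℕ := n.primeFactors.filter (fun p => p % 24 = r)

/-- their number, counted with multiplicity -/
def om (r n : ℕ) : ℕ := ∑ p ∈ pf r n, n.factorization p

theorem prime_cases {n : ℕ} (hn : 0 < n) (h : ¬ InS n) {p : ℕ} (hp : p ∈ n.primeFactors) :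
    p = 2 ∨ p % 24 = 5 ∨ p % 24 = 11 := by
  have hpp := Nat.prime_of_mem_primeFactors hp
  have hpn := Nat.dvd_of_mem_primeFactors hp
  have hS : ¬ InS p := fun hh => h (hh.of_dvd hn hpn)
  by_contra hcon
  push Not at hcon
  obtain ⟨h2, h5, h11⟩ := hcon
  have hodd : p % 2 = 1 := by
    rcases hpp.eq_two_or_odd with h | h
    · exact absurd h h2
    · exact h
  have h3 : p % 3 ≠ 0 := by
    intro h0
    have := (Nat.prime_dvd_prime_iff_eq Nat.prime_three hpp).1 (Nat.dvd_of_mod_eq_zero h0)
    rw [← this] at hS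
    exact hS inS_three
  have h31 : p % 3 ≠ 1 := fun hh => hS (inS_of_mod3 hpp hh)
  have h8 : ¬ (p % 8 = 1 ∨ p % 8 = 7) := fun hh => hS (inS_of_mod8 hpp hh)
  have e8 : p % 24 % 8 = p % 8 := Nat.mod_mod_of_dvd p (by norm_num)
  have e3 : p % 24 % 3 = p % 3 := Nat.mod_mod_of_dvd p (by norm_num)
  have e2 : p % 24 % 2 = p % 2 := Nat.mod_mod_of_dvd p (by norm_num)
  have hlt : p % 24 < 24 := Nat.mod_lt _ (by norm_num)
  generalize p % 24 = r at *
  interval_cases r <;> omega

theorem two_le {n : ℕ} (hn : 0 < n) (h : ¬ InS n) : n.factorization 2 ≤ 5 := by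
  by_contra hcon
  push Not at hcon
  apply h
  apply inS_64.of_dvd hn
  have : 2 ^ 6 ∣ n := (Nat.prime_two.pow_dvd_iff_le_factorization hn.ne').2 hcon
  exact this

theorem prod_dvd {n : ℕ} {s : Finset ℕ} (hs : s ⊆ n.primeFactors) : ∏ p ∈ s, p ∣ n :=
  (Finset.prod_dvd_prod_of_subset _ _ _ hs).trans (Nat.prod_primeFactors_dvd n)

theorem card5 {n : ℕ} (hn : 0 < n) (h : ¬ InS n) : #(pf 5 n) ≤ 3 := by
  by_contra hcon
  push Not at hcon
  apply h
  apply (four_primes (pf 5 n) _ hcon).of_dvd hn (prod_dvd (Finset.filter_subset _ _))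
  intro p hp
  rw [pf, Finset.mem_filter] at hp
  exact ⟨Nat.prime_of_mem_primeFactors hp.1, hp.2⟩

theorem card11 {n : ℕ} (hn : 0 < n) (h : ¬ InS n) : #(pf 11 n) ≤ 2 := by
  by_contra hcon
  push Not at hcon
  apply h
  apply (three_primes (pf 11 n) _ hcon).of_dvd hn (prod_dvd (Finset.filter_subset _ _))
  intro p hp
  rw [pf, Finset.mem_filter] at hp
  exact ⟨Nat.prime_of_mem_primeFactors hp.1, hp.2⟩

theorem card_odd {n : ℕ} (hn : 0 < n) (h : ¬ InS n) : #(n.primeFactors.erase 2) ≤ 4 := by
  by_contra hcon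
  push Not at hcon
  apply h
  apply (five_primes (n.primeFactors.erase 2) _ hcon).of_dvd hn (prod_dvd (Finset.erase_subset _ _))
  intro p hp
  rw [Finset.mem_erase] at hp
  exact ⟨Nat.prime_of_mem_primeFactors hp.2, (prime_cases hn h hp.2).resolve_left hp.1⟩

theorem fourteen_list (L : List ℕ) (hL : L.length = 14)
    (h : ∀ p ∈ L, p.Prime ∧ p % 24 = 5) : InS L.prod := by
  have h1 := fourteen_primes (fun j => L.getD j 0) (by
    intro j hj
    have hj' : j < L.length := by omega
    have : L.getD j 0 = L[j] := by simp [List.getD_eq_getElem?_getD, hj']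
    rw [this]
    exact h _ (List.getElem_mem hj'))
  have h2 : ∏ j ∈ range 14, L.getD j 0 = L.prod := by
    rw [Finset.prod_range, ← List.prod_ofFn]
    congr 1
    apply List.ext_getElem
    · rw [List.length_ofFn, hL]
    · intro i h3 h4
      rw [List.getElem_ofFn]
      simp [List.getD_eq_getElem?_getD, h4]
  rw [← h2]
  exact h1

theorem om_eq (r n : ℕ) : om r n = (n.primeFactorsList.filter (fun p => p % 24 = r)).length := by
  rw [← List.sum_toFinset_count_eq_length, List.toFinset_filter, om, pf]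
  apply Finset.sum_congr
  · ext p
    simp only [Finset.mem_filter, List.mem_toFinset, decide_eq_true_eq, ← Nat.toFinset_factors]
  · intro p hp
    rw [Finset.mem_filter] at hp
    rw [List.count_filter (by simpa using hp.2), Nat.primeFactorsList_count_eq]

theorem om5 {n : ℕ} (hn : 0 < n) (h : ¬ InS n) : om 5 n ≤ 13 := by
  by_contra hcon
  push Not at hcon
  rw [om_eq] at hcon
  apply h
  set L := n.primeFactorsList.filter (fun p => p % 24 = 5) with hL
  have h1 : (L.take 14).length = 14 := by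
    rw [List.length_take]; omega
  have h2 := fourteen_list (L.take 14) h1 (by
    intro p hp
    have hp' := List.mem_of_mem_take hp
    rw [hL, List.mem_filter] at hp'
    exact ⟨Nat.prime_of_mem_primeFactorsList hp'.1, by simpa using hp'.2⟩)
  apply h2.of_dvd hn
  have h3 : (L.take 14).prod ∣ L.prod := (List.take_sublist 14 L).prod_dvd_prod
  have h4 : L.prod ∣ n.primeFactorsList.prod := List.filter_sublist.prod_dvd_prod
  rw [Nat.prod_primeFactorsList hn.ne'] at h4
  exact h3.trans h4

theorem mem_pf {r n p : ℕ} (hn : 0 < n) (hp : p ∈ pf r n) :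
    p.Prime ∧ p % 24 = r ∧ 1 ≤ n.factorization p := by
  rw [pf, Finset.mem_filter] at hp
  have hpp := Nat.prime_of_mem_primeFactors hp.1
  exact ⟨hpp, hp.2, hpp.factorization_pos_of_dvd hn.ne' (Nat.dvd_of_mem_primeFactors hp.1)⟩

theorem pow_dvd' {n p k : ℕ} (hn : 0 < n) (hp : p.Prime) (h : k ≤ n.factorization p) :
    p ^ k ∣ n := (hp.pow_dvd_iff_le_factorization hn.ne').2 h

theorem om11 {n : ℕ} (hn : 0 < n) (h : ¬ InS n) :
    om 11 n ≤ 5 ∧ (#(pf 11 n) = 2 → om 11 n ≤ 3) := by
  have hc := card11 hn h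
  have hcases : #(pf 11 n) = 0 ∨ #(pf 11 n) = 1 ∨ #(pf 11 n) = 2 := by omega
  rcases hcases with h0 | h1 | h2
  · rw [Finset.card_eq_zero] at h0
    have : om 11 n = 0 := by rw [om, h0, Finset.sum_empty]
    omega
  · obtain ⟨p, hp⟩ := Finset.card_eq_one.1 h1
    have hmem : p ∈ pf 11 n := by rw [hp]; exact Finset.mem_singleton_self p
    obtain ⟨a1, a2, a3⟩ := mem_pf hn hmem
    have e : om 11 n = n.factorization p := by rw [om, hp, Finset.sum_singleton]
    have h5 : n.factorization p ≤ 5 := by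
      by_contra hcon
      push Not at hcon
      exact h ((pow6 a1 a2).of_dvd hn (pow_dvd' hn a1 hcon))
    omega
  · obtain ⟨p, q, hpq, hF⟩ := Finset.card_eq_two.1 h2
    have hmem : p ∈ pf 11 n := by rw [hF]; simp
    have hmem' : q ∈ pf 11 n := by rw [hF]; simp
    obtain ⟨a1, a2, a3⟩ := mem_pf hn hmem
    obtain ⟨b1, b2, b3⟩ := mem_pf hn hmem'
    have e : om 11 n = n.factorization p + n.factorization q := by
      rw [om, hF, Finset.sum_pair hpq]
    have hcop : ∀ a b : ℕ, Nat.Coprime (p ^ a) (q ^ b) := fun a b =>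
      Nat.Coprime.pow _ _ ((Nat.coprime_primes a1 b1).2 hpq)
    have c1 : n.factorization p ≤ 2 := by
      by_contra hcon
      push Not at hcon
      apply h
      apply (cube_mul a1 a2 b1 b2 hpq).of_dvd hn
      have := (hcop 3 1).mul_dvd_of_dvd_of_dvd (pow_dvd' hn a1 hcon) (pow_dvd' hn b1 b3)
      rwa [pow_one] at this
    have c2 : n.factorization q ≤ 2 := by
      by_contra hcon
      push Not at hcon
      apply h
      apply (cube_mul b1 b2 a1 a2 hpq.symm).of_dvd hn
      have := (hcop 1 3).mul_dvd_of_dvd_of_dvd (pow_dvd' hn a1 a3) (pow_dvd' hn b1 hcon)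
      rw [pow_one] at this
      rwa [mul_comm]
    have c3 : ¬ (n.factorization p = 2 ∧ n.factorization q = 2) := by
      rintro ⟨d1, d2⟩
      apply h
      apply (sq_sq a1 a2 b1 b2 hpq).of_dvd hn
      exact (hcop 2 2).mul_dvd_of_dvd_of_dvd (pow_dvd' hn a1 d1.ge) (pow_dvd' hn b1 d2.ge)
    omega

theorem card_le {n : ℕ} (hn : 0 < n) (h : ¬ InS n) : #n.primeFactors ≤ 5 := by
  have h1 := card_odd hn h
  have h2 : #n.primeFactors ≤ #(n.primeFactors.erase 2) + 1 := by
    have := Finset.pred_card_le_card_erase (s := n.primeFactors) (a := 2)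
    omega
  omega

theorem sum_union_le' (s t : Finset ℕ) (f : ℕ → ℕ) :
    ∑ p ∈ s ∪ t, f p ≤ ∑ p ∈ s, f p + ∑ p ∈ t, f p := by
  rw [← Finset.sum_union_inter]
  exact Nat.le_add_right _ _

theorem length_le {n : ℕ} (hn : 0 < n) (h : ¬ InS n) : n.primeFactorsList.length ≤ 23 := by
  have e1 : n.primeFactorsList.length = ∑ p ∈ n.primeFactors, n.factorization p := by
    rw [← List.sum_toFinset_count_eq_length]
    apply Finset.sum_congr rfl
    intro p _
    rw [Nat.primeFactorsList_count_eq]
  have hsub : n.primeFactors ⊆ ({2} ∪ pf 5 n) ∪ pf 11 n := by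
    intro p hp
    rcases prime_cases hn h hp with h1 | h1 | h1
    · simp [h1]
    · simp only [Finset.mem_union]
      left; right
      rw [pf, Finset.mem_filter]
      exact ⟨hp, h1⟩
    · simp only [Finset.mem_union]
      right
      rw [pf, Finset.mem_filter]
      exact ⟨hp, h1⟩
  have e2 : ∑ p ∈ n.primeFactors, n.factorization p ≤
      n.factorization 2 + om 5 n + om 11 n := by
    calc ∑ p ∈ n.primeFactors, n.factorization p
        ≤ ∑ p ∈ ({2} ∪ pf 5 n) ∪ pf 11 n, n.factorization p :=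
          Finset.sum_le_sum_of_subset hsub
      _ ≤ ∑ p ∈ ({2} ∪ pf 5 n), n.factorization p + ∑ p ∈ pf 11 n, n.factorization p := by
          exact sum_union_le' _ _ _
      _ ≤ (∑ p ∈ ({2} : Finset ℕ), n.factorization p + ∑ p ∈ pf 5 n, n.factorization p) +
          ∑ p ∈ pf 11 n, n.factorization p := by
          gcongr
          exact sum_union_le' _ _ _
      _ = _ := by rw [Finset.sum_singleton]; rfl
  have h1 := two_le hn h
  have h2 := om5 hn h
  have h3 := (om11 hn h).1
  omega

end Pool.Agent.Work.MP_43ce8a_nt
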