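import Mathlib
import Pool.Agent.Work.MP_43ce8a_nt.Known

set_option autoImplicit false

/-!
# Forms `a u^2 + (a c)^2 u v + c v^2`: every represented number is in `S`
-/

namespace Pool.Agent.Work.MP_43ce8a_nt.NC

open Finset Pool.Agent.Work.MP_43ce8a_nt

/-! ## the complete forms -/

theorem neg_case {n : ℕ} {a b c b1 b2 m : ℤ} (ha : 0 < a) (hb : 0 < b) (hc : 0 < c)
    (hb1 : b = a * b1) (hb2 : b = c * b2) (hm : a * b * c = m ^ 3) (hn0 : 0 < n)
    (hna : (n : ℤ) ≠ a) (hnc : (n : ℤ) ≠ c) : ∀ (N : ℕ) (u w : ℤ), 0 < u → 0 < w →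
      (u + w).toNat ≤ N → IsCoprime u w →
      (n : ℤ) = a * u ^ 2 - b * (u * w) + c * w ^ 2 → InS n := by
  intro N
  induction N with
  | zero =>
    intro u w hu hw hN
    omega
  | succ N ih =>
    intro u w hu hw hN hco hn
    have hn0' : (0 : ℤ) < n := by exact_mod_cast hn0
    by_cases h1 : b1 * w < 2 * u
    · -- reflect `u`
      have hn' : (n : ℤ) = a * (b1 * w - u) ^ 2 - b * ((b1 * w - u) * w) +
          c * w ^ 2 := by rw [hn, hb1]; ring
      have hco' : IsCoprime (b1 * w - u) w := by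
        have := hco.neg_left.add_mul_right_left b1
        have e : -u + b1 * w = b1 * w - u := by ring
        rwa [e] at this
      rcases lt_trichotomy (b1 * w - u) 0 with h2 | h2 | h2
      · refine inS_of_int (a := a) (b := b) (c := c) (m := m)
          (X := u - b1 * w) (Y := w) ha hb hc (by linarith) hw hm ?_
        rw [hn']; ring
      · exfalso
        rw [h2] at hco' hn'
        have hw1 : w = 1 := by
          have h3 := isCoprime_zero_left.1 hco'
          rcases Int.isUnit_iff.1 h3 with h4 | h4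
          · exact h4
          · omega
        rw [hw1] at hn'
        apply hnc
        rw [hn']; ring
      · exact ih _ w h2 hw (by omega) hco' hn'
    by_cases h3 : b2 * u < 2 * w
    · have hn' : (n : ℤ) = a * u ^ 2 - b * (u * (b2 * u - w)) +
          c * (b2 * u - w) ^ 2 := by rw [hn, hb2]; ring
      have hco' : IsCoprime u (b2 * u - w) := by
        have := hco.neg_right.add_mul_right_right b2
        have e : -w + b2 * u = b2 * u - w := by ring
        rwa [e] at this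
      rcases lt_trichotomy (b2 * u - w) 0 with h2 | h2 | h2
      · refine inS_of_int (a := a) (b := b) (c := c) (m := m)
          (X := u) (Y := w - b2 * u) ha hb hc hu (by linarith) hm ?_
        rw [hn']; ring
      · exfalso
        rw [h2] at hco' hn'
        have hu1 : u = 1 := by
          have h3 := isCoprime_zero_right.1 hco'
          rcases Int.isUnit_iff.1 h3 with h4 | h4
          · exact h4
          · omega
        rw [hu1] at hn'
        apply hna
        rw [hn']; ring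
      · exact ih u _ hu h2 (by omega) hco' hn'
    exfalso
    push Not at h1 h3
    have h4 : 0 ≤ a * u * (b1 * w - 2 * u) := by
      have : 0 ≤ b1 * w - 2 * u := by linarith
      positivity
    have h5 : 0 ≤ c * w * (b2 * u - 2 * w) := by
      have : 0 ≤ b2 * u - 2 * w := by linarith
      positivity
    have h6 : a * u * (b1 * w - 2 * u) = b * (u * w) - 2 * (a * u ^ 2) := by rw [hb1]; ring
    have h7 : c * w * (b2 * u - 2 * w) = b * (u * w) - 2 * (c * w ^ 2) := by rw [hb2]; ring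
    linarith

/-- Let `a, b, c > 0`, `a b c` a cube, `a` and `c` divisors of `b`. Every positive integer `n`,
different from `a` and `c`, which is properly represented over the integers by the form
`a u^2 + b u v + c v^2` is in `S`. -/
theorem complete' {n : ℕ} {a b c m u v : ℤ} (ha : 0 < a) (hb : 0 < b) (hc : 0 < c)
    (hab : a ∣ b) (hcb : c ∣ b) (hm : a * b * c = m ^ 3) (hn0 : 0 < n)
    (hna : (n : ℤ) ≠ a) (hnc : (n : ℤ) ≠ c) (hco : IsCoprime u v)
    (hn : (n : ℤ) = a * u ^ 2 + b * (u * v) + c * v ^ 2) : InS n := by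
  obtain ⟨b1, hb1⟩ := hab
  obtain ⟨b2, hb2⟩ := hcb
  rcases lt_trichotomy u 0 with hu | hu | hu
  · rcases lt_trichotomy v 0 with hv | hv | hv
    · refine inS_of_int (a := a) (b := b) (c := c) (m := m)
          (X := -u) (Y := -v) ha hb hc (by linarith) (by linarith) hm ?_
      rw [hn]; ring
    · exfalso
      rw [hv] at hco hn
      have h3 := isCoprime_zero_right.1 hco
      rcases Int.isUnit_iff.1 h3 with h4 | h4
      · omega
      · rw [h4] at hn
        apply hna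
        rw [hn]; ring
    · refine neg_case ha hb hc hb1 hb2 hm hn0 hna hnc (-u + v).toNat (-u) v (by linarith) hv le_rfl
        hco.neg_left ?_
      rw [hn]; ring
  · exfalso
    rw [hu] at hco hn
    have h3 := isCoprime_zero_left.1 hco
    apply hnc
    rcases Int.isUnit_iff.1 h3 with h4 | h4
    · rw [hn, h4]; ring
    · rw [hn, h4]; ring
  · rcases lt_trichotomy v 0 with hv | hv | hv
    · refine neg_case ha hb hc hb1 hb2 hm hn0 hna hnc (u + -v).toNat u (-v) hu (by linarith) le_rfl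
        hco.neg_right ?_
      rw [hn]; ring
    · exfalso
      rw [hv] at hco hn
      have h3 := isCoprime_zero_right.1 hco
      rcases Int.isUnit_iff.1 h3 with h4 | h4
      · rw [h4] at hn
        apply hna
        rw [hn]; ring
      · omega
    · refine inS_of_int (a := a) (b := b) (c := c) (m := m)
          (X := u) (Y := v) ha hb hc hu hv hm ?_
      rw [hn]; ring

/-- the forms `a u^2 + (a c)^2 u v + c v^2` -/
theorem complete {n : ℕ} {a c u v : ℤ} (ha : 0 < a) (hc : 0 < c) (hn0 : 0 < n)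
    (hna : (n : ℤ) ≠ a) (hnc : (n : ℤ) ≠ c) (hco : IsCoprime u v)
    (hn : (n : ℤ) = a * u ^ 2 + (a * c) ^ 2 * (u * v) + c * v ^ 2) : InS n :=
  complete' (m := a * c) ha (by positivity) hc ⟨a * c ^ 2, by ring⟩ ⟨a ^ 2 * c, by ring⟩ (by ring)
    hn0 hna hnc hco hn

/-- a representation of a squarefree number is proper -/
theorem coprime_of_squarefree {n : ℕ} (hn : Squarefree n) {u v a b c : ℤ}
    (h : (n : ℤ) = a * u ^ 2 + b * (u * v) + c * v ^ 2) : IsCoprime u v := by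
  rw [Int.isCoprime_iff_gcd_eq_one]
  have h1 : (Int.gcd u v : ℤ) ∣ u := Int.gcd_dvd_left u v
  have h2 : (Int.gcd u v : ℤ) ∣ v := Int.gcd_dvd_right u v
  have h3 : ((Int.gcd u v * Int.gcd u v : ℕ) : ℤ) ∣ (n : ℤ) := by
    rw [h]
    push_cast
    obtain ⟨s, hs⟩ := h1
    obtain ⟨t, ht⟩ := h2
    refine ⟨a * s ^ 2 + b * (s * t) + c * t ^ 2, ?_⟩
    calc a * u ^ 2 + b * (u * v) + c * v ^ 2
        = a * ((Int.gcd u v : ℤ) * s) ^ 2 + b * (((Int.gcd u v : ℤ) * s) *
          ((Int.gcd u v : ℤ) * t)) + c * ((Int.gcd u v : ℤ) * t) ^ 2 := by rw [← hs, ← ht]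
      _ = _ := by ring
  have h4 : Int.gcd u v * Int.gcd u v ∣ n := by exact_mod_cast h3
  exact Nat.isUnit_iff.1 (hn _ h4)

/-! ## small solutions with a weight -/

theorem wthue (p : ℕ) (hp : p.Prime) (t : ℕ) (ht : 0 < t) (m : ℤ) :
    ∃ x y : ℤ, (x, y) ≠ (0, 0) ∧ x ^ 2 ≤ t * p ∧ t * y ^ 2 ≤ p ∧ (p : ℤ) ∣ x - m * y := by
  have : Fact p.Prime := ⟨hp⟩
  set s := Nat.sqrt (t * p) with hs
  set r := Nat.sqrt (p / t) with hr
  have hs1 : s * s ≤ t * p := Nat.sqrt_le _
  have hs2 : t * p < (s + 1) * (s + 1) := Nat.lt_succ_sqrt _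
  have hr1 : r * r ≤ p / t := Nat.sqrt_le _
  have hr2 : p / t < (r + 1) * (r + 1) := Nat.lt_succ_sqrt _
  have hr3 : t * (r * r) ≤ p := by
    calc t * (r * r) ≤ t * (p / t) := Nat.mul_le_mul_left _ hr1
      _ ≤ p := Nat.mul_div_le _ _
  have hr4 : p < t * ((r + 1) * (r + 1)) := by
    have := (Nat.div_lt_iff_lt_mul ht).1 hr2
    rwa [mul_comm] at this
  have hcard0 : p < (s + 1) * (r + 1) := by
    by_contra hcon
    push Not at hcon
    have h1 : ((s + 1) * (r + 1)) * ((s + 1) * (r + 1)) ≤ p * p := Nat.mul_le_mul hcon hcon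
    have h2 : (t * p + 1) * (p + 1) ≤ ((s + 1) * (s + 1)) * (t * ((r + 1) * (r + 1))) :=
      Nat.mul_le_mul hs2 hr4
    have h3 : ((s + 1) * (s + 1)) * (t * ((r + 1) * (r + 1))) =
        t * (((s + 1) * (r + 1)) * ((s + 1) * (r + 1))) := by ring
    have h4 : t * (((s + 1) * (r + 1)) * ((s + 1) * (r + 1))) ≤ t * (p * p) :=
      Nat.mul_le_mul_left _ h1
    nlinarith
  have hcard : #(univ : Finset (ZMod p)) < #(range (s + 1) ×ˢ range (r + 1)) := by
    rw [Finset.card_product, Finset.card_range, Finset.card_range, Finset.card_univ, ZMod.card]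
    exact hcard0
  obtain ⟨⟨u, v⟩, hx, ⟨u', v'⟩, hy, hne, heq⟩ :=
    Finset.exists_ne_map_eq_of_card_lt_of_maps_to hcard
      (f := fun x : ℕ × ℕ => (x.1 : ZMod p) - (m : ZMod p) * x.2) (fun _ _ => Finset.mem_univ _)
  simp only [Finset.mem_product, Finset.mem_range] at hx hy
  simp only at heq
  have bound : ∀ q a b : ℕ, a < q + 1 → b < q + 1 → ((a : ℤ) - b) ^ 2 ≤ q * q := by
    intro q a b ha hb
    have h1 : |(a : ℤ) - b| ≤ q := by
      rw [abs_le]
      constructor <;> omega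
    calc ((a : ℤ) - b) ^ 2 = |(a : ℤ) - b| ^ 2 := (sq_abs _).symm
      _ ≤ (q : ℤ) ^ 2 := by gcongr
      _ = q * q := sq _
  refine ⟨(u : ℤ) - u', (v : ℤ) - v', ?_, ?_, ?_, ?_⟩
  · intro h
    simp only [Prod.mk.injEq] at h
    apply hne
    rw [Prod.mk.injEq]
    constructor <;> omega
  · exact (bound s _ _ hx.1 hy.1).trans (by exact_mod_cast hs1)
  · have h1 := bound r _ _ hx.2 hy.2
    have h2 : ((t * (r * r) : ℕ) : ℤ) ≤ p := by exact_mod_cast hr3
    push_cast at h2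
    have h3 : (t : ℤ) * ((v : ℤ) - v') ^ 2 ≤ t * (r * r) := by gcongr
    linarith
  · rw [← ZMod.intCast_zmod_eq_zero_iff_dvd]
    push_cast
    linear_combination heq

theorem wsmall (p : ℕ) (hp : p.Prime) (t : ℕ) (ht : 0 < t) (D : ℤ) (hD : IsSquare (D : ZMod p)) :
    ∃ x y k : ℤ, (x ≠ 0 ∨ y ≠ 0) ∧ x ^ 2 ≤ t * p ∧ t * y ^ 2 ≤ p ∧
      x ^ 2 - D * y ^ 2 = k * p := by
  have : Fact p.Prime := ⟨hp⟩
  obtain ⟨r, hr⟩ := hD
  obtain ⟨x, y, h0, hx, hy, hxy⟩ := wthue p hp t ht (r.val : ℤ)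
  have h1 : (p : ℤ) ∣ x ^ 2 - D * y ^ 2 := by
    rw [← ZMod.intCast_zmod_eq_zero_iff_dvd] at hxy ⊢
    push_cast at hxy ⊢
    rw [ZMod.natCast_zmod_val] at hxy
    rw [hr]
    linear_combination ((x : ZMod p) + r * y) * hxy
  obtain ⟨k, hk⟩ := h1
  refine ⟨x, y, k, ?_, hx, hy, by rw [hk, mul_comm]⟩
  by_contra hcon
  push Not at hcon
  exact h0 (by rw [hcon.1, hcon.2])

/-- `k` is between `-D/t` and `t` -/
theorem bounds {p : ℕ} (hp : p.Prime) {t D B : ℕ} (ht : 0 < t) (hB : D < t * (B + 1))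
    {x y k : ℤ} (hx : x ^ 2 ≤ t * p) (hy : t * y ^ 2 ≤ p) (h : x ^ 2 - D * y ^ 2 = k * p) :
    -(B : ℤ) ≤ k ∧ k ≤ t := by
  have hp0 : (0 : ℤ) < p := by exact_mod_cast hp.pos
  have ht0 : (0 : ℤ) < t := by exact_mod_cast ht
  have hB' : (D : ℤ) < t * (B + 1) := by exact_mod_cast hB
  constructor
  · by_contra hcon
    have h1 : k ≤ -(B : ℤ) - 1 := by omega
    have h2 : (t : ℤ) * (k * p) ≤ t * ((-(B : ℤ) - 1) * p) := by gcongr
    have h3 : (D : ℤ) * (t * y ^ 2) ≤ D * p := by gcongr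
    have h4 : (D : ℤ) * p < t * (B + 1) * p := by gcongr
    have h5 : 0 ≤ (t : ℤ) * x ^ 2 := by positivity
    have h6 : (t : ℤ) * (x ^ 2 - D * y ^ 2) = t * (k * p) := by rw [h]
    nlinarith
  · by_contra hcon
    have h1 : (t : ℤ) + 1 ≤ k := by omega
    have h2 : ((t : ℤ) + 1) * p ≤ k * p := by gcongr
    have h5 : 0 ≤ (D : ℤ) * y ^ 2 := by positivity
    nlinarith

theorem nonsq_rel {D x y : ℤ} (h : x ^ 2 = D * y ^ 2) (hne : x ≠ 0 ∨ y ≠ 0)
    (hD : ∀ t : ℤ, t ^ 2 ≠ D) : False := by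
  by_cases hy : y = 0
  · rw [hy] at h
    have : x = 0 := by nlinarith
    rcases hne with h1 | h1
    · exact h1 this
    · exact h1 hy
  · have h1 : y ^ 2 ∣ x ^ 2 := ⟨D, by rw [h]; ring⟩
    obtain ⟨t, ht⟩ := (Int.pow_dvd_pow_iff two_ne_zero).1 h1
    rw [ht] at h
    apply hD t
    have h2 : y ^ 2 ≠ 0 := pow_ne_zero 2 hy
    have h3 : y ^ 2 * (t ^ 2 - D) = 0 := by linarith [h, mul_pow y t 2]
    rcases mul_eq_zero.1 h3 with h4 | h4
    · exact absurd h4 h2
    · linarith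

theorem not_sq_between {D : ℤ} (s : ℤ) (hs : 0 ≤ s) (h1 : s ^ 2 < D) (h2 : D < (s + 1) ^ 2)
    (t : ℤ) : t ^ 2 ≠ D := by
  intro h
  have h3 : s < |t| := by
    by_contra hc
    push Not at hc
    have : |t| ^ 2 ≤ s ^ 2 := by gcongr
    rw [sq_abs] at this
    linarith
  have h4 : |t| < s + 1 := by
    by_contra hc
    push Not at hc
    have : (s + 1) ^ 2 ≤ |t| ^ 2 := by gcongr
    rw [sq_abs] at this
    linarith
  omega

/-- if `x^2 - D y^2 = k p` with `q ∣ D` and `k` a nonzero square modulo `q`, then `p` is a square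
modulo `q` -/
theorem sq_of_rel {q : ℕ} [Fact q.Prime] {D x y k : ℤ} {p : ℕ} (hD : ((D : ℤ) : ZMod q) = 0)
    (h : x ^ 2 - D * y ^ 2 = k * p) (hk : IsSquare ((k : ℤ) : ZMod q))
    (hk0 : ((k : ℤ) : ZMod q) ≠ 0) : IsSquare (p : ZMod q) := by
  obtain ⟨s, hs⟩ := hk
  have hs0 : s ≠ 0 := by
    rintro rfl
    exact hk0 (by rw [hs]; ring)
  have h1 := congrArg (fun z : ℤ => (z : ZMod q)) h
  push_cast at h1
  rw [hD, hs] at h1
  refine ⟨(x : ZMod q) / s, ?_⟩
  field_simp
  linear_combination -h1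

/-- if `x^2 - D y^2 = k p` with `q ∣ D` and `k` a non-square modulo `q`, `p` a square and nonzero:
contradiction -/
theorem nsq_of_rel {q : ℕ} [Fact q.Prime] {D x y k : ℤ} {p : ℕ} (hD : ((D : ℤ) : ZMod q) = 0)
    (h : x ^ 2 - D * y ^ 2 = k * p) (hp : IsSquare (p : ZMod q))
    (hp0 : (p : ZMod q) ≠ 0) : IsSquare ((k : ℤ) : ZMod q) := by
  obtain ⟨s, hs⟩ := hp
  have hs0 : s ≠ 0 := by
    rintro rfl
    exact hp0 (by rw [hs]; ring)
  have h1 := congrArg (fun z : ℤ => (z : ZMod q)) h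
  push_cast at h1
  rw [hD, hs] at h1
  refine ⟨(x : ZMod q) / s, ?_⟩
  field_simp
  linear_combination -h1

/-! ## the field of discriminant 1272 -/

theorem fact53 : Fact (Nat.Prime 53) := ⟨by norm_num⟩

theorem fact23 : Fact (Nat.Prime 23) := ⟨by norm_num⟩

attribute [local instance] fact53 fact23

theorem d318 : ((318 : ℤ) : ZMod 53) = 0 := by decide

theorem d69 : ((69 : ℤ) : ZMod 23) = 0 := by decide

theorem sq318a {p : ℕ} (hp : p.Prime) (h : p % 24 = 11) (h53 : ¬ IsSquare (p : ZMod 53)) :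
    IsSquare ((318 : ℤ) : ZMod p) := by
  have : Fact p.Prime := ⟨hp⟩
  have h2 : p ≠ 2 := by rintro rfl; omega
  have h4 : ¬ IsSquare ((2 : ℤ) : ZMod p) := by
    intro hh
    have h5 : IsSquare (2 : ZMod p) := by simpa using hh
    rw [ZMod.exists_sq_eq_two_iff h2] at h5
    omega
  have h5 : ¬ IsSquare ((53 : ℤ) : ZMod p) := by
    intro hh
    have h6 : IsSquare ((53 : ℕ) : ZMod p) := by exact_mod_cast hh
    exact h53 ((ZMod.exists_sq_eq_prime_iff_of_mod_four_eq_one (p := 53) (q := p) (by norm_num)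
      h2).2 h6)
  have h6 := (sq_mul_nonsq h4 h5).mul (three_sq hp h)
  have e : ((318 : ℤ) : ZMod p) = ((2 * 53 : ℤ) : ZMod p) * ((3 : ℤ) : ZMod p) := by
    push_cast; norm_num
  rw [e]; exact h6

theorem sq318b {p : ℕ} (hp : p.Prime) (h : p % 24 = 5) (h53 : IsSquare (p : ZMod 53)) :
    IsSquare ((318 : ℤ) : ZMod p) := by
  have : Fact p.Prime := ⟨hp⟩
  have h2 : p ≠ 2 := by rintro rfl; omega
  have h5 : IsSquare ((53 : ℕ) : ZMod p) :=
    (ZMod.exists_sq_eq_prime_iff_of_mod_four_eq_one (p := 53) (q := p) (by norm_num) h2).1 h53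
  have h6 := h5.mul (six_sq hp h)
  have e : ((318 : ℤ) : ZMod p) = ((53 : ℕ) : ZMod p) * ((6 : ℤ) : ZMod p) := by
    push_cast; norm_num
  rw [e]; exact h6

theorem three_to_two {x y P : ℤ} (h : x ^ 2 - 318 * y ^ 2 = 3 * P) :
    ∃ x y : ℤ, x ^ 2 - 318 * y ^ 2 = 2 * P := by
  obtain ⟨x', rfl⟩ := three_of_sq (x := x) (t := P + 106 * y ^ 2) (by linarith)
  exact ⟨18 * x' + 106 * y, x' + 6 * y, by linarith⟩

theorem halve {x y P : ℤ} (h : x ^ 2 - 318 * y ^ 2 = 4 * P) :
    ∃ x y : ℤ, x ^ 2 - 318 * y ^ 2 = P := by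
  obtain ⟨x', rfl⟩ := even_of_sq (x := x) (t := 2 * P + 159 * y ^ 2) (by linarith)
  obtain ⟨y', rfl⟩ := even_of_sq (x := y) (t := x' ^ 2 - P - 79 * y ^ 2) (by linarith)
  exact ⟨x', y', by linarith⟩

theorem third {x y P : ℤ} (h : x ^ 2 - 318 * y ^ 2 = 9 * P) :
    ∃ x y : ℤ, x ^ 2 - 318 * y ^ 2 = P := by
  obtain ⟨x', rfl⟩ := three_of_sq (x := x) (t := 3 * P + 106 * y ^ 2) (by linarith)
  obtain ⟨y', rfl⟩ := three_of_sq (x := y) (t := x' ^ 2 - P - 35 * y ^ 2) (by linarith)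
  exact ⟨x', y', by linarith⟩

theorem ne_zero_mod {k q : ℤ} {Q : ℕ} (hQ : q = Q) (h1 : -q < k) (h2 : k < q) (h0 : k ≠ 0) :
    ((k : ℤ) : ZMod Q) ≠ 0 := by
  intro h
  rw [ZMod.intCast_zmod_eq_zero_iff_dvd, ← hQ] at h
  exact h0 (Int.eq_zero_of_abs_lt_dvd h (abs_lt.2 ⟨h1, h2⟩))

/-- primes `p = 11 mod 24`, non-residues modulo 53 -/
theorem rep318a {p : ℕ} (hp : p.Prime) (h : p % 24 = 11) (h53 : ¬ IsSquare (p : ZMod 53)) :
    ∃ x y : ℤ, x ^ 2 - 318 * y ^ 2 = 2 * p := by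
  obtain ⟨x, y, k, hne, hx, hy, hk⟩ := wsmall p hp 18 (by norm_num) 318 (sq318a hp h h53)
  have hb := bounds (D := 318) (B := 17) hp (t := 18) (by norm_num) (by norm_num) hx hy hk
  have h8 := emod8 x
  have h8' := emod8 y
  have h3 := emod3 x
  obtain ⟨hb1, hb2⟩ := hb
  push_cast at hb1 hb2
  by_cases hk0 : k = 0
  · exfalso
    rw [hk0] at hk
    exact nonsq_rel (D := 318) (by linarith) hne (not_sq_between 17 (by norm_num) (by norm_num)
      (by norm_num))
  have key : IsSquare ((k : ℤ) : ZMod 53) ∨ k = -12 ∨ k = 2 ∨ k = 3 ∨ k = 8 ∨ k = 12 ∨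
      k = 14 ∨ k = 18 ∨ k % 3 = 1 ∨ (k % 8 = 5 ∨ k % 8 = 7) := by
    clear hk
    interval_cases k <;> first | exact absurd rfl hk0 | decide
  rcases key with h1 | rfl | rfl | rfl | rfl | rfl | rfl | rfl | h1 | h1
  · exact absurd (sq_of_rel d318 hk h1 (ne_zero_mod rfl (by norm_num; omega) (by norm_num; omega)
      hk0)) h53
  · obtain ⟨x, y, hxy⟩ := halve (x := x) (y := y) (P := -3 * p) (by linarith)
    have h4 := emod8 x
    have h5 := emod8 y
    omega
  · exact ⟨x, y, hk⟩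
  · exact three_to_two hk
  · exact halve (x := x) (y := y) (by linarith)
  · obtain ⟨x, y, hxy⟩ := halve (x := x) (y := y) (P := 3 * p) (by linarith)
    exact three_to_two hxy
  · obtain ⟨x', rfl⟩ := even_of_sq (x := x) (t := 7 * p + 159 * y ^ 2) (by linarith)
    have h4 := emod8 x'
    have h5 : 2 * x' ^ 2 - 159 * y ^ 2 = 7 * p := by linarith
    omega
  · exact third (x := x) (y := y) (by linarith)
  · exfalso
    interval_cases k <;> omega
  · exfalso
    interval_cases k <;> omega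

/-- primes `p = 5 mod 24`, residues modulo 53 -/
theorem rep318b {p : ℕ} (hp : p.Prime) (h : p % 24 = 5) (hp53 : p ≠ 53)
    (h53 : IsSquare (p : ZMod 53)) : ∃ x y : ℤ, x ^ 2 - 318 * y ^ 2 = -p := by
  obtain ⟨x, y, k, hne, hx, hy, hk⟩ := wsmall p hp 18 (by norm_num) 318 (sq318b hp h h53)
  have hb := bounds (D := 318) (B := 17) hp (t := 18) (by norm_num) (by norm_num) hx hy hk
  have hp0 : (p : ZMod 53) ≠ 0 := by
    intro h0
    rw [ZMod.natCast_eq_zero_iff] at h0
    exact hp53 ((Nat.prime_dvd_prime_iff_eq (by norm_num) hp).1 h0).symm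
  have h8 := emod8 x
  have h8' := emod8 y
  have h3 := emod3 x
  obtain ⟨hb1, hb2⟩ := hb
  push_cast at hb1 hb2
  by_cases hk0 : k = 0
  · exfalso
    rw [hk0] at hk
    exact nonsq_rel (D := 318) (by linarith) hne (not_sq_between 17 (by norm_num) (by norm_num)
      (by norm_num))
  have key : ¬ IsSquare ((k : ℤ) : ZMod 53) ∨ k = -1 ∨ k = -4 ∨ k = -6 ∨ k = 6 ∨ k = -9 ∨ k = 9 ∨
      k = -10 ∨ k = 15 ∨ k = -16 ∨ k % 3 = 1 ∨ (k % 8 = 1 ∨ k % 8 = 3) := by
    clear hk
    interval_cases k <;> first | exact absurd rfl hk0 | decide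
  rcases key with h1 | rfl | rfl | rfl | rfl | rfl | rfl | rfl | rfl | rfl | h1 | h1
  · exact absurd (nsq_of_rel d318 hk h53 hp0) h1
  · exact ⟨x, y, by linarith⟩
  · exact halve (x := x) (y := y) (by linarith)
  · obtain ⟨x1, rfl⟩ := three_of_sq (x := x) (t := -2 * p + 106 * y ^ 2) (by linarith)
    obtain ⟨x2, rfl⟩ := even_of_sq (x := x1) (t := 53 * y ^ 2 - p - x1 ^ 2) (by linarith)
    exact ⟨18 * x2 - 53 * y, 3 * y - x2, by linarith⟩
  · obtain ⟨x1, rfl⟩ := three_of_sq (x := x) (t := 2 * p + 106 * y ^ 2) (by linarith)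
    have h4 : 3 * x1 ^ 2 - 106 * y ^ 2 = 2 * p := by linarith
    have h5 := emod3 y
    omega
  · exact third (x := x) (y := y) (by linarith)
  · obtain ⟨x, y, hxy⟩ := third (x := x) (y := y) (P := p) (by linarith)
    have h4 := emod3 x
    omega
  · obtain ⟨x', rfl⟩ := even_of_sq (x := x) (t := -5 * p + 159 * y ^ 2) (by linarith)
    have h4 := emod8 x'
    have h5 : 2 * x' ^ 2 - 159 * y ^ 2 = -5 * p := by linarith
    omega
  · obtain ⟨x1, rfl⟩ := three_of_sq (x := x) (t := 5 * p + 106 * y ^ 2) (by linarith)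
    have h4 : 3 * x1 ^ 2 - 106 * y ^ 2 = 5 * p := by linarith
    have h5 := emod3 y
    omega
  · obtain ⟨x, y, hxy⟩ := halve (x := x) (y := y) (P := -4 * p) (by linarith)
    exact halve (x := x) (y := y) (by linarith)
  · exfalso
    interval_cases k <;> omega
  · exfalso
    interval_cases k <;> omega

/-- primes `p = 11 mod 24`, non-residues modulo 53, are in `S` -/
theorem inS_11_53 {p : ℕ} (hp : p.Prime) (h : p % 24 = 11) (h53 : ¬ IsSquare (p : ZMod 53)) :
    InS p := by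
  obtain ⟨x, y, hxy⟩ := rep318a hp h h53
  obtain ⟨x', rfl⟩ := even_of_sq (x := x) (t := 159 * y ^ 2 + p) (by linarith)
  have hn : (p : ℤ) = 2 * (x' - 9 * y) ^ 2 + (2 * 3) ^ 2 * ((x' - 9 * y) * y) + 3 * y ^ 2 := by
    linarith
  refine complete (a := 2) (c := 3) (by norm_num) (by norm_num) hp.pos ?_ ?_ ?_ hn
  · intro h2; have : p = 2 := by exact_mod_cast h2
    omega
  · intro h2; have : p = 3 := by exact_mod_cast h2
    omega
  · exact coprime_of_squarefree (a := 2) (b := (2 * 3) ^ 2) (c := 3)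
      (Nat.prime_iff.1 hp).squarefree hn

theorem inS_53 : InS 53 := ⟨3, 18, 32, 12, by norm_num, by norm_num, by norm_num, by norm_num,
  by norm_num⟩

theorem square_5_53 {p : ℕ} (hp : p.Prime) (h : p % 24 = 5) (hp53 : p ≠ 53)
    (h53 : IsSquare (p : ZMod 53)) : InS (p * p) := by
  obtain ⟨x, y, h1⟩ := rep318b hp h hp53 h53
  have hn : ((p * p : ℕ) : ℤ) = 1 * ((x ^ 2 + 318 * y ^ 2) - 18 * (2 * x * y)) ^ 2 +
      (1 * 6) ^ 2 * (((x ^ 2 + 318 * y ^ 2) - 18 * (2 * x * y)) * (2 * x * y)) +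
        6 * (2 * x * y) ^ 2 := by
    have h3 : ((p * p : ℕ) : ℤ) = (-(p : ℤ)) * (-(p : ℤ)) := by push_cast; ring
    rw [h3, ← h1]
    ring
  have hc1 : IsCoprime x y := by
    refine coprime_of_squarefree (a := -1) (b := 0) (c := 318) (Nat.prime_iff.1 hp).squarefree ?_
    linarith
  have hc2 : IsCoprime (318 : ℤ) p := by
    have : Nat.Coprime 318 p := by
      rw [Nat.coprime_comm, hp.coprime_iff_not_dvd]
      intro hd
      have hd' : p ∣ 2 * 3 * 53 := hd
      rcases hp.dvd_mul.1 hd' with h2 | h2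
      · rcases hp.dvd_mul.1 h2 with h3 | h3
        · have := (Nat.prime_dvd_prime_iff_eq hp Nat.prime_two).1 h3
          omega
        · have := (Nat.prime_dvd_prime_iff_eq hp Nat.prime_three).1 h3
          omega
      · exact hp53 ((Nat.prime_dvd_prime_iff_eq hp (by norm_num)).1 h2)
    exact_mod_cast Nat.isCoprime_iff_coprime.2 this
  have hc3 : IsCoprime (318 : ℤ) x := by
    have h2 : IsCoprime (318 : ℤ) (-(p : ℤ) + 318 * y ^ 2) := hc2.neg_right.add_mul_left_right _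
    have e : -(p : ℤ) + 318 * y ^ 2 = x ^ 2 := by linarith
    rw [e] at h2
    exact (IsCoprime.pow_right_iff (by norm_num)).1 h2
  have hc4 : IsCoprime (x ^ 2 + 318 * y ^ 2) 2 := by
    have h8 := emod8 x
    have h8' := emod8 y
    rw [Int.isCoprime_iff_gcd_eq_one, Int.gcd_comm, ← Int.isCoprime_iff_gcd_eq_one]
    have h2 : (x ^ 2 + 318 * y ^ 2) % 2 = 1 := by omega
    refine ⟨-((x ^ 2 + 318 * y ^ 2) / 2), 1, ?_⟩
    omega
  have hc5 : IsCoprime (x ^ 2 + 318 * y ^ 2) x := by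
    have h2 : IsCoprime (318 * y ^ 2) x := hc3.mul_left hc1.symm.pow_left
    have := h2.add_mul_right_left x
    have e : 318 * y ^ 2 + x * x = x ^ 2 + 318 * y ^ 2 := by ring
    rwa [e] at this
  have hc6 : IsCoprime (x ^ 2 + 318 * y ^ 2) y := by
    have h2 : IsCoprime (x ^ 2) y := hc1.pow_left
    have := h2.add_mul_right_left (318 * y)
    have e : x ^ 2 + 318 * y * y = x ^ 2 + 318 * y ^ 2 := by ring
    rwa [e] at this
  have hc7 : IsCoprime (x ^ 2 + 318 * y ^ 2) (2 * x * y) := (hc4.mul_right hc5).mul_right hc6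
  refine complete (a := 1) (c := 6) (by norm_num) (by norm_num) (Nat.mul_pos hp.pos hp.pos)
    ?_ ?_ ?_ hn
  · intro h2; have h3 : p * p = 1 := by exact_mod_cast h2
    have := Nat.eq_one_of_mul_eq_one_right h3
    omega
  · intro h2; have h3 : p * p = 6 := by exact_mod_cast h2
    have h4 : p < 3 := by nlinarith
    omega
  · have := hc7.add_mul_right_left (-18)
    have e : x ^ 2 + 318 * y ^ 2 + -18 * (2 * x * y) = x ^ 2 + 318 * y ^ 2 - 18 * (2 * x * y) := by
      ring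
    rwa [e] at this

/-- products of two primes `5 mod 24`, residues modulo 53, are in `S` -/
theorem inS_5_53 {p q : ℕ} (hp : p.Prime) (hq : q.Prime) (h : p % 24 = 5) (h' : q % 24 = 5)
    (h53 : IsSquare (p : ZMod 53)) (h53' : IsSquare (q : ZMod 53)) : InS (p * q) := by
  by_cases hp53 : p = 53
  · rw [hp53, mul_comm]
    exact inS_53.mul hq.pos
  by_cases hq53 : q = 53
  · rw [hq53]
    exact inS_53.mul hp.pos
  by_cases hpq : p = q
  · subst hpq
    exact square_5_53 hp h hp53 h53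
  obtain ⟨x1, y1, h1⟩ := rep318b hp h hp53 h53
  obtain ⟨x2, y2, h2⟩ := rep318b hq h' hq53 h53'
  have hn : ((p * q : ℕ) : ℤ) = 1 * ((x1 * x2 + 318 * y1 * y2) - 18 * (x1 * y2 + x2 * y1)) ^ 2 +
      (1 * 6) ^ 2 * (((x1 * x2 + 318 * y1 * y2) - 18 * (x1 * y2 + x2 * y1)) *
        (x1 * y2 + x2 * y1)) + 6 * (x1 * y2 + x2 * y1) ^ 2 := by
    have h3 : ((p * q : ℕ) : ℤ) = (-(p : ℤ)) * (-(q : ℤ)) := by push_cast; ring
    rw [h3, ← h1, ← h2]
    ring
  refine complete (a := 1) (c := 6) (by norm_num) (by norm_num) (Nat.mul_pos hp.pos hq.pos)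
    ?_ ?_ ?_ hn
  · intro h2; have h3 : p * q = 1 := by exact_mod_cast h2
    have := Nat.eq_one_of_mul_eq_one_right h3
    omega
  · intro h2; have h3 : p * q = 6 := by exact_mod_cast h2
    have h4 : p ≤ 6 := Nat.le_of_dvd (by norm_num) ⟨q, h3.symm⟩
    have h5 : p = 5 := by omega
    subst h5
    omega
  · exact coprime_of_squarefree (a := 1) (b := (1 * 6) ^ 2) (c := 6)
      ((Nat.squarefree_mul ((Nat.coprime_primes hp hq).2 hpq)).2
        ⟨(Nat.prime_iff.1 hp).squarefree, (Nat.prime_iff.1 hq).squarefree⟩) hn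

/-! ## the field of discriminant 69 -/

theorem sq69 {p : ℕ} (hp : p.Prime) (h : p % 3 = 2) (h23 : ¬ IsSquare (p : ZMod 23)) :
    p ≠ 2 ∧ p ≠ 23 ∧ IsSquare ((69 : ℤ) : ZMod p) := by
  have : Fact p.Prime := ⟨hp⟩
  have h2 : p ≠ 2 := by
    rintro rfl
    exact h23 ⟨5, by decide⟩
  have h3 : p ≠ 23 := by
    rintro rfl
    rw [ZMod.natCast_self] at h23
    exact h23 IsSquare.zero
  have h3' : p ≠ 3 := by rintro rfl; omega
  refine ⟨h2, h3, ?_⟩
  have e : ((69 : ℤ) : ZMod p) = ((3 * 23 : ℤ) : ZMod p) := by push_cast; norm_num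
  have hodd : p % 2 = 1 := by
    rcases hp.eq_two_or_odd with h4 | h4
    · exact absurd h4 h2
    · exact h4
  have h4 : p % 4 = 1 ∨ p % 4 = 3 := by omega
  rcases h4 with h4 | h4
  · rw [e]
    apply sq_mul_nonsq
    · intro hh
      have h5 : IsSquare ((3 : ℕ) : ZMod p) := by exact_mod_cast hh
      exact zmod3' h ((ZMod.exists_sq_eq_prime_iff_of_mod_four_eq_one h4 (by norm_num)).1 h5)
    · intro hh
      have h5 : IsSquare ((23 : ℕ) : ZMod p) := by exact_mod_cast hh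
      exact h23 ((ZMod.exists_sq_eq_prime_iff_of_mod_four_eq_one h4 (by norm_num)).1 h5)
  · have h5 : IsSquare ((3 : ℕ) : ZMod p) :=
      (ZMod.exists_sq_eq_prime_iff_of_mod_four_eq_three (p := p) (q := 3) h4 (by norm_num) h3').2
        (zmod3' h)
    have h6 : IsSquare ((23 : ℕ) : ZMod p) :=
      (ZMod.exists_sq_eq_prime_iff_of_mod_four_eq_three (p := p) (q := 23) h4 (by norm_num) h3).2
        h23
    have h7 := h5.mul h6
    have e2 : ((69 : ℤ) : ZMod p) = ((3 : ℕ) : ZMod p) * ((23 : ℕ) : ZMod p) := by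
      push_cast; norm_num
    rw [e2]
    exact h7

/-- primes `p = 2 mod 3`, non-residues modulo 23 -/
theorem rep69 {p : ℕ} (hp : p.Prime) (h : p % 3 = 2) (h23 : ¬ IsSquare (p : ZMod 23)) :
    ∃ a b : ℤ, a ^ 2 + a * b - 17 * b ^ 2 = -p := by
  obtain ⟨hp2, hp23, hsq⟩ := sq69 hp h h23
  obtain ⟨x, y, k, hne, hx, hy, hk⟩ := wsmall p hp 8 (by norm_num) 69 hsq
  have hb := bounds (D := 69) (B := 8) hp (t := 8) (by norm_num) (by norm_num) hx hy hk
  have hodd : p % 2 = 1 := by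
    rcases hp.eq_two_or_odd with h4 | h4
    · exact absurd h4 hp2
    · exact h4
  have h8 := emod8 x
  have h8' := emod8 y
  have h3 := emod3 x
  obtain ⟨hb1, hb2⟩ := hb
  push_cast at hb1 hb2
  by_cases hk0 : k = 0
  · exfalso
    rw [hk0] at hk
    exact nonsq_rel (D := 69) (by linarith) hne (not_sq_between 8 (by norm_num) (by norm_num)
      (by norm_num))
  have key : IsSquare ((k : ℤ) : ZMod 23) ∨ k = -4 ∨ k = -3 ∨ k = -1 ∨ k = 5 ∨ k % 3 = 1 ∨
      k % 4 = 2 := by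
    clear hk
    interval_cases k <;> first | exact absurd rfl hk0 | decide
  rcases key with h1 | rfl | rfl | rfl | rfl | h1 | h1
  · exact absurd (sq_of_rel d69 hk h1 (ne_zero_mod rfl (by norm_num; omega) (by norm_num; omega)
      hk0)) h23
  · obtain ⟨z, hz⟩ := even_of_sq (x := x - y) (t := 35 * y ^ 2 - 2 * p - x * y) (by linarith)
    have hx' : x = 2 * z + y := by linarith
    subst hx'
    exact ⟨z, y, by linarith⟩
  · obtain ⟨x', rfl⟩ := three_of_sq (x := x) (t := 23 * y ^ 2 - p) (by linarith)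
    exact ⟨5 * x' - 13 * y, 3 * y - x', by linarith⟩
  · exact ⟨x - y, 2 * y, by linarith⟩
  · have h5 : (5 : ℤ) ∣ (x - 2 * y) * (x + 2 * y) := ⟨p + 13 * y ^ 2, by linarith⟩
    rcases Int.Prime.dvd_mul' (by norm_num : Nat.Prime 5) h5 with h6 | h6
    · obtain ⟨t, ht⟩ := h6
      push_cast at ht
      have hx : x = 5 * t + 2 * y := by linarith
      subst hx
      exact ⟨4 * t - 6 * y, y - t, by linarith⟩
    · obtain ⟨t, ht⟩ := h6
      push_cast at ht
      have hx : x = 5 * t - 2 * y := by linarith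
      subst hx
      exact ⟨3 * t + 5 * y, y + t, by linarith⟩
  · exfalso
    interval_cases k <;> omega
  · exfalso
    interval_cases k <;> omega

theorem square_23 {p : ℕ} (hp : p.Prime) (h : p % 3 = 2) (h23 : ¬ IsSquare (p : ZMod 23)) :
    InS (p * p) := by
  obtain ⟨hp2, hp23, -⟩ := sq69 hp h h23
  obtain ⟨x, y, h1⟩ := rep69 hp h h23
  have hn : ((p * p : ℕ) : ℤ) = 1 * ((x ^ 2 + 17 * y ^ 2) - 4 * (y * (2 * x + y))) ^ 2 +
      (1 * 3) ^ 2 * (((x ^ 2 + 17 * y ^ 2) - 4 * (y * (2 * x + y))) * (y * (2 * x + y))) +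
        3 * (y * (2 * x + y)) ^ 2 := by
    have h3 : ((p * p : ℕ) : ℤ) = (-(p : ℤ)) * (-(p : ℤ)) := by push_cast; ring
    rw [h3, ← h1]
    ring
  have hc1 : IsCoprime x y := by
    refine coprime_of_squarefree (a := -1) (b := -1) (c := 17) (Nat.prime_iff.1 hp).squarefree ?_
    linarith
  have hc2 : IsCoprime (69 : ℤ) (4 * p) := by
    have h3 : Nat.Coprime 69 (4 * p) := by
      refine Nat.Coprime.mul_right (by norm_num) ?_
      rw [Nat.coprime_comm, hp.coprime_iff_not_dvd]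
      intro hd
      have hd' : p ∣ 3 * 23 := hd
      rcases hp.dvd_mul.1 hd' with h3 | h3
      · have := (Nat.prime_dvd_prime_iff_eq hp Nat.prime_three).1 h3
        omega
      · exact hp23 ((Nat.prime_dvd_prime_iff_eq hp (by norm_num)).1 h3)
    exact_mod_cast Nat.isCoprime_iff_coprime.2 h3
  have hc3 : IsCoprime (69 : ℤ) (2 * x + y) := by
    have h2 : IsCoprime (69 : ℤ) (-(4 * (p : ℤ)) + 69 * y ^ 2) :=
      hc2.neg_right.add_mul_left_right _
    have e : -(4 * (p : ℤ)) + 69 * y ^ 2 = (2 * x + y) ^ 2 := by linarith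
    rw [e] at h2
    exact (IsCoprime.pow_right_iff (by norm_num)).1 h2
  have hc4 : IsCoprime x (2 * x + y) := by
    have := hc1.add_mul_left_right 2
    have e : y + x * 2 = 2 * x + y := by ring
    rwa [e] at this
  have hc5 : IsCoprime (x ^ 2 + 17 * y ^ 2) (2 * x + y) := by
    have h2 : IsCoprime (69 * x ^ 2) (2 * x + y) := hc3.mul_left hc4.pow_left
    have := h2.add_mul_right_left (17 * ((2 * x + y) - 4 * x))
    have e : 69 * x ^ 2 + 17 * ((2 * x + y) - 4 * x) * (2 * x + y) = x ^ 2 + 17 * y ^ 2 := by ring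
    rwa [e] at this
  have hc6 : IsCoprime (x ^ 2 + 17 * y ^ 2) y := by
    have h2 : IsCoprime (x ^ 2) y := hc1.pow_left
    have := h2.add_mul_right_left (17 * y)
    have e : x ^ 2 + 17 * y * y = x ^ 2 + 17 * y ^ 2 := by ring
    rwa [e] at this
  have hc7 : IsCoprime (x ^ 2 + 17 * y ^ 2) (y * (2 * x + y)) := hc6.mul_right hc5
  refine complete (a := 1) (c := 3) (by norm_num) (by norm_num) (Nat.mul_pos hp.pos hp.pos)
    ?_ ?_ ?_ hn
  · intro h2; have h3 : p * p = 1 := by exact_mod_cast h2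
    have := Nat.eq_one_of_mul_eq_one_right h3
    omega
  · intro h2; have h3 : p * p = 3 := by exact_mod_cast h2
    have h4 : p < 2 := by nlinarith
    omega
  · have := hc7.add_mul_right_left (-4)
    have e : x ^ 2 + 17 * y ^ 2 + -4 * (y * (2 * x + y)) =
      x ^ 2 + 17 * y ^ 2 - 4 * (y * (2 * x + y)) := by ring
    rwa [e] at this

/-- products of two primes `2 mod 3`, non-residues modulo 23, are in `S` -/
theorem inS_23 {p q : ℕ} (hp : p.Prime) (hq : q.Prime) (h : p % 3 = 2) (h' : q % 3 = 2)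
    (h23 : ¬ IsSquare (p : ZMod 23)) (h23' : ¬ IsSquare (q : ZMod 23)) : InS (p * q) := by
  by_cases hpq : p = q
  · subst hpq
    exact square_23 hp h h23
  obtain ⟨hp2, hp23, -⟩ := sq69 hp h h23
  obtain ⟨a1, b1, h1⟩ := rep69 hp h h23
  obtain ⟨a2, b2, h2⟩ := rep69 hq h' h23'
  have hn : ((p * q : ℕ) : ℤ) = 1 * ((a1 * a2 + 17 * b1 * b2) -
      4 * (a1 * b2 + a2 * b1 + b1 * b2)) ^ 2 +
      (1 * 3) ^ 2 * (((a1 * a2 + 17 * b1 * b2) - 4 * (a1 * b2 + a2 * b1 + b1 * b2)) *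
        (a1 * b2 + a2 * b1 + b1 * b2)) + 3 * (a1 * b2 + a2 * b1 + b1 * b2) ^ 2 := by
    have h3 : ((p * q : ℕ) : ℤ) = (-(p : ℤ)) * (-(q : ℤ)) := by push_cast; ring
    rw [h3, ← h1, ← h2]
    ring
  refine complete (a := 1) (c := 3) (by norm_num) (by norm_num) (Nat.mul_pos hp.pos hq.pos)
    ?_ ?_ ?_ hn
  · intro h2; have h3 : p * q = 1 := by exact_mod_cast h2
    have := Nat.eq_one_of_mul_eq_one_right h3
    omega
  · intro h2; have h3 : p * q = 3 := by exact_mod_cast h2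
    have h4 : p ≤ 3 := Nat.le_of_dvd (by norm_num) ⟨q, h3.symm⟩
    have h5 : p = 1 ∨ p = 2 ∨ p = 3 := by have := hp.pos; omega
    rcases h5 with h5 | h5 | h5
    · exact hp.one_lt.ne' h5
    · exact hp2 h5
    · omega
  · exact coprime_of_squarefree (a := 1) (b := (1 * 3) ^ 2) (c := 3)
      ((Nat.squarefree_mul ((Nat.coprime_primes hp hq).2 hpq)).2
        ⟨(Nat.prime_iff.1 hp).squarefree, (Nat.prime_iff.1 hq).squarefree⟩) hn

/-! ## the fields of discriminant 5 (conductor 11) and 60 -/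

theorem fact5 : Fact (Nat.Prime 5) := ⟨by norm_num⟩

theorem fact11 : Fact (Nat.Prime 11) := ⟨by norm_num⟩

attribute [local instance] fact5 fact11

/-- unimodular substitutions preserve coprimality -/
theorem coprime_unimod {x y p q r s : ℤ} (h : IsCoprime x y) (hd : p * s - q * r = 1) :
    IsCoprime (p * x + q * y) (r * x + s * y) := by
  obtain ⟨u, v, huv⟩ := h
  refine ⟨u * s - v * r, v * p - u * q, ?_⟩
  calc (u * s - v * r) * (p * x + q * y) + (v * p - u * q) * (r * x + s * y)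
      = (p * s - q * r) * (u * x + v * y) := by ring
    _ = 1 := by rw [hd, huv]; ring

theorem sq5 {p : ℕ} (hp : p.Prime) (h : p % 5 = 1 ∨ p % 5 = 4) :
    p ≠ 2 ∧ p ≠ 5 ∧ IsSquare ((5 : ℤ) : ZMod p) := by
  have : Fact p.Prime := ⟨hp⟩
  have h2 : p ≠ 2 := by rintro rfl; omega
  refine ⟨h2, by rintro rfl; omega, ?_⟩
  have h5 : IsSquare (p : ZMod 5) := by
    rcases h with h | h
    · have : (p : ZMod 5) = 1 := by
        have := (ZMod.natCast_eq_natCast_iff p 1 5).2 h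
        simpa using this
      rw [this]; exact IsSquare.one
    · have : (p : ZMod 5) = 4 := by
        have := (ZMod.natCast_eq_natCast_iff p 4 5).2 h
        simpa using this
      rw [this]; exact ⟨2, by decide⟩
  have h6 : IsSquare ((5 : ℕ) : ZMod p) :=
    (ZMod.exists_sq_eq_prime_iff_of_mod_four_eq_one (p := 5) (q := p) (by norm_num) h2).1 h5
  exact_mod_cast h6

/-- primes `±1 mod 5` -/
theorem rep5 {p : ℕ} (hp : p.Prime) (h : p % 5 = 1 ∨ p % 5 = 4) :
    ∃ a b : ℤ, a ^ 2 + a * b - b ^ 2 = p := by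
  obtain ⟨hp2, hp5, hsq⟩ := sq5 hp h
  obtain ⟨x, y, k, hne, hx, hy, hk⟩ := wsmall p hp 2 (by norm_num) 5 hsq
  have hb := bounds (D := 5) (B := 2) hp (t := 2) (by norm_num) (by norm_num) hx hy hk
  have hodd : p % 2 = 1 := by
    rcases hp.eq_two_or_odd with h4 | h4
    · exact absurd h4 hp2
    · exact h4
  have h8 := emod8 x
  have h8' := emod8 y
  obtain ⟨hb1, hb2⟩ := hb
  push_cast at hb1 hb2
  have hc : k = 0 ∨ k = 1 ∨ k = -1 ∨ k = 2 ∨ k = -2 := by omega
  rcases hc with rfl | rfl | rfl | rfl | rfl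
  · exfalso
    exact nonsq_rel (D := 5) (by linarith) hne (not_sq_between 2 (by norm_num) (by norm_num)
      (by norm_num))
  · exact ⟨x - y, 2 * y, by linarith⟩
  · exact ⟨2 * y, x + y, by linarith⟩
  · omega
  · omega

/-- numbers `x^2 + x y - y^2`, with `x, y` coprime, nonzero squares modulo 11, are in `S` -/
theorem inS_five {n : ℕ} {x y : ℤ} (hn0 : 0 < n) (hn1 : n ≠ 1) (hn5 : n ≠ 5)
    (hn : (n : ℤ) = x ^ 2 + x * y - y ^ 2) (hco : IsCoprime x y)
    (h11 : IsSquare (n : ZMod 11)) (h0 : (n : ZMod 11) ≠ 0) : InS n := by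
  have key : ∀ a b : ZMod 11, IsSquare (a ^ 2 + a * b - b ^ 2) → a ^ 2 + a * b - b ^ 2 ≠ 0 →
      b = 0 ∨ a + 2 * b = 0 ∨ 3 * a + 5 * b = 0 ∨ 8 * a + 13 * b = 0 ∨ 21 * a + 34 * b = 0 := by
    decide
  have e : (n : ZMod 11) = (x : ZMod 11) ^ 2 + (x : ZMod 11) * (y : ZMod 11) -
      (y : ZMod 11) ^ 2 := by
    have := congrArg (fun z : ℤ => (z : ZMod 11)) hn
    push_cast at this
    exact this
  have main : ∃ x' y' : ℤ, (n : ℤ) = x' ^ 2 + x' * y' - y' ^ 2 ∧ IsCoprime x' y' ∧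
      (11 : ℤ) ∣ y' := by
    rw [e] at h11 h0
    rcases key _ _ h11 h0 with h | h | h | h | h
    · refine ⟨x, y, hn, hco, ?_⟩
      rw [show (11 : ℤ) = ((11 : ℕ) : ℤ) from rfl, ← ZMod.intCast_zmod_eq_zero_iff_dvd]
      exact h
    · refine ⟨1 * x + 1 * y, 1 * x + 2 * y, by rw [hn]; ring, coprime_unimod hco (by norm_num), ?_⟩
      rw [show (11 : ℤ) = ((11 : ℕ) : ℤ) from rfl, ← ZMod.intCast_zmod_eq_zero_iff_dvd]
      push_cast
      linear_combination h
    · refine ⟨2 * x + 3 * y, 3 * x + 5 * y, by rw [hn]; ring, coprime_unimod hco (by norm_num), ?_⟩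
      rw [show (11 : ℤ) = ((11 : ℕ) : ℤ) from rfl, ← ZMod.intCast_zmod_eq_zero_iff_dvd]
      push_cast
      exact h
    · refine ⟨5 * x + 8 * y, 8 * x + 13 * y, by rw [hn]; ring,
        coprime_unimod hco (by norm_num), ?_⟩
      rw [show (11 : ℤ) = ((11 : ℕ) : ℤ) from rfl, ← ZMod.intCast_zmod_eq_zero_iff_dvd]
      push_cast
      exact h
    · refine ⟨13 * x + 21 * y, 21 * x + 34 * y, by rw [hn]; ring,
        coprime_unimod hco (by norm_num), ?_⟩
      rw [show (11 : ℤ) = ((11 : ℕ) : ℤ) from rfl, ← ZMod.intCast_zmod_eq_zero_iff_dvd]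
      push_cast
      exact h
  obtain ⟨X, Y, hXY, hcXY, z, rfl⟩ := main
  have hn' : (n : ℤ) = 1 * (X - 7 * z) ^ 2 + (1 * 5) ^ 2 * ((X - 7 * z) * z) + 5 * z ^ 2 := by
    rw [hXY]; ring
  refine complete (a := 1) (c := 5) (by norm_num) (by norm_num) hn0 ?_ ?_ ?_ hn'
  · intro h2; exact hn1 (by exact_mod_cast h2)
  · intro h2; exact hn5 (by exact_mod_cast h2)
  · have h3 : IsCoprime X z := hcXY.of_mul_right_right
    have := h3.add_mul_right_left (-7)
    have e : X + -7 * z = X - 7 * z := by ring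
    rwa [e] at this

theorem prime_ne_zero_mod {p q : ℕ} (hp : p.Prime) (hq : q.Prime) (h : p ≠ q) :
    (p : ZMod q) ≠ 0 := by
  intro h0
  rw [ZMod.natCast_eq_zero_iff] at h0
  exact h ((Nat.prime_dvd_prime_iff_eq hq hp).1 h0).symm

/-- primes `±1 mod 5` which are squares modulo 11 are in `S` -/
theorem inS_5_11 {p : ℕ} (hp : p.Prime) (h : p % 5 = 1 ∨ p % 5 = 4) (hp11 : p ≠ 11)
    (h11 : IsSquare (p : ZMod 11)) : InS p := by
  obtain ⟨a, b, hab⟩ := rep5 hp h
  refine inS_five (x := a) (y := b) hp.pos hp.one_lt.ne' (sq5 hp h).2.1 hab.symm ?_ h11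
    (prime_ne_zero_mod hp (by norm_num) hp11)
  refine coprime_of_squarefree (a := 1) (b := 1) (c := -1) (Nat.prime_iff.1 hp).squarefree ?_
  linarith

theorem nonsq_nat {q a b : ℕ} [Fact q.Prime] (ha : ¬ IsSquare (a : ZMod q))
    (hb : ¬ IsSquare (b : ZMod q)) : IsSquare ((a * b : ℕ) : ZMod q) := by
  have h1 : ¬ IsSquare ((a : ℤ) : ZMod q) := by simpa using ha
  have h2 : ¬ IsSquare ((b : ℤ) : ZMod q) := by simpa using hb
  have := sq_mul_nonsq h1 h2
  simpa using this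

theorem square_5 {p : ℕ} (hp : p.Prime) (h : p % 5 = 1 ∨ p % 5 = 4) (hp11 : p ≠ 11)
    (h11 : ¬ IsSquare (p : ZMod 11)) : InS (p * p) := by
  obtain ⟨hp2, hp5, -⟩ := sq5 hp h
  obtain ⟨x, y, h1⟩ := rep5 hp h
  have hc1 : IsCoprime x y := by
    refine coprime_of_squarefree (a := 1) (b := 1) (c := -1) (Nat.prime_iff.1 hp).squarefree ?_
    linarith
  have hc2 : IsCoprime (5 : ℤ) (4 * p) := by
    have h3 : Nat.Coprime 5 (4 * p) := by
      refine Nat.Coprime.mul_right (by norm_num) ?_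
      exact (Nat.coprime_primes (by norm_num) hp).2 (Ne.symm hp5)
    exact_mod_cast Nat.isCoprime_iff_coprime.2 h3
  have hc3 : IsCoprime (5 : ℤ) (2 * x + y) := by
    have h2 : IsCoprime (5 : ℤ) (4 * (p : ℤ) + 5 * y ^ 2) :=
      hc2.add_mul_left_right _
    have e : 4 * (p : ℤ) + 5 * y ^ 2 = (2 * x + y) ^ 2 := by linarith
    rw [e] at h2
    exact (IsCoprime.pow_right_iff (by norm_num)).1 h2
  have hc4 : IsCoprime x (2 * x + y) := by
    have := hc1.add_mul_left_right 2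
    have e : y + x * 2 = 2 * x + y := by ring
    rwa [e] at this
  have hc5 : IsCoprime (x ^ 2 + y ^ 2) (2 * x + y) := by
    have h2 : IsCoprime (5 * x ^ 2) (2 * x + y) := hc3.mul_left hc4.pow_left
    have := h2.add_mul_right_left ((2 * x + y) - 4 * x)
    have e : 5 * x ^ 2 + ((2 * x + y) - 4 * x) * (2 * x + y) = x ^ 2 + y ^ 2 := by ring
    rwa [e] at this
  have hc6 : IsCoprime (x ^ 2 + y ^ 2) y := by
    have h2 : IsCoprime (x ^ 2) y := hc1.pow_left
    have := h2.add_mul_right_left y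
    have e : x ^ 2 + y * y = x ^ 2 + y ^ 2 := by ring
    rwa [e] at this
  have hc7 : IsCoprime (x ^ 2 + y ^ 2) (y * (2 * x + y)) := hc6.mul_right hc5
  have h0 := prime_ne_zero_mod hp (q := 11) (by norm_num) hp11
  refine inS_five (x := x ^ 2 + y ^ 2) (y := y * (2 * x + y)) (Nat.mul_pos hp.pos hp.pos) ?_ ?_ ?_
    hc7 (nonsq_nat h11 h11) ?_
  · intro h3
    have := Nat.eq_one_of_mul_eq_one_right h3
    exact hp.one_lt.ne' this
  · intro h3
    have h4 : p < 3 := by nlinarith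
    have := hp.two_le
    have h5 : p = 2 := by omega
    exact hp2 h5
  · have h3 : ((p * p : ℕ) : ℤ) = (p : ℤ) * (p : ℤ) := by push_cast; ring
    rw [h3, ← h1]
    ring
  · push_cast
    exact mul_ne_zero h0 h0

/-- products of two primes `±1 mod 5`, different from 11, are in `S` -/
theorem inS_pair5 {p q : ℕ} (hp : p.Prime) (hq : q.Prime) (h : p % 5 = 1 ∨ p % 5 = 4)
    (h' : q % 5 = 1 ∨ q % 5 = 4) (hp11 : p ≠ 11) (hq11 : q ≠ 11) : InS (p * q) := by
  by_cases h1 : IsSquare (p : ZMod 11)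
  · rw [mul_comm]
    exact (inS_5_11 hp h hp11 h1).mul hq.pos
  by_cases h2 : IsSquare (q : ZMod 11)
  · exact (inS_5_11 hq h' hq11 h2).mul hp.pos
  by_cases hpq : p = q
  · subst hpq
    exact square_5 hp h hp11 h1
  obtain ⟨a1, b1, h3⟩ := rep5 hp h
  obtain ⟨a2, b2, h4⟩ := rep5 hq h'
  have hn : ((p * q : ℕ) : ℤ) = (a1 * a2 + b1 * b2) ^ 2 +
      (a1 * a2 + b1 * b2) * (a1 * b2 + a2 * b1 + b1 * b2) -
        (a1 * b2 + a2 * b1 + b1 * b2) ^ 2 := by
    have h3 : ((p * q : ℕ) : ℤ) = (p : ℤ) * (q : ℤ) := by push_cast; ring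
    rw [h3, ← h3, h3, ← h4]
    rw [show (p : ℤ) = a1 ^ 2 + a1 * b1 - b1 ^ 2 by linarith]
    ring
  have hsf : Squarefree (p * q) := (Nat.squarefree_mul ((Nat.coprime_primes hp hq).2 hpq)).2
      ⟨(Nat.prime_iff.1 hp).squarefree, (Nat.prime_iff.1 hq).squarefree⟩
  refine inS_five (Nat.mul_pos hp.pos hq.pos) ?_ ?_ hn ?_ (nonsq_nat h1 h2) ?_
  · intro h3
    have := Nat.eq_one_of_mul_eq_one_right h3
    exact hp.one_lt.ne' this
  · intro h3
    have h4 : p ∣ 5 := ⟨q, h3.symm⟩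
    have h5 := (Nat.prime_dvd_prime_iff_eq hp (by norm_num)).1 h4
    exact (sq5 hp h).2.1 h5
  · refine coprime_of_squarefree (a := 1) (b := 1) (c := -1) hsf ?_
    rw [hn]; ring
  · push_cast
    exact mul_ne_zero (prime_ne_zero_mod hp (by norm_num) hp11)
      (prime_ne_zero_mod hq (by norm_num) hq11)

theorem nonsq5 {p : ℕ} (h : p % 5 = 2 ∨ p % 5 = 3) : ¬ IsSquare (p : ZMod 5) := by
  rcases h with h | h
  · have : (p : ZMod 5) = 2 := by
      have := (ZMod.natCast_eq_natCast_iff p 2 5).2 h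
      simpa using this
    rw [this]
    rintro ⟨r, hr⟩
    revert r
    decide
  · have : (p : ZMod 5) = 3 := by
      have := (ZMod.natCast_eq_natCast_iff p 3 5).2 h
      simpa using this
    rw [this]
    rintro ⟨r, hr⟩
    revert r
    decide

/-- primes `5 mod 12`, `±2 mod 5` -/
theorem rep15 {p : ℕ} (hp : p.Prime) (h12 : p % 12 = 5) (h : p % 5 = 2 ∨ p % 5 = 3) :
    ∃ x y : ℤ, 5 * x ^ 2 - 3 * y ^ 2 = p := by
  have : Fact p.Prime := ⟨hp⟩
  have hp2 : p ≠ 2 := by rintro rfl; omega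
  have hs3 : ¬ IsSquare ((3 : ℤ) : ZMod p) := by
    intro hh
    have h5 : IsSquare ((3 : ℕ) : ZMod p) := by exact_mod_cast hh
    exact zmod3' (by omega)
      ((ZMod.exists_sq_eq_prime_iff_of_mod_four_eq_one (by omega) (by norm_num)).1 h5)
  have hs5 : ¬ IsSquare ((5 : ℤ) : ZMod p) := by
    intro hh
    have h5 : IsSquare ((5 : ℕ) : ZMod p) := by exact_mod_cast hh
    exact nonsq5 h
      ((ZMod.exists_sq_eq_prime_iff_of_mod_four_eq_one (by omega) (by norm_num)).1 h5)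
  have hsq : IsSquare ((15 : ℤ) : ZMod p) := by
    have := sq_mul_nonsq hs3 hs5
    have e : ((15 : ℤ) : ZMod p) = ((3 * 5 : ℤ) : ZMod p) := by push_cast; norm_num
    rw [e]; exact this
  obtain ⟨x, y, k, hne, hx, hy, hk⟩ := wsmall p hp 4 (by norm_num) 15 hsq
  have hb := bounds (D := 15) (B := 3) hp (t := 4) (by norm_num) (by norm_num) hx hy hk
  have h8 := emod8 x
  have h8' := emod8 y
  have h3 := emod3 x
  have h3' := emod3 y
  obtain ⟨hb1, hb2⟩ := hb
  push_cast at hb1 hb2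
  have hc : k = 0 ∨ k = 1 ∨ k = -1 ∨ k = 2 ∨ k = -2 ∨ k = 3 ∨ k = -3 ∨ k = 4 := by omega
  rcases hc with rfl | rfl | rfl | rfl | rfl | rfl | rfl | rfl
  · exfalso
    exact nonsq_rel (D := 15) (by linarith) hne (not_sq_between 3 (by norm_num) (by norm_num)
      (by norm_num))
  · omega
  · omega
  · obtain ⟨z, hz⟩ := even_of_sq (x := x - y) (t := 8 * y ^ 2 + p - x * y) (by linarith)
    have hx' : x = 2 * z + y := by linarith
    subst hx'
    exact ⟨z + 2 * y, z + 3 * y, by linarith⟩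
  · omega
  · omega
  · obtain ⟨x', rfl⟩ := three_of_sq (x := x) (t := 5 * y ^ 2 - p) (by linarith)
    exact ⟨y, x', by linarith⟩
  · omega

/-- numbers `x^2 - 15 y^2` with `x, y` coprime are in `S` -/
theorem inS_fifteen {n : ℕ} {x y : ℤ} (hn0 : 0 < n) (hn1 : n ≠ 1)
    (hn : (n : ℤ) = x ^ 2 - 15 * y ^ 2) (hco : IsCoprime x y) : InS n := by
  have hn' : (n : ℤ) = 1 * (x - 4 * y) ^ 2 + 8 * ((x - 4 * y) * y) + 1 * y ^ 2 := by
    rw [hn]; ring
  refine complete' (a := 1) (b := 8) (c := 1) (m := 2) (by norm_num) (by norm_num) (by norm_num)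
    ⟨8, by norm_num⟩ ⟨8, by norm_num⟩ (by norm_num) hn0 ?_ ?_ ?_ hn'
  · intro h2; exact hn1 (by exact_mod_cast h2)
  · intro h2; exact hn1 (by exact_mod_cast h2)
  · have := hco.add_mul_right_left (-4)
    have e : x + -4 * y = x - 4 * y := by ring
    rwa [e] at this

/-- twice a prime `5 mod 12`, `±2 mod 5` -/
theorem inS_two15 {p : ℕ} (hp : p.Prime) (h12 : p % 12 = 5) (h : p % 5 = 2 ∨ p % 5 = 3) :
    InS (2 * p) := by
  obtain ⟨x, y, hxy⟩ := rep15 hp h12 h
  have hn : ((2 * p : ℕ) : ℤ) = (5 * x + 3 * y) ^ 2 - 15 * (x + y) ^ 2 := by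
    push_cast; rw [← hxy]; ring
  have hsf : Squarefree (2 * p) := (Nat.squarefree_mul ((Nat.coprime_primes Nat.prime_two hp).2
    (by rintro rfl; omega))).2 ⟨(Nat.prime_iff.1 Nat.prime_two).squarefree,
      (Nat.prime_iff.1 hp).squarefree⟩
  refine inS_fifteen (Nat.mul_pos (by norm_num) hp.pos) ?_ hn ?_
  · have := hp.two_le; omega
  · refine coprime_of_squarefree (a := 1) (b := 0) (c := -15) hsf ?_
    rw [hn]; ring

/-- five times a prime `5 mod 12`, `±2 mod 5` -/
theorem inS_five15 {p : ℕ} (hp : p.Prime) (h12 : p % 12 = 5) (h : p % 5 = 2 ∨ p % 5 = 3) :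
    InS (5 * p) := by
  obtain ⟨x, y, hxy⟩ := rep15 hp h12 h
  have hn : ((5 * p : ℕ) : ℤ) = (5 * x) ^ 2 - 15 * y ^ 2 := by
    push_cast; rw [← hxy]; ring
  have hsf : Squarefree (5 * p) := (Nat.squarefree_mul ((Nat.coprime_primes (by norm_num) hp).2
    (by rintro rfl; omega))).2 ⟨(Nat.prime_iff.1 (by norm_num)).squarefree,
      (Nat.prime_iff.1 hp).squarefree⟩
  refine inS_fifteen (Nat.mul_pos (by norm_num) hp.pos) ?_ hn ?_
  · have := hp.two_le; omega
  · refine coprime_of_squarefree (a := 1) (b := 0) (c := -15) hsf ?_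
    rw [hn]; ring

theorem square_15 {p : ℕ} (hp : p.Prime) (h12 : p % 12 = 5) (h : p % 5 = 2 ∨ p % 5 = 3) :
    InS (p * p) := by
  obtain ⟨x, y, h1⟩ := rep15 hp h12 h
  have hc1 : IsCoprime x y := by
    refine coprime_of_squarefree (a := 5) (b := 0) (c := -3) (Nat.prime_iff.1 hp).squarefree ?_
    linarith
  have hp3 : IsCoprime (3 : ℤ) p := by
    have := (Nat.coprime_primes Nat.prime_three hp).2 (by rintro rfl; omega)
    exact_mod_cast Nat.isCoprime_iff_coprime.2 this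
  have hp5 : IsCoprime (5 : ℤ) p := by
    have := (Nat.coprime_primes (show Nat.Prime 5 by norm_num) hp).2 (by rintro rfl; omega)
    exact_mod_cast Nat.isCoprime_iff_coprime.2 this
  have hc3 : IsCoprime (3 : ℤ) x := by
    have h2 : IsCoprime (3 : ℤ) ((p : ℤ) + 3 * y ^ 2) := hp3.add_mul_left_right _
    have e : (p : ℤ) + 3 * y ^ 2 = 5 * x ^ 2 := by linarith
    rw [e] at h2
    exact (IsCoprime.pow_right_iff (by norm_num)).1 h2.of_mul_right_right
  have hc5 : IsCoprime (5 : ℤ) y := by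
    have h2 : IsCoprime (5 : ℤ) (-(p : ℤ) + 5 * x ^ 2) := hp5.neg_right.add_mul_left_right _
    have e : -(p : ℤ) + 5 * x ^ 2 = 3 * y ^ 2 := by linarith
    rw [e] at h2
    exact (IsCoprime.pow_right_iff (by norm_num)).1 h2.of_mul_right_right
  have hc4 : IsCoprime (5 * x ^ 2 + 3 * y ^ 2) 2 := by
    have h8 := emod8 x
    have h8' := emod8 y
    have h2 : (5 * x ^ 2 + 3 * y ^ 2) % 2 = 1 := by omega
    refine ⟨1, -((5 * x ^ 2 + 3 * y ^ 2) / 2), ?_⟩
    omega
  have hc6 : IsCoprime (5 * x ^ 2 + 3 * y ^ 2) x := by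
    have h2 : IsCoprime (3 * y ^ 2) x := hc3.mul_left hc1.symm.pow_left
    have := h2.add_mul_right_left (5 * x)
    have e : 3 * y ^ 2 + 5 * x * x = 5 * x ^ 2 + 3 * y ^ 2 := by ring
    rwa [e] at this
  have hc7 : IsCoprime (5 * x ^ 2 + 3 * y ^ 2) y := by
    have h2 : IsCoprime (5 * x ^ 2) y := hc5.mul_left hc1.pow_left
    have := h2.add_mul_right_left (3 * y)
    have e : 5 * x ^ 2 + 3 * y * y = 5 * x ^ 2 + 3 * y ^ 2 := by ring
    rwa [e] at this
  refine inS_fifteen (x := 5 * x ^ 2 + 3 * y ^ 2) (y := 2 * x * y) (Nat.mul_pos hp.pos hp.pos) ?_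
    ?_ ((hc4.mul_right hc6).mul_right hc7)
  · intro h3
    have := Nat.eq_one_of_mul_eq_one_right h3
    exact hp.one_lt.ne' this
  · have h3 : ((p * p : ℕ) : ℤ) = (p : ℤ) * (p : ℤ) := by push_cast; ring
    rw [h3, ← h1]
    ring

/-- products of two primes `5 mod 12`, `±2 mod 5` -/
theorem inS_pair15 {p q : ℕ} (hp : p.Prime) (hq : q.Prime) (h12 : p % 12 = 5)
    (h12' : q % 12 = 5) (h : p % 5 = 2 ∨ p % 5 = 3) (h' : q % 5 = 2 ∨ q % 5 = 3) :
    InS (p * q) := by
  by_cases hpq : p = q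
  · subst hpq
    exact square_15 hp h12 h
  obtain ⟨x1, y1, h1⟩ := rep15 hp h12 h
  obtain ⟨x2, y2, h2⟩ := rep15 hq h12' h'
  have hn : ((p * q : ℕ) : ℤ) = (5 * x1 * x2 + 3 * y1 * y2) ^ 2 -
      15 * (x1 * y2 + x2 * y1) ^ 2 := by
    have h3 : ((p * q : ℕ) : ℤ) = (p : ℤ) * (q : ℤ) := by push_cast; ring
    rw [h3, ← h1, ← h2]
    ring
  have hsf : Squarefree (p * q) := (Nat.squarefree_mul ((Nat.coprime_primes hp hq).2 hpq)).2
      ⟨(Nat.prime_iff.1 hp).squarefree, (Nat.prime_iff.1 hq).squarefree⟩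
  refine inS_fifteen (Nat.mul_pos hp.pos hq.pos) ?_ hn ?_
  · intro h3
    have := Nat.eq_one_of_mul_eq_one_right h3
    exact hp.one_lt.ne' this
  · refine coprime_of_squarefree (a := 1) (b := 0) (c := -15) hsf ?_
    rw [hn]; ring

/-! ## eight times a prime: the field of discriminant -15 -/

theorem core15 {n : ℕ} {x y : ℤ} (hn0 : 0 < n) (hn : (n : ℤ) = 2 * x ^ 2 + x * y + 2 * y ^ 2)
    (hsf : ∀ z : ℤ, (n : ℤ) ≠ 12 * z ^ 2 ∧ (n : ℤ) ≠ 2 * z ^ 2 ∧ (n : ℤ) ≠ 8 * z ^ 2 ∧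
      (n : ℤ) ≠ 3 * z ^ 2) (hy : 0 < y) : InS (8 * n) := by
  have lift : ∀ k : ℕ, k ∣ 8 → InS (k * n) → InS (8 * n) := fun k hk h =>
    h.of_dvd (by omega) (Nat.mul_dvd_mul_right hk n)
  rcases lt_trichotomy x 0 with hx | hx | hx
  · rcases lt_trichotomy (x + y) 0 with h1 | h1 | h1
    · rcases lt_trichotomy (x + 2 * y) 0 with h2 | h2 | h2
      · by_cases h3 : 0 < x + 10 * y
        · refine inS_of_int (a := 1) (b := 9) (c := 24) (m := 6) (X := x + 10 * y)
            (Y := -x - 2 * y) (by norm_num) (by norm_num) (by norm_num) h3 (by omega)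
            (by norm_num) ?_
          push_cast; rw [hn]; ring
        · apply lift 2 (by norm_num)
          refine inS_of_int (a := 1) (b := 9) (c := 24) (m := 6) (X := -2 * x - 5 * y)
            (Y := y) (by norm_num) (by norm_num) (by norm_num) (by omega) hy (by norm_num) ?_
          push_cast; rw [hn]; ring
      · exfalso
        apply (hsf y).2.2.1
        have : x = -2 * y := by omega
        rw [hn, this]; ring
      · apply lift 1 (by norm_num)
        refine inS_of_int (a := 3) (b := 9) (c := 8) (m := 6) (X := x + 2 * y)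
            (Y := -x - y) (by norm_num) (by norm_num) (by norm_num) h2 (by omega) (by norm_num) ?_
        push_cast; rw [hn]; ring
    · exfalso
      apply (hsf y).2.2.2
      have : x = -y := by omega
      rw [hn, this]; ring
    · rcases lt_trichotomy (2 * x + y) 0 with h2 | h2 | h2
      · apply lift 1 (by norm_num)
        refine inS_of_int (a := 3) (b := 9) (c := 8) (m := 6) (X := -2 * x - y)
            (Y := x + y) (by norm_num) (by norm_num) (by norm_num) (by omega) h1 (by norm_num) ?_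
        push_cast; rw [hn]; ring
      · exfalso
        apply (hsf x).2.2.1
        have : y = -2 * x := by omega
        rw [hn, this]; ring
      · by_cases h3 : 0 < 5 * x + 2 * y
        · apply lift 2 (by norm_num)
          refine inS_of_int (a := 1) (b := 9) (c := 24) (m := 6) (X := 5 * x + 2 * y)
            (Y := -x) (by norm_num) (by norm_num) (by norm_num) h3 (by omega) (by norm_num) ?_
          push_cast; rw [hn]; ring
        · refine inS_of_int (a := 1) (b := 9) (c := 24) (m := 6) (X := -10 * x - y)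
            (Y := 2 * x + y) (by norm_num) (by norm_num) (by norm_num) (by omega) h2
            (by norm_num) ?_
          push_cast; rw [hn]; ring
  · exfalso
    apply (hsf y).2.1
    rw [hn, hx]; ring
  · rcases lt_trichotomy (2 * x - y) 0 with h1 | h1 | h1
    · apply lift 1 (by norm_num)
      refine inS_of_int (a := 2) (b := 9) (c := 12) (m := 6) (X := y - 2 * x)
            (Y := x) (by norm_num) (by norm_num) (by norm_num) (by omega) hx (by norm_num) ?_
      push_cast; rw [hn]; ring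
    · exfalso
      apply (hsf x).1
      have : y = 2 * x := by omega
      rw [hn, this]; ring
    · rcases lt_trichotomy (x - 2 * y) 0 with h2 | h2 | h2
      · by_cases h3 : 0 < 3 * x - 2 * y
        · apply lift 4 (by norm_num)
          refine inS_of_int (a := 3) (b := 9) (c := 8) (m := 6) (X := 3 * x - 2 * y)
            (Y := 2 * y - x) (by norm_num) (by norm_num) (by norm_num) h3 (by omega)
            (by norm_num) ?_
          push_cast; rw [hn]; ring
        · apply lift 4 (by norm_num)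
          refine inS_of_int (a := 3) (b := 9) (c := 8) (m := 6) (X := 3 * y - 2 * x)
            (Y := 2 * x - y) (by norm_num) (by norm_num) (by norm_num) (by omega) (by omega)
            (by norm_num) ?_
          push_cast; rw [hn]; ring
      · exfalso
        apply (hsf y).1
        have : x = 2 * y := by omega
        rw [hn, this]; ring
      · apply lift 1 (by norm_num)
        refine inS_of_int (a := 2) (b := 9) (c := 12) (m := 6) (X := x - 2 * y)
            (Y := y) (by norm_num) (by norm_num) (by norm_num) h2 hy (by norm_num) ?_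
        push_cast; rw [hn]; ring

theorem emod5 (x : ℤ) : x ^ 2 % 5 = 0 ∨ x ^ 2 % 5 = 1 ∨ x ^ 2 % 5 = 4 := by
  have e : x % 5 = 0 ∨ x % 5 = 1 ∨ x % 5 = 2 ∨ x % 5 = 3 ∨ x % 5 = 4 := by omega
  rcases e with h | h | h | h | h <;> simp [pow_two, Int.mul_emod, h]

/-- primes `11 mod 24`, `±2 mod 5` -/
theorem repm15 {p : ℕ} (hp : p.Prime) (h24 : p % 24 = 11) (h : p % 5 = 2 ∨ p % 5 = 3) :
    ∃ x y : ℤ, 2 * x ^ 2 + x * y + 2 * y ^ 2 = p := by
  have : Fact p.Prime := ⟨hp⟩
  have hp2 : p ≠ 2 := by rintro rfl; omega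
  have hs1 : ¬ IsSquare ((-1 : ℤ) : ZMod p) := by
    push_cast
    rw [ZMod.exists_sq_eq_neg_one_iff]
    omega
  have hs5 : ¬ IsSquare ((5 : ℤ) : ZMod p) := by
    intro hh
    have h5 : IsSquare ((5 : ℕ) : ZMod p) := by exact_mod_cast hh
    exact nonsq5 h
      ((ZMod.exists_sq_eq_prime_iff_of_mod_four_eq_one (p := 5) (q := p) (by norm_num) hp2).2 h5)
  have hsq : IsSquare ((-15 : ℤ) : ZMod p) := by
    have := (sq_mul_nonsq hs1 hs5).mul (three_sq hp h24)
    have e : ((-15 : ℤ) : ZMod p) = ((-1 * 5 : ℤ) : ZMod p) * ((3 : ℤ) : ZMod p) := by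
      push_cast; ring
    rw [e]; exact this
  obtain ⟨x, y, k, hne, hx, hy, hk⟩ := wsmall p hp 4 (by norm_num) (-15) hsq
  have h3 := emod3 x
  have h5 := emod5 x
  push_cast at hx hy
  have hp0 : (0 : ℤ) < p := by exact_mod_cast hp.pos
  have hpos : 0 < x ^ 2 - -15 * y ^ 2 := by
    rcases hne with h | h
    · have : 0 < x ^ 2 := by positivity
      nlinarith [sq_nonneg y]
    · have : 0 < y ^ 2 := by positivity
      nlinarith [sq_nonneg x]
  have hk0 : 0 < k := by
    by_contra hh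
    push Not at hh
    nlinarith
  have hk8 : k < 8 := by
    by_contra hh
    push Not at hh
    nlinarith
  have hc : k = 1 ∨ k = 2 ∨ k = 3 ∨ k = 4 ∨ k = 5 ∨ k = 6 ∨ k = 7 := by omega
  rcases hc with rfl | rfl | rfl | rfl | rfl | rfl | rfl
  · omega
  · obtain ⟨z, hz⟩ := even_of_sq (x := x - y) (t := p - 7 * y ^ 2 - x * y) (by linarith)
    have hx' : x = 2 * z + y := by linarith
    subst hx'
    exact ⟨z, 2 * y, by linarith⟩
  · obtain ⟨x', rfl⟩ := three_of_sq (x := x) (t := p - 5 * y ^ 2) (by linarith)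
    exact ⟨y + x', y - x', by linarith⟩
  · omega
  · have h6 : (5 : ℤ) ∣ x ^ 2 := ⟨p - 3 * y ^ 2, by linarith⟩
    have h7 : (5 : ℤ) ∣ x :=
      (Int.prime_iff_natAbs_prime.2 (by norm_num : Nat.Prime (Int.natAbs 5))).dvd_of_dvd_pow h6
    obtain ⟨x', rfl⟩ := h7
    exact ⟨x' + y, x' - y, by linarith⟩
  · omega
  · omega

theorem inS_eight15 {p : ℕ} (hp : p.Prime) (h24 : p % 24 = 11) (h : p % 5 = 2 ∨ p % 5 = 3) :
    InS (8 * p) := by
  obtain ⟨x, y, hxy⟩ := repm15 hp h24 h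
  have hsf : ∀ z : ℤ, (p : ℤ) ≠ 12 * z ^ 2 ∧ (p : ℤ) ≠ 2 * z ^ 2 ∧ (p : ℤ) ≠ 8 * z ^ 2 ∧
      (p : ℤ) ≠ 3 * z ^ 2 := by
    intro z
    refine ⟨?_, ?_, ?_, ?_⟩ <;> intro hz <;> omega
  rcases lt_trichotomy y 0 with hy | hy | hy
  · exact core15 (x := -x) (y := -y) hp.pos (by rw [← hxy]; ring) hsf (by linarith)
  · exfalso
    apply (hsf x).2.1
    rw [← hxy, hy]; ring
  · exact core15 hp.pos hxy.symm hsf hy

end Pool.Agent.Work.MP_43ce8a_nt.NC
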