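import Mathlib
import Pool.Agent.Work.MP_43ce8a_nt.Assemble
import Pool.Agent.Work.MP_43ce8a_nt.NC

set_option autoImplicit false

/-!
# The structure of the integers outside `S`, second part
-/

namespace Pool.Agent.Work.MP_43ce8a_nt.NC

open Finset Pool.Agent.Work.MP_43ce8a_nt

theorem inS_25 : InS 25 := ⟨3, 4, 18, 6, by norm_num, by norm_num, by norm_num, by norm_num,
  by norm_num⟩

theorem inS_121 : InS 121 := ⟨1, 45, 75, 15, by norm_num, by norm_num, by norm_num, by norm_num,
  by norm_num⟩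

theorem inS_10 : InS 10 := ⟨1, 1, 8, 2, by norm_num, by norm_num, by norm_num, by norm_num,
  by norm_num⟩

/-- if all products of two prime factors `r mod 24` on the same side of `P` are in `S`, there are
at most two such factors -/
theorem om_le_two {n r : ℕ} (hn : 0 < n) (h : ¬ InS n) (P : ℕ → Prop)
    (hP : ∀ p q : ℕ, p.Prime → q.Prime → p % 24 = r → q % 24 = r → p ∣ n → q ∣ n →
      (P p ↔ P q) → InS (p * q)) : om r n ≤ 2 := by
  by_contra hcon
  push Not at hcon
  rw [om_eq] at hcon
  have hmem : ∀ p ∈ n.primeFactorsList.filter (fun p => p % 24 = r),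
      p.Prime ∧ p % 24 = r ∧ p ∣ n := by
    intro p hp
    rw [List.mem_filter] at hp
    exact ⟨Nat.prime_of_mem_primeFactorsList hp.1, by simpa using hp.2,
      Nat.dvd_of_mem_primeFactorsList hp.1⟩
  have hdvd : (n.primeFactorsList.filter (fun p => p % 24 = r)).prod ∣ n := by
    have h4 : (n.primeFactorsList.filter (fun p => p % 24 = r)).prod ∣ n.primeFactorsList.prod :=
      List.filter_sublist.prod_dvd_prod
    rwa [Nat.prod_primeFactorsList hn.ne'] at h4
  generalize n.primeFactorsList.filter (fun p => p % 24 = r) = L at *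
  match L, hcon, hmem, hdvd with
  | [], hcon, _, _ => simp at hcon
  | [_], hcon, _, _ => simp at hcon
  | [_, _], hcon, _, _ => simp at hcon
  | a :: b :: c :: t, _, hmem, hdvd =>
    obtain ⟨a1, a2, a3⟩ := hmem a (by simp)
    obtain ⟨b1, b2, b3⟩ := hmem b (by simp)
    obtain ⟨c1, c2, c3⟩ := hmem c (by simp)
    have hprod : (a :: b :: c :: t).prod = a * (b * (c * t.prod)) := by simp
    rw [hprod] at hdvd
    have d1 : a * b ∣ n := Dvd.dvd.trans ⟨c * t.prod, by ring⟩ hdvd
    have d2 : a * c ∣ n := Dvd.dvd.trans ⟨b * t.prod, by ring⟩ hdvd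
    have d3 : b * c ∣ n := Dvd.dvd.trans ⟨a * t.prod, by ring⟩ hdvd
    by_cases pa : P a <;> by_cases pb : P b <;> by_cases pc : P c
    · exact h ((hP a b a1 b1 a2 b2 a3 b3 (by tauto)).of_dvd hn d1)
    · exact h ((hP a b a1 b1 a2 b2 a3 b3 (by tauto)).of_dvd hn d1)
    · exact h ((hP a c a1 c1 a2 c2 a3 c3 (by tauto)).of_dvd hn d2)
    · exact h ((hP b c b1 c1 b2 c2 b3 c3 (by tauto)).of_dvd hn d3)
    · exact h ((hP b c b1 c1 b2 c2 b3 c3 (by tauto)).of_dvd hn d3)
    · exact h ((hP a c a1 c1 a2 c2 a3 c3 (by tauto)).of_dvd hn d2)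
    · exact h ((hP a b a1 b1 a2 b2 a3 b3 (by tauto)).of_dvd hn d1)
    · exact h ((hP a b a1 b1 a2 b2 a3 b3 (by tauto)).of_dvd hn d1)

theorem om_le_one {n r : ℕ} (hn : 0 < n) (h : ¬ InS n)
    (hP : ∀ p q : ℕ, p.Prime → q.Prime → p % 24 = r → q % 24 = r → p ∣ n → q ∣ n →
      InS (p * q)) : om r n ≤ 1 := by
  by_contra hcon
  push Not at hcon
  rw [om_eq] at hcon
  have hmem : ∀ p ∈ n.primeFactorsList.filter (fun p => p % 24 = r),
      p.Prime ∧ p % 24 = r ∧ p ∣ n := by
    intro p hp
    rw [List.mem_filter] at hp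
    exact ⟨Nat.prime_of_mem_primeFactorsList hp.1, by simpa using hp.2,
      Nat.dvd_of_mem_primeFactorsList hp.1⟩
  have hdvd : (n.primeFactorsList.filter (fun p => p % 24 = r)).prod ∣ n := by
    have h4 : (n.primeFactorsList.filter (fun p => p % 24 = r)).prod ∣ n.primeFactorsList.prod :=
      List.filter_sublist.prod_dvd_prod
    rwa [Nat.prod_primeFactorsList hn.ne'] at h4
  generalize n.primeFactorsList.filter (fun p => p % 24 = r) = L at *
  match L, hcon, hmem, hdvd with
  | [], hcon, _, _ => simp at hcon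
  | [_], hcon, _, _ => simp at hcon
  | a :: b :: t, _, hmem, hdvd =>
    obtain ⟨a1, a2, a3⟩ := hmem a (by simp)
    obtain ⟨b1, b2, b3⟩ := hmem b (by simp)
    have hprod : (a :: b :: t).prod = a * (b * t.prod) := by simp
    rw [hprod] at hdvd
    have d1 : a * b ∣ n := Dvd.dvd.trans ⟨t.prod, by ring⟩ hdvd
    exact h ((hP a b a1 b1 a2 b2 a3 b3).of_dvd hn d1)

theorem eq_five {p : ℕ} (hp : p.Prime) (h : p % 5 = 0) : p = 5 :=
  ((Nat.prime_dvd_prime_iff_eq (by norm_num) hp).1 (Nat.dvd_of_mod_eq_zero h)).symm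

/-- at most two prime factors `5 mod 24` -/
theorem om5_two {n : ℕ} (hn : 0 < n) (h : ¬ InS n) : om 5 n ≤ 2 := by
  refine om_le_two hn h (fun p => p % 5 = 1 ∨ p % 5 = 4) ?_
  intro p q hp hq hp24 hq24 _ _ hiff
  by_cases h1 : p % 5 = 1 ∨ p % 5 = 4
  · have h2 := hiff.1 h1
    exact inS_pair5 hp hq h1 h2 (by rintro rfl; omega) (by rintro rfl; omega)
  · have h2 : ¬ (q % 5 = 1 ∨ q % 5 = 4) := fun hh => h1 (hiff.2 hh)
    by_cases hp5 : p % 5 = 0
    · have := eq_five hp hp5
      subst this
      by_cases hq5 : q % 5 = 0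
      · have := eq_five hq hq5
        subst this
        exact inS_25
      · exact inS_five15 hq (by omega) (by omega)
    · by_cases hq5 : q % 5 = 0
      · have := eq_five hq hq5
        subst this
        rw [mul_comm]
        exact inS_five15 hp (by omega) (by omega)
      · exact inS_pair15 hp hq (by omega) (by omega) (by omega) (by omega)

/-- for even `n`, at most one prime factor `5 mod 24` -/
theorem om5_one {n : ℕ} (hn : 0 < n) (h : ¬ InS n) (h2 : 2 ∣ n) : om 5 n ≤ 1 := by
  have side : ∀ p : ℕ, p.Prime → p % 24 = 5 → p ∣ n → p % 5 = 1 ∨ p % 5 = 4 := by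
    intro p hp hp24 hpn
    by_contra h1
    have hcop : Nat.Coprime 2 p := (Nat.coprime_primes Nat.prime_two hp).2 (by rintro rfl; omega)
    have h3 : 2 * p ∣ n := hcop.mul_dvd_of_dvd_of_dvd h2 hpn
    by_cases hp5 : p % 5 = 0
    · have := eq_five hp hp5
      subst this
      exact h (inS_10.of_dvd hn h3)
    · exact h ((inS_two15 hp (by omega) (by omega)).of_dvd hn h3)
  refine om_le_one hn h ?_
  intro p q hp hq hp24 hq24 hpn hqn
  exact inS_pair5 hp hq (side p hp hp24 hpn) (side q hq hq24 hqn) (by rintro rfl; omega)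
    (by rintro rfl; omega)

/-- if `8 ∣ n`, at most two prime factors `11 mod 24` -/
theorem om11_two {n : ℕ} (hn : 0 < n) (h : ¬ InS n) (h8 : 8 ∣ n) : om 11 n ≤ 2 := by
  have side : ∀ p : ℕ, p.Prime → p % 24 = 11 → p ∣ n → p % 5 = 1 ∨ p % 5 = 4 := by
    intro p hp hp24 hpn
    by_contra h1
    have hcop : Nat.Coprime 8 p := by
      have : Nat.Coprime 2 p := (Nat.coprime_primes Nat.prime_two hp).2 (by rintro rfl; omega)
      exact Nat.Coprime.pow_left 3 this
    have h3 : 8 * p ∣ n := hcop.mul_dvd_of_dvd_of_dvd h8 hpn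
    have hp5 : p % 5 ≠ 0 := by
      intro hh
      have := eq_five hp hh
      omega
    exact h ((inS_eight15 hp hp24 (by omega)).of_dvd hn h3)
  refine om_le_two hn h (fun p => p = 11) ?_
  intro p q hp hq hp24 hq24 hpn hqn hiff
  by_cases h1 : p = 11
  · have h2 : q = 11 := hiff.1 h1
    rw [h1, h2]
    exact inS_121
  · have h2 : q ≠ 11 := fun hh => h1 (hiff.2 hh)
    exact inS_pair5 hp hq (side p hp hp24 hpn) (side q hq hq24 hqn) h1 h2

theorem length_eq {n : ℕ} (hn : 0 < n) (h : ¬ InS n) :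
    n.primeFactorsList.length ≤ n.factorization 2 + om 5 n + om 11 n := by
  have e1 : n.primeFactorsList.length = ∑ p ∈ n.primeFactors, n.factorization p := by
    rw [← List.sum_toFinset_count_eq_length]
    apply Finset.sum_congr rfl
    intro p _
    rw [Nat.primeFactorsList_count_eq]
  have hsub : n.primeFactors ⊆ ({2} ∪ pf 5 n) ∪ pf 11 n := by
    intro p hp
    rcases prime_cases hn h hp with h1 | h1 | h1
    · simp [h1]
    · simp only [Finset.mem_union]
      left; right
      rw [pf, Finset.mem_filter]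
      exact ⟨hp, h1⟩
    · simp only [Finset.mem_union]
      right
      rw [pf, Finset.mem_filter]
      exact ⟨hp, h1⟩
  rw [e1]
  calc ∑ p ∈ n.primeFactors, n.factorization p
      ≤ ∑ p ∈ ({2} ∪ pf 5 n) ∪ pf 11 n, n.factorization p :=
        Finset.sum_le_sum_of_subset hsub
    _ ≤ ∑ p ∈ ({2} ∪ pf 5 n), n.factorization p + ∑ p ∈ pf 11 n, n.factorization p :=
        sum_union_le' _ _ _
    _ ≤ (∑ p ∈ ({2} : Finset ℕ), n.factorization p + ∑ p ∈ pf 5 n, n.factorization p) +
        ∑ p ∈ pf 11 n, n.factorization p := by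
        gcongr
        exact sum_union_le' _ _ _
    _ = _ := by rw [Finset.sum_singleton]; rfl

theorem card_pf_le {n r : ℕ} (hn : 0 < n) : #(pf r n) ≤ om r n := by
  rw [om, Finset.card_eq_sum_ones]
  apply Finset.sum_le_sum
  intro p hp
  exact (mem_pf hn hp).2.2

theorem length_le8 {n : ℕ} (hn : 0 < n) (h : ¬ InS n) : n.primeFactorsList.length ≤ 8 := by
  have h0 := length_eq hn h
  have h1 := two_le hn h
  have h2 := om5_two hn h
  have h3 := (om11 hn h).1
  by_cases hev : 2 ∣ n
  · have h4 := om5_one hn h hev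
    by_cases h8 : 8 ∣ n
    · have h5 := om11_two hn h h8
      omega
    · have h6 : n.factorization 2 ≤ 2 := by
        by_contra hc
        push Not at hc
        apply h8
        have : 2 ^ 3 ∣ n := (Nat.prime_two.pow_dvd_iff_le_factorization hn.ne').2 hc
        exact this
      omega
  · have h6 : n.factorization 2 = 0 := Nat.factorization_eq_zero_of_not_dvd hev
    omega

theorem card_le4 {n : ℕ} (hn : 0 < n) (h : ¬ InS n) : #n.primeFactors ≤ 4 := by
  have h1 := card11 hn h
  have hsub : n.primeFactors.erase 2 ⊆ pf 5 n ∪ pf 11 n := by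
    intro p hp
    rw [Finset.mem_erase] at hp
    rcases prime_cases hn h hp.2 with h1 | h1 | h1
    · exact absurd h1 hp.1
    · simp only [Finset.mem_union]
      left
      rw [pf, Finset.mem_filter]
      exact ⟨hp.2, h1⟩
    · simp only [Finset.mem_union]
      right
      rw [pf, Finset.mem_filter]
      exact ⟨hp.2, h1⟩
  have h2 : #(n.primeFactors.erase 2) ≤ #(pf 5 n) + #(pf 11 n) :=
    (Finset.card_le_card hsub).trans (Finset.card_union_le _ _)
  have h3 : #(pf 5 n) ≤ om 5 n := card_pf_le hn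
  have h4 : #n.primeFactors ≤ #(n.primeFactors.erase 2) + 1 := by
    have := Finset.pred_card_le_card_erase (s := n.primeFactors) (a := 2)
    omega
  by_cases hev : 2 ∣ n
  · have h5 := om5_one hn h hev
    omega
  · have h5 := om5_two hn h
    have h6 : n.primeFactors.erase 2 = n.primeFactors := by
      apply Finset.erase_eq_of_notMem
      intro hh
      exact hev (Nat.dvd_of_mem_primeFactors hh)
    rw [h6] at h2
    omega

end Pool.Agent.Work.MP_43ce8a_nt.NC
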